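import Mathlib

/-!
MP_132c09_co: exactly lambda-intersecting subfamilies.
The age of an element of the ground set with respect to a sequence of sets.
-/

namespace Pool.Agent.LIS

open Finset

/-- `e` is not covered by the first `j` sets -/
def Unc {n k : ℕ} (f : Fin k → Finset (Fin n)) (j : ℕ) (e : Fin n) : Prop :=
  ∀ i : Fin k, i.val < j → e ∉ f i

lemma Unc.mono {n k : ℕ} {f : Fin k → Finset (Fin n)} {j j' : ℕ} {e : Fin n} (h : Unc f j e)
    (hj : j' ≤ j) : Unc f j' e := fun i hi => h i (lt_of_lt_of_le hi hj)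

open scoped Classical in
/-- the weight of an element: `((i+1)/k)^2` if the first set containing it is the one with index
`i`, and `1` if it is not covered -/
noncomputable def age {n k : ℕ} (f : Fin k → Finset (Fin n)) (e : Fin n) : ℝ :=
  ∑ j ∈ range k, (2 * (j : ℝ) + 1) / (k : ℝ) ^ 2 * (if Unc f j e then 1 else 0)

lemma sum_odd (m : ℕ) : ∑ j ∈ range m, (2 * (j : ℝ) + 1) = (m : ℝ) ^ 2 := by
  induction m with
  | zero => simp
  | succ m ih => rw [Finset.sum_range_succ, ih]; push_cast; ring

variable {n k : ℕ}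

lemma age_nonneg (f : Fin k → Finset (Fin n)) (e : Fin n) : 0 ≤ age f e := by
  classical
  unfold age
  refine Finset.sum_nonneg fun j _ => ?_
  split_ifs
  · positivity
  · simp

lemma age_le_one (hk : 1 ≤ k) (f : Fin k → Finset (Fin n)) (e : Fin n) : age f e ≤ 1 := by
  classical
  have hk' : (0 : ℝ) < k := by exact_mod_cast hk
  unfold age
  calc ∑ j ∈ range k, (2 * (j : ℝ) + 1) / (k : ℝ) ^ 2 * (if Unc f j e then 1 else 0)
      ≤ ∑ j ∈ range k, (2 * (j : ℝ) + 1) / (k : ℝ) ^ 2 := by
        refine Finset.sum_le_sum fun j _ => ?_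
        have : 0 ≤ (2 * (j : ℝ) + 1) / (k : ℝ) ^ 2 := by positivity
        split_ifs
        · linarith
        · linarith
    _ = 1 := by
        rw [← Finset.sum_div, sum_odd]
        field_simp

lemma le_age (f : Fin k → Finset (Fin n)) (e : Fin n) (i : ℕ) (hi : i < k) (h : Unc f i e) :
    ((i : ℝ) + 1) ^ 2 / (k : ℝ) ^ 2 ≤ age f e := by
  classical
  have h1 : ((i : ℝ) + 1) ^ 2 = ∑ j ∈ range (i + 1), (2 * (j : ℝ) + 1) := by
    rw [sum_odd]; push_cast; ring
  rw [h1, Finset.sum_div]
  unfold age
  calc ∑ j ∈ range (i + 1), (2 * (j : ℝ) + 1) / (k : ℝ) ^ 2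
      = ∑ j ∈ range (i + 1), (2 * (j : ℝ) + 1) / (k : ℝ) ^ 2 * (if Unc f j e then 1 else 0) := by
        refine Finset.sum_congr rfl fun j hj => ?_
        rw [if_pos (h.mono (Nat.lt_succ_iff.mp (Finset.mem_range.mp hj))), mul_one]
    _ ≤ _ := by
        apply Finset.sum_le_sum_of_subset_of_nonneg
        · exact Finset.range_subset_range.mpr hi
        · intro j _ _
          split_ifs
          · positivity
          · simp

lemma age_pos (hk : 1 ≤ k) (f : Fin k → Finset (Fin n)) (e : Fin n) : 0 < age f e := by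
  have hk' : (0 : ℝ) < k := by exact_mod_cast hk
  refine lt_of_lt_of_le ?_ (le_age f e 0 hk (fun i hi => absurd hi (Nat.not_lt_zero _)))
  positivity

lemma age_eq_one (hk : 1 ≤ k) (f : Fin k → Finset (Fin n)) (e : Fin n) (h : ∀ i, e ∉ f i) :
    age f e = 1 := by
  have hk' : (0 : ℝ) < k := by exact_mod_cast hk
  refine le_antisymm (age_le_one hk f e) ?_
  have h1 := le_age f e (k - 1) (by omega) (fun i _ => h i)
  have h2 : ((k - 1 : ℕ) : ℝ) + 1 = k := by
    have : (k - 1) + 1 = k := by omega
    exact_mod_cast this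
  rw [h2, div_self (by positivity)] at h1
  exact h1

lemma binom_ineq (a d : ℝ) (ha : 0 ≤ a) (hd : 0 ≤ d) (j : ℕ) :
    ((j : ℝ) + 1) * d * a ^ j ≤ (a + d) ^ (j + 1) := by
  induction j with
  | zero => simp; linarith
  | succ j ih =>
    have h1 : a ^ (j + 1) ≤ (a + d) ^ (j + 1) := pow_le_pow_left₀ ha (by linarith) _
    push_cast
    calc ((j : ℝ) + 1 + 1) * d * a ^ (j + 1)
        = (((j : ℝ) + 1) * d * a ^ j) * a + d * a ^ (j + 1) := by ring
      _ ≤ (a + d) ^ (j + 1) * a + d * (a + d) ^ (j + 1) := by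
          apply add_le_add
          · exact mul_le_mul_of_nonneg_right ih ha
          · exact mul_le_mul_of_nonneg_left h1 hd
      _ = (a + d) ^ (j + 1 + 1) := by ring

open scoped Classical in
lemma card_unc (Y : Finset (Finset (Fin n))) (e : Fin n) (j : ℕ) (hj : j ≤ k) :
    ((Fintype.piFinset (fun _ : Fin k => Y)).filter (fun f => Unc f j e)).card =
      (Y.filter fun y => e ∉ y).card ^ j * Y.card ^ (k - j) := by
  have h1 : (Fintype.piFinset (fun _ : Fin k => Y)).filter (fun f => Unc f j e) =
      Fintype.piFinset (fun i : Fin k => if i.val < j then Y.filter fun y => e ∉ y else Y) := by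
    ext f
    simp only [Finset.mem_filter, Fintype.mem_piFinset, Unc]
    constructor
    · rintro ⟨h, h'⟩ i
      split_ifs with hi
      · exact Finset.mem_filter.mpr ⟨h i, h' i hi⟩
      · exact h i
    · intro h
      refine ⟨fun i => ?_, fun i hi => ?_⟩
      · have := h i
        split_ifs at this
        · exact (Finset.mem_filter.mp this).1
        · exact this
      · have := h i
        rw [if_pos hi] at this
        exact (Finset.mem_filter.mp this).2
  rw [h1, Fintype.card_piFinset]
  have h2 : ∀ i : Fin k, (if i.val < j then Y.filter (fun y => e ∉ y) else Y).card =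
      (fun i : ℕ => if i < j then (Y.filter fun y => e ∉ y).card else Y.card) i.val := by
    intro i
    simp only
    split_ifs <;> rfl
  rw [Finset.prod_congr rfl (fun i _ => h2 i),
    ← Finset.prod_range (fun i : ℕ => if i < j then (Y.filter fun y => e ∉ y).card else Y.card),
    ← Finset.prod_range_mul_prod_Ico _ hj]
  congr 1
  · rw [Finset.prod_congr rfl (fun i hi => if_pos (Finset.mem_range.mp hi)), Finset.prod_const,
      Finset.card_range]
  · rw [Finset.prod_congr rfl
      (fun i hi => if_neg (not_lt.mpr (Finset.mem_Ico.mp hi).1)), Finset.prod_const,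
      Nat.card_Ico]

open scoped Classical in
/-- expected weight of a random set with respect to random sets from the same family -/
theorem age_sum (hk : 1 ≤ k) (Y : Finset (Finset (Fin n))) :
    ∑ f ∈ Fintype.piFinset (fun _ : Fin k => Y), ∑ y ∈ Y, ∑ e ∈ y, age f e ≤
      (2 * (n : ℝ) / k) * (Y.card : ℝ) ^ (k + 1) := by
  have hk' : (0 : ℝ) < k := by exact_mod_cast hk
  set N : ℝ := (Y.card : ℝ) with hN
  let d : Fin n → ℝ := fun e => ((Y.filter fun y => e ∈ y).card : ℝ)
  let a : Fin n → ℝ := fun e => ((Y.filter fun y => e ∉ y).card : ℝ)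
  have had : ∀ e, a e + d e = N := by
    intro e
    simp only [a, d, hN]
    have := Finset.card_filter_add_card_filter_not (s := Y) (fun y => e ∈ y)
    rw [add_comm]
    exact_mod_cast this
  have h1 : ∀ f : Fin k → Finset (Fin n), ∑ y ∈ Y, ∑ e ∈ y, age f e = ∑ e, d e * age f e := by
    intro f
    have : ∀ y : Finset (Fin n), ∑ e ∈ y, age f e = ∑ e, if e ∈ y then age f e else 0 := by
      intro y
      rw [Finset.sum_ite_mem, Finset.univ_inter]
    simp_rw [this]
    rw [Finset.sum_comm]
    refine Finset.sum_congr rfl fun e _ => ?_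
    rw [← Finset.sum_filter, Finset.sum_const, nsmul_eq_mul]
  simp_rw [h1]
  rw [Finset.sum_comm]
  have h2 : ∀ e : Fin n, ∑ f ∈ Fintype.piFinset (fun _ : Fin k => Y), d e * age f e ≤
      2 / k * N ^ (k + 1) := by
    intro e
    rw [← Finset.mul_sum]
    have h3 : ∑ f ∈ Fintype.piFinset (fun _ : Fin k => Y), age f e =
        ∑ j ∈ range k, (2 * (j : ℝ) + 1) / (k : ℝ) ^ 2 * (a e ^ j * N ^ (k - j)) := by
      unfold age
      rw [Finset.sum_comm]
      refine Finset.sum_congr rfl fun j hj => ?_
      rw [← Finset.mul_sum]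
      congr 1
      have := card_unc (k := k) Y e j (Finset.mem_range.mp hj).le
      rw [← Finset.sum_filter, Finset.sum_const, nsmul_eq_mul, mul_one, this]
      push_cast
      rfl
    rw [h3, Finset.mul_sum]
    calc ∑ j ∈ range k, d e * ((2 * (j : ℝ) + 1) / (k : ℝ) ^ 2 * (a e ^ j * N ^ (k - j)))
        ≤ ∑ j ∈ range k, 2 / (k : ℝ) ^ 2 * N ^ (k + 1) := by
          refine Finset.sum_le_sum fun j hj => ?_
          have hj' : j < k := Finset.mem_range.mp hj
          have hb := binom_ineq (a e) (d e) (Nat.cast_nonneg _) (Nat.cast_nonneg _) j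
          rw [had] at hb
          have hNk : N ^ (k + 1) = N ^ (j + 1) * N ^ (k - j) := by
            rw [← pow_add]; congr 1; omega
          have hN0 : 0 ≤ N ^ (k - j) := pow_nonneg (Nat.cast_nonneg _) _
          have hd0 : 0 ≤ d e := Nat.cast_nonneg _
          have ha0 : 0 ≤ a e ^ j := pow_nonneg (Nat.cast_nonneg _) _
          rw [hNk]
          have h4 : d e * ((2 * (j : ℝ) + 1) / (k : ℝ) ^ 2 * (a e ^ j * N ^ (k - j))) =
              1 / (k : ℝ) ^ 2 * ((2 * (j : ℝ) + 1) * d e * a e ^ j) * N ^ (k - j) := by ring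
          have h5 : 2 / (k : ℝ) ^ 2 * (N ^ (j + 1) * N ^ (k - j)) =
              1 / (k : ℝ) ^ 2 * (2 * N ^ (j + 1)) * N ^ (k - j) := by ring
          rw [h4, h5]
          apply mul_le_mul_of_nonneg_right _ hN0
          apply mul_le_mul_of_nonneg_left _ (by positivity)
          have h6 : 0 ≤ d e * a e ^ j := mul_nonneg hd0 ha0
          nlinarith
      _ = 2 / k * N ^ (k + 1) := by
          rw [Finset.sum_const, Finset.card_range, nsmul_eq_mul]
          field_simp
  calc ∑ e, ∑ f ∈ Fintype.piFinset (fun _ : Fin k => Y), d e * age f e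
      ≤ ∑ e : Fin n, 2 / k * N ^ (k + 1) := Finset.sum_le_sum fun e _ => h2 e
    _ = (2 * (n : ℝ) / k) * N ^ (k + 1) := by
        rw [Finset.sum_const, Finset.card_univ, Fintype.card_fin, nsmul_eq_mul]
        ring

end Pool.Agent.LIS
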