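import Pool.Agent.LIS.PhOne

/-!
MP_132c09_co: choice of the common intersection after the first phase.
-/

namespace Pool.Agent.LIS

open Finset

lemma choose_mul_le_one {ρ : ℝ} (h0 : 0 < ρ) (h1 : ρ < 1) (m k : ℕ) (hk : k ≤ m) :
    ((m.choose k : ℕ) : ℝ) * ρ ^ k * (1 - ρ) ^ m ≤ 1 := by
  have hq : 0 < 1 - ρ := by linarith
  have h2 : ((m.choose k : ℕ) : ℝ) * ρ ^ k * (1 - ρ) ^ (m - k) ≤ 1 := by
    have h3 : (ρ + (1 - ρ)) ^ m = 1 := by
      rw [add_sub_cancel, one_pow]
    rw [add_pow] at h3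
    have h4 := Finset.single_le_sum
      (f := fun i => ρ ^ i * (1 - ρ) ^ (m - i) * ((m.choose i : ℕ) : ℝ)) (s := range (m + 1))
      (fun i _ => by positivity) (mem_range.mpr (by omega : k < m + 1))
    refine le_trans (le_of_eq ?_) (h4.trans (le_of_eq h3))
    ring
  refine le_trans ?_ h2
  apply mul_le_mul_of_nonneg_left _ (by positivity)
  exact pow_le_pow_of_le_one hq.le (by linarith) (Nat.sub_le m k)

lemma choose_le_aux {ρ : ℝ} (h0 : 0 < ρ) (h1 : ρ < 1) (m lam : ℕ) (hl : 1 ≤ lam)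
    (hm : lam < m) :
    ((m.choose lam : ℕ) : ℝ) / ((m - lam : ℕ) : ℝ) * ρ ^ (lam - 1) * (1 - ρ) ^ m ≤ 2 := by
  have hq : 0 < 1 - ρ := by linarith
  obtain ⟨l, rfl⟩ : ∃ l, lam = l + 1 := ⟨lam - 1, by omega⟩
  obtain ⟨j, rfl⟩ : ∃ j, m = l + 1 + (j + 1) := ⟨m - (l + 1) - 1, by omega⟩
  have e1 : l + 1 + (j + 1) - (l + 1) = j + 1 := by omega
  have e2 : l + 1 - 1 = l := by omega
  rw [e1, e2]
  have h3 := Nat.add_one_mul_choose_eq (l + (j + 1)) l
  have e3 : l + (j + 1) + 1 = l + 1 + (j + 1) := by omega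
  rw [e3] at h3
  have h3' : ((l + 1 + (j + 1) : ℕ) : ℝ) * (((l + (j + 1)).choose l : ℕ) : ℝ) =
      (((l + 1 + (j + 1)).choose (l + 1) : ℕ) : ℝ) * ((l + 1 : ℕ) : ℝ) := by exact_mod_cast h3
  have h4 := choose_mul_le_one h0 h1 (l + (j + 1)) l (by omega)
  have hC : (0 : ℝ) ≤ (((l + (j + 1)).choose l : ℕ) : ℝ) := Nat.cast_nonneg _
  have hj : (0 : ℝ) < ((j + 1 : ℕ) : ℝ) := by positivity
  have hl' : (0 : ℝ) < ((l + 1 : ℕ) : ℝ) := by positivity
  have h5 : (((l + 1 + (j + 1)).choose (l + 1) : ℕ) : ℝ) / ((j + 1 : ℕ) : ℝ) ≤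
      2 * (((l + (j + 1)).choose l : ℕ) : ℝ) := by
    rw [div_le_iff₀ hj]
    have h6 : (((l + 1 + (j + 1)).choose (l + 1) : ℕ) : ℝ) =
        ((l + 1 + (j + 1) : ℕ) : ℝ) * (((l + (j + 1)).choose l : ℕ) : ℝ) / ((l + 1 : ℕ) : ℝ) := by
      rw [h3']; field_simp
    rw [h6, div_le_iff₀ hl']
    have h7 : ((l + 1 + (j + 1) : ℕ) : ℝ) ≤ 2 * ((j + 1 : ℕ) : ℝ) * ((l + 1 : ℕ) : ℝ) := by
      have : (l + 1 + (j + 1) : ℕ) ≤ 2 * (j + 1) * (l + 1) := by nlinarith
      exact_mod_cast this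
    nlinarith [mul_le_mul_of_nonneg_right h7 hC]
  have h8 : (1 - ρ) ^ (l + 1 + (j + 1)) ≤ (1 - ρ) ^ (l + (j + 1)) :=
    pow_le_pow_of_le_one hq.le (by linarith) (by omega)
  calc (((l + 1 + (j + 1)).choose (l + 1) : ℕ) : ℝ) / ((j + 1 : ℕ) : ℝ) * ρ ^ l *
        (1 - ρ) ^ (l + 1 + (j + 1))
      ≤ 2 * (((l + (j + 1)).choose l : ℕ) : ℝ) * ρ ^ l * (1 - ρ) ^ (l + (j + 1)) := by
        apply mul_le_mul _ h8 (by positivity) (by positivity)
        exact mul_le_mul_of_nonneg_right h5 (by positivity)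
    _ = 2 * ((((l + (j + 1)).choose l : ℕ) : ℝ) * ρ ^ l * (1 - ρ) ^ (l + (j + 1))) := by ring
    _ ≤ 2 := by linarith

variable {X Y : Type} {n : ℕ} (a : X → Finset (Fin n)) (b : Y → Finset (Fin n))

open scoped Classical in
/-- Choice of the common intersection. -/
theorem chI (lam : ℕ) (hl : 1 ≤ lam) (A : Finset X) (B : Finset Y) (hA : A.Nonempty)
    (hB : B.Nonempty) (hn : 1 ≤ n) (ρ η : ℝ) (hρ : 0 < ρ) (hρ1 : ρ < 1) (hη : 0 < η)
    (hη2 : η ≤ 1 / 2) (hv : 3072 * η ≤ ρ ^ lam)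
    (hS : S2 A B (fun x y => if (a x ∩ b y).card = lam then 0 else
        1 / (1 - ρ) ^ (a x ∩ b y).card) ≤ η * ((A.card : ℝ) * B.card)) :
    ∃ A' ⊆ A, ∃ B' ⊆ B, ∃ I : Finset (Fin n), I.card = lam ∧
      (∀ x ∈ A', ∀ y ∈ B', a x ∩ b y = I) ∧
      3 / 4 * Real.exp (-(3072 * √(n * (16 * η / ρ ^ (lam - 1))))) *
        (((A.card : ℝ) * B.card) / (4 * (n.choose lam : ℕ))) ≤ (A'.card : ℝ) * B'.card := by
  have hα : (0 : ℝ) < A.card := by exact_mod_cast hA.card_pos
  have hβ : (0 : ℝ) < B.card := by exact_mod_cast hB.card_pos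
  have hM : (0 : ℝ) < (A.card : ℝ) * B.card := mul_pos hα hβ
  have hn' : (0 : ℝ) < n := by exact_mod_cast hn
  have hq : 0 < 1 - ρ := by linarith
  have hρl : 0 < ρ ^ lam := by positivity
  have hρl1 : 0 < ρ ^ (lam - 1) := by positivity
  set v : ℝ := 8 * η / ρ ^ lam with hvdef
  set ψ : ℝ := 16 * η / ρ ^ (lam - 1) with hψdef
  have hv0 : 0 < v := by positivity
  have hψ0 : 0 < ψ := by positivity
  -- the value of a triple
  set G : Finset (Fin n) → X → Y → ℝ := fun I x y =>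
    1 - (if ((a x ∩ b y) \ I).Nonempty then 1 else 0) / v -
      1 / (((a x ∩ b y) \ I).card : ℝ) / ψ with hG
  have hpt : ∀ x ∈ A, ∀ y ∈ B,
      1 - (if (a x ∩ b y).card = lam then 0 else 1) -
        (if (a x ∩ b y).card = lam then 0 else 1 / (1 - ρ) ^ (a x ∩ b y).card) / (4 * η) ≤
      ∑ I ∈ (univ : Finset (Fin n)).powersetCard lam,
        if I ⊆ a x ∩ b y then G I x y else 0 := by
    intro x _ y _
    set m : ℕ := (a x ∩ b y).card with hm
    have h1 : (∑ I ∈ (univ : Finset (Fin n)).powersetCard lam,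
        if I ⊆ a x ∩ b y then G I x y else 0) =
        ((m.choose lam : ℕ) : ℝ) * (1 - (if lam < m then 1 else 0) / v -
          1 / ((m - lam : ℕ) : ℝ) / ψ) := by
      rw [← Finset.sum_filter]
      have h2 : ((univ : Finset (Fin n)).powersetCard lam).filter (fun I => I ⊆ a x ∩ b y) =
          (a x ∩ b y).powersetCard lam := by
        ext I
        simp only [Finset.mem_filter, Finset.mem_powersetCard]
        constructor
        · rintro ⟨⟨_, h3⟩, h4⟩; exact ⟨h4, h3⟩
        · rintro ⟨h4, h3⟩; exact ⟨⟨Finset.subset_univ _, h3⟩, h4⟩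
      rw [h2]
      have h5 : ∀ I ∈ (a x ∩ b y).powersetCard lam, G I x y =
          1 - (if lam < m then 1 else 0) / v - 1 / ((m - lam : ℕ) : ℝ) / ψ := by
        intro I hI
        obtain ⟨hI1, hI2⟩ := Finset.mem_powersetCard.mp hI
        have h6 : ((a x ∩ b y) \ I).card = m - lam := by
          rw [Finset.card_sdiff_of_subset hI1, hI2]
        have h7 : ((a x ∩ b y) \ I).Nonempty ↔ lam < m := by
          rw [← Finset.card_pos, h6]; omega
        simp only [hG]
        rw [h6]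
        simp only [h7]
      rw [Finset.sum_congr rfl h5, Finset.sum_const, Finset.card_powersetCard, nsmul_eq_mul]
    rw [h1]
    rcases lt_trichotomy m lam with hlt | heq | hgt
    · rw [if_neg (by omega), if_neg (by omega)]
      have h2 : m.choose lam = 0 := Nat.choose_eq_zero_of_lt hlt
      rw [h2]
      have h3 : 0 ≤ 1 / (1 - ρ) ^ m / (4 * η) := by positivity
      simp only [Nat.cast_zero, zero_mul]
      linarith
    · rw [if_pos heq, if_pos heq, if_neg (by omega), heq]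
      simp
    · rw [if_neg (by omega), if_neg (by omega), if_pos hgt]
      have h2 := choose_mul_le_one hρ hρ1 m lam hgt.le
      have h3 := choose_le_aux hρ hρ1 m lam hl hgt
      have hc0 : (0 : ℝ) ≤ ((m.choose lam : ℕ) : ℝ) := Nat.cast_nonneg _
      have hqm : 0 < (1 - ρ) ^ m := by positivity
      have hj : (0 : ℝ) < ((m - lam : ℕ) : ℝ) := by
        have : 0 < m - lam := by omega
        exact_mod_cast this
      have h4 : ((m.choose lam : ℕ) : ℝ) * (1 / v) ≤ 1 / (1 - ρ) ^ m / (8 * η) := by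
        have e : ((m.choose lam : ℕ) : ℝ) * (1 / v) =
            (((m.choose lam : ℕ) : ℝ) * ρ ^ lam * (1 - ρ) ^ m) * (1 / (1 - ρ) ^ m / (8 * η)) := by
          rw [hvdef]; field_simp
        rw [e]
        have h5 : 0 ≤ 1 / (1 - ρ) ^ m / (8 * η) := by positivity
        calc (((m.choose lam : ℕ) : ℝ) * ρ ^ lam * (1 - ρ) ^ m) * (1 / (1 - ρ) ^ m / (8 * η))
            ≤ 1 * (1 / (1 - ρ) ^ m / (8 * η)) := mul_le_mul_of_nonneg_right h2 h5
          _ = _ := one_mul _
      have h6 : ((m.choose lam : ℕ) : ℝ) * (1 / ((m - lam : ℕ) : ℝ) / ψ) ≤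
          1 / (1 - ρ) ^ m / (8 * η) := by
        have e : ((m.choose lam : ℕ) : ℝ) * (1 / ((m - lam : ℕ) : ℝ) / ψ) =
            (((m.choose lam : ℕ) : ℝ) / ((m - lam : ℕ) : ℝ) * ρ ^ (lam - 1) * (1 - ρ) ^ m) *
              (1 / (1 - ρ) ^ m / (16 * η)) := by
          rw [hψdef]; field_simp
        rw [e]
        have h5 : 0 ≤ 1 / (1 - ρ) ^ m / (16 * η) := by positivity
        calc (((m.choose lam : ℕ) : ℝ) / ((m - lam : ℕ) : ℝ) * ρ ^ (lam - 1) * (1 - ρ) ^ m) *
              (1 / (1 - ρ) ^ m / (16 * η))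
            ≤ 2 * (1 / (1 - ρ) ^ m / (16 * η)) := mul_le_mul_of_nonneg_right h3 h5
          _ = _ := by field_simp; norm_num
      have h7 : ((m.choose lam : ℕ) : ℝ) * (1 - 1 / v - 1 / ((m - lam : ℕ) : ℝ) / ψ) =
          ((m.choose lam : ℕ) : ℝ) - ((m.choose lam : ℕ) : ℝ) * (1 / v) -
            ((m.choose lam : ℕ) : ℝ) * (1 / ((m - lam : ℕ) : ℝ) / ψ) := by ring
      have h8 : 1 / (1 - ρ) ^ m / (4 * η) = 1 / (1 - ρ) ^ m / (8 * η) +
          1 / (1 - ρ) ^ m / (8 * η) := by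
        field_simp; norm_num
      rw [h7, h8]
      linarith
  -- total
  have htot : (A.card : ℝ) * B.card / 4 ≤ ∑ I ∈ (univ : Finset (Fin n)).powersetCard lam,
      S2 A B (fun x y => if I ⊆ a x ∩ b y then G I x y else 0) := by
    have h1 : ∑ I ∈ (univ : Finset (Fin n)).powersetCard lam,
        S2 A B (fun x y => if I ⊆ a x ∩ b y then G I x y else 0) =
        S2 A B (fun x y => ∑ I ∈ (univ : Finset (Fin n)).powersetCard lam,
          if I ⊆ a x ∩ b y then G I x y else 0) := by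
      unfold S2
      rw [Finset.sum_comm]
      apply Finset.sum_congr rfl
      intro x _
      rw [Finset.sum_comm]
    rw [h1]
    have h2 : S2 A B (fun x y => 1 - (if (a x ∩ b y).card = lam then 0 else 1) -
        (if (a x ∩ b y).card = lam then 0 else 1 / (1 - ρ) ^ (a x ∩ b y).card) / (4 * η)) ≤
        S2 A B (fun x y => ∑ I ∈ (univ : Finset (Fin n)).powersetCard lam,
          if I ⊆ a x ∩ b y then G I x y else 0) :=
      Finset.sum_le_sum fun x hx => Finset.sum_le_sum fun y hy => hpt x hx y hy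
    refine le_trans ?_ h2
    have h3 : S2 A B (fun x y => 1 - (if (a x ∩ b y).card = lam then 0 else 1) -
        (if (a x ∩ b y).card = lam then 0 else 1 / (1 - ρ) ^ (a x ∩ b y).card) / (4 * η)) =
        (A.card : ℝ) * B.card - S2 A B (fun x y => if (a x ∩ b y).card = lam then 0 else 1) -
        S2 A B (fun x y => if (a x ∩ b y).card = lam then 0 else
          1 / (1 - ρ) ^ (a x ∩ b y).card) / (4 * η) := by
      unfold S2
      rw [Finset.sum_div]
      simp_rw [Finset.sum_div, Finset.sum_sub_distrib]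
      simp
    rw [h3]
    have h4 : S2 A B (fun x y => if (a x ∩ b y).card = lam then 0 else 1) ≤
        S2 A B (fun x y => if (a x ∩ b y).card = lam then 0 else
          1 / (1 - ρ) ^ (a x ∩ b y).card) := by
      apply Finset.sum_le_sum
      intro x _
      apply Finset.sum_le_sum
      intro y _
      beta_reduce
      split_ifs
      · exact le_refl _
      · rw [le_div_iff₀ (by positivity), one_mul]
        exact pow_le_one₀ hq.le (by linarith)
    have h5 : S2 A B (fun x y => if (a x ∩ b y).card = lam then 0 else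
          1 / (1 - ρ) ^ (a x ∩ b y).card) / (4 * η) ≤ ((A.card : ℝ) * B.card) / 4 := by
      rw [div_le_iff₀ (by positivity)]
      refine hS.trans (le_of_eq ?_)
      ring
    have h6 : η * ((A.card : ℝ) * B.card) ≤ 1 / 2 * ((A.card : ℝ) * B.card) :=
      mul_le_mul_of_nonneg_right hη2 hM.le
    linarith
  -- pigeonhole
  have hne : ((univ : Finset (Fin n)).powersetCard lam).Nonempty := by
    by_contra hcon
    rw [Finset.not_nonempty_iff_eq_empty] at hcon
    rw [hcon, Finset.sum_empty] at htot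
    linarith
  have hcard : ((univ : Finset (Fin n)).powersetCard lam).card = n.choose lam := by
    rw [Finset.card_powersetCard, Finset.card_univ, Fintype.card_fin]
  have hCpos : (0 : ℝ) < (n.choose lam : ℕ) := by
    rw [← hcard]; exact_mod_cast hne.card_pos
  obtain ⟨I, hI, hIv⟩ : ∃ I ∈ (univ : Finset (Fin n)).powersetCard lam,
      ((A.card : ℝ) * B.card) / (4 * (n.choose lam : ℕ)) ≤
        S2 A B (fun x y => if I ⊆ a x ∩ b y then G I x y else 0) := by
    apply Finset.exists_le_of_sum_le hne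
    rw [Finset.sum_const, hcard, nsmul_eq_mul]
    refine le_trans (le_of_eq ?_) htot
    field_simp
  have hIcard : I.card = lam := (Finset.mem_powersetCard.mp hI).2
  set A₁ : Finset X := A.filter fun x => I ⊆ a x with hA₁
  set B₁ : Finset Y := B.filter fun y => I ⊆ b y with hB₁
  set a' : X → Finset (Fin n) := fun x => a x \ I with ha'
  have hab : ∀ x y, a' x ∩ b y = (a x ∩ b y) \ I := by
    intro x y
    ext e; simp only [ha', Finset.mem_inter, Finset.mem_sdiff]; tauto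
  have hrestr : S2 A B (fun x y => if I ⊆ a x ∩ b y then G I x y else 0) = S2 A₁ B₁ (G I) := by
    unfold S2
    rw [hA₁, Finset.sum_filter]
    apply Finset.sum_congr rfl
    intro x _
    by_cases hx : I ⊆ a x
    · rw [if_pos hx, hB₁, Finset.sum_filter]
      apply Finset.sum_congr rfl
      intro y _
      beta_reduce
      by_cases hy : I ⊆ b y
      · rw [if_pos hy, if_pos (Finset.subset_inter hx hy)]
      · rw [if_neg hy, if_neg]
        intro h; exact hy (h.trans Finset.inter_subset_right)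
    · rw [if_neg hx]
      apply Finset.sum_eq_zero
      intro y _
      beta_reduce
      rw [if_neg]
      intro h; exact hx (h.trans Finset.inter_subset_left)
  have hGsum : S2 A₁ B₁ (G I) = (A₁.card : ℝ) * B₁.card - S2 A₁ B₁ (wd a' b) / v -
      S2 A₁ B₁ (fun x y => 1 / ((a' x ∩ b y).card : ℝ)) / ψ := by
    unfold S2
    simp only [hG, wd, hab]
    rw [Finset.sum_div, Finset.sum_div]
    simp_rw [Finset.sum_div, Finset.sum_sub_distrib]
    simp
  rw [hrestr, hGsum] at hIv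
  have hVs0 : 0 ≤ S2 A₁ B₁ (wd a' b) := S2_nonneg fun x _ y _ => wd_nonneg _ _ x y
  have hΨs0 : 0 ≤ S2 A₁ B₁ (fun x y => 1 / ((a' x ∩ b y).card : ℝ)) :=
    S2_nonneg fun x _ y _ => by positivity
  have hVd0 : 0 ≤ S2 A₁ B₁ (wd a' b) / v := by positivity
  have hΨd0 : 0 ≤ S2 A₁ B₁ (fun x y => 1 / ((a' x ∩ b y).card : ℝ)) / ψ := by positivity
  have hZ1 : ((A.card : ℝ) * B.card) / (4 * (n.choose lam : ℕ)) ≤ (A₁.card : ℝ) * B₁.card := by
    linarith
  have hZpos : 0 < (A₁.card : ℝ) * B₁.card := lt_of_lt_of_le (by positivity) hZ1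
  have hA1ne : A₁.Nonempty := by
    by_contra hcon
    rw [Finset.not_nonempty_iff_eq_empty] at hcon
    rw [hcon] at hZpos
    simp at hZpos
  have hB1ne : B₁.Nonempty := by
    by_contra hcon
    rw [Finset.not_nonempty_iff_eq_empty] at hcon
    rw [hcon] at hZpos
    simp at hZpos
  have hZ0 : 0 ≤ ((A.card : ℝ) * B.card) / (4 * (n.choose lam : ℕ)) := by positivity
  have hV : av A₁ B₁ (wd a' b) ≤ v := by
    unfold av
    rw [div_le_iff₀ hZpos]
    have h1 : S2 A₁ B₁ (wd a' b) / v ≤ (A₁.card : ℝ) * B₁.card := by linarith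
    rw [div_le_iff₀ hv0] at h1
    linarith
  have hΨ : av A₁ B₁ (fun x y => 1 / ((a' x ∩ b y).card : ℝ)) ≤ ψ := by
    unfold av
    rw [div_le_iff₀ hZpos]
    have h1 : S2 A₁ B₁ (fun x y => 1 / ((a' x ∩ b y).card : ℝ)) / ψ ≤
        (A₁.card : ℝ) * B₁.card := by linarith
    rw [div_le_iff₀ hψ0] at h1
    linarith
  have hvle : v ≤ 1 / 384 := by
    rw [hvdef, div_le_iff₀ hρl]
    linarith
  have hPh : Ph a' b A₁ B₁ ≤ √(n * ψ) := by
    set s : ℝ := √(ψ / n) with hs
    have hs0 : 0 < s := Real.sqrt_pos.mpr (by positivity)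
    have hss : s * s = ψ / n := Real.mul_self_sqrt (by positivity)
    have h1 := Ph_le a' b A₁ B₁ Finset.univ (fun x _ => Finset.subset_univ _)
      (fun x y => 1 / ((a' x ∩ b y).card : ℝ)) (fun x _ y _ _ => le_refl _)
      (fun x _ y _ => by positivity) s hs0
    rw [Finset.card_univ, Fintype.card_fin] at h1
    have h2 : √(n * ψ) = s * n := by
      rw [Real.sqrt_eq_iff_mul_self_eq (by positivity) (by positivity)]
      have : s * n * (s * n) = (s * s) * (n * n) := by ring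
      rw [this, hss]
      field_simp
    have h3 : ψ / s = s * n := by
      rw [div_eq_iff hs0.ne']
      have : s * n * s = (s * s) * n := by ring
      rw [this, hss]
      field_simp
    have h4 : av A₁ B₁ (fun x y => 1 / ((a' x ∩ b y).card : ℝ)) / s ≤ ψ / s :=
      div_le_div_of_nonneg_right hΨ hs0.le
    rw [h2]
    rw [h3] at h4
    linarith
  obtain ⟨A₂, hA₂, B₂, hB₂, hdisj, hbig, -⟩ := rot a' b (fun _ _ => 0) A₁ B₁ hA1ne hB1ne
    (fun x _ y _ => le_refl _) (hV.trans hvle)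
  refine ⟨A₂, hA₂.trans (Finset.filter_subset _ _), B₂, hB₂.trans (Finset.filter_subset _ _), I,
    hIcard, ?_, ?_⟩
  · intro x hx y hy
    have h1 := hdisj x hx y hy
    rw [Finset.not_nonempty_iff_eq_empty, hab, Finset.sdiff_eq_empty_iff_subset] at h1
    have hx1 : I ⊆ a x := (Finset.mem_filter.mp (hA₂ hx)).2
    have hy1 : I ⊆ b y := (Finset.mem_filter.mp (hB₂ hy)).2
    exact Finset.Subset.antisymm h1 (Finset.subset_inter hx1 hy1)
  · refine le_trans ?_ hbig
    have h1 : 3 / 4 * Real.exp (-(3072 * √(n * ψ))) ≤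
        3 / 4 * Real.exp (-(3072 * Ph a' b A₁ B₁)) := by
      apply mul_le_mul_of_nonneg_left _ (by norm_num)
      apply Real.exp_le_exp.mpr
      linarith
    exact mul_le_mul h1 hZ1 hZ0 (by positivity)

end Pool.Agent.LIS
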