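import Pool.Agent.LIS.Samp

/-!
MP_132c09_co: exactly lambda-intersecting subfamilies.
The random biased partition of the ground set.
-/

namespace Pool.Agent.LIS

open Finset

variable {n : ℕ}

/-- probability of the set `P` when `e` is chosen with probability `p e` and not chosen with
probability `q e` -/
noncomputable def wt (p q : Fin n → ℝ) (P : Finset (Fin n)) : ℝ :=
  (∏ e ∈ P, p e) * ∏ e ∈ univ \ P, q e

lemma wt_pos {p q : Fin n → ℝ} (hp : ∀ e, 0 < p e) (hq : ∀ e, 0 < q e) (P : Finset (Fin n)) :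
    0 < wt p q P :=
  mul_pos (Finset.prod_pos fun e _ => hp e) (Finset.prod_pos fun e _ => hq e)

lemma sum_wt {p q : Fin n → ℝ} (h : ∀ e, p e + q e = 1) :
    ∑ P ∈ (univ : Finset (Fin n)).powerset, wt p q P = 1 := by
  unfold wt
  rw [← Finset.prod_add]
  exact Finset.prod_eq_one fun e _ => h e

open scoped Classical in
lemma sum_wt_filter {p q : Fin n → ℝ} (h : ∀ e, p e + q e = 1) (X Y : Finset (Fin n))
    (hXY : Disjoint X Y) :
    ∑ P ∈ (univ : Finset (Fin n)).powerset, (if X ⊆ P ∧ Disjoint Y P then wt p q P else 0) =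
      (∏ e ∈ X, p e) * ∏ e ∈ Y, q e := by
  have h1 : ∀ P : Finset (Fin n), (if X ⊆ P ∧ Disjoint Y P then wt p q P else 0) =
      (∏ e ∈ P, if e ∈ Y then 0 else p e) * ∏ e ∈ univ \ P, if e ∈ X then 0 else q e := by
    intro P
    split_ifs with hP
    · unfold wt
      congr 1
      · refine Finset.prod_congr rfl fun e he => ?_
        rw [if_neg]
        intro heY
        exact (Finset.disjoint_left.mp hP.2 heY) he
      · refine Finset.prod_congr rfl fun e he => ?_
        rw [if_neg]
        intro heX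
        exact (Finset.mem_sdiff.mp he).2 (hP.1 heX)
    · rw [not_and_or] at hP
      rcases hP with hP | hP
      · obtain ⟨e, heX, heP⟩ := Finset.not_subset.mp hP
        symm
        apply mul_eq_zero_of_right
        apply Finset.prod_eq_zero (Finset.mem_sdiff.mpr ⟨Finset.mem_univ e, heP⟩)
        rw [if_pos heX]
      · obtain ⟨e, heY, heP⟩ := Finset.not_disjoint_iff.mp hP
        symm
        apply mul_eq_zero_of_left
        apply Finset.prod_eq_zero heP
        rw [if_pos heY]
  simp_rw [h1]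
  rw [← Finset.prod_add]
  have h2 : ∀ e : Fin n, ((if e ∈ Y then 0 else p e) + if e ∈ X then 0 else q e) =
      (if e ∈ X then p e else 1) * (if e ∈ Y then q e else 1) := by
    intro e
    by_cases hX : e ∈ X
    · have hY : e ∉ Y := Finset.disjoint_left.mp hXY hX
      simp [hX, hY]
    · by_cases hY : e ∈ Y
      · simp [hX, hY]
      · simp [hX, hY, h e]
  rw [Finset.prod_congr rfl fun e _ => h2 e, Finset.prod_mul_distrib, Finset.prod_ite_mem,
    Finset.prod_ite_mem, Finset.univ_inter, Finset.univ_inter]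

/-- the first family after the choice of `I` and `P` -/
noncomputable def famA (A : Finset (Finset (Fin n))) (I P : Finset (Fin n)) :
    Finset (Finset (Fin n)) := by
  classical exact A.filter fun S => I ⊆ S ∧ S \ I ⊆ P

/-- the second family after the choice of `I` and `P` -/
noncomputable def famB (B : Finset (Finset (Fin n))) (I P : Finset (Fin n)) :
    Finset (Finset (Fin n)) := by
  classical exact B.filter fun T => I ⊆ T ∧ Disjoint (T \ I) P

lemma mem_famA {A : Finset (Finset (Fin n))} {I P S : Finset (Fin n)} :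
    S ∈ famA A I P ↔ S ∈ A ∧ I ⊆ S ∧ S \ I ⊆ P := by
  classical
  unfold famA
  rw [Finset.mem_filter]

lemma mem_famB {B : Finset (Finset (Fin n))} {I P T : Finset (Fin n)} :
    T ∈ famB B I P ↔ T ∈ B ∧ I ⊆ T ∧ Disjoint (T \ I) P := by
  classical
  unfold famB
  rw [Finset.mem_filter]

lemma inter_fam {A B : Finset (Finset (Fin n))} {I P S T : Finset (Fin n)}
    (hS : S ∈ famA A I P) (hT : T ∈ famB B I P) : S ∩ T = I := by
  rw [mem_famA] at hS
  rw [mem_famB] at hT
  apply Finset.Subset.antisymm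
  · intro e he
    by_contra hI
    rw [Finset.mem_inter] at he
    have h1 : e ∈ P := hS.2.2 (Finset.mem_sdiff.mpr ⟨he.1, hI⟩)
    exact (Finset.disjoint_left.mp hT.2.2 (Finset.mem_sdiff.mpr ⟨he.2, hI⟩)) h1
  · exact Finset.subset_inter hS.2.1 hT.2.1

open scoped Classical in
/-- The partition lemma. -/
theorem partition (lam : ℕ) (hlam : lam ≤ n) (A B : Finset (Finset (Fin n))) (s t : Fin n → ℝ)
    (hs : ∀ e, 0 < s e) (ht : ∀ e, 0 < t e) (c c' : ℝ)
    (hA : ∀ S ∈ A, ∑ e ∈ S, Real.log (1 + s e / t e) ≤ c)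
    (hB : ∀ T ∈ B, ∑ e ∈ T, Real.log (1 + t e / s e) ≤ c') :
    ∃ I P : Finset (Fin n), I.card = lam ∧
      Real.exp (-(c + c')) * Zc (fun S T : Finset (Fin n) => (S ∩ T).card = lam) A B ≤
        (n.choose lam : ℝ) * (((famA A I P).card : ℝ) * (famB B I P).card) := by
  obtain ⟨p, hp⟩ : ∃ p : Fin n → ℝ, p = fun e => t e / (s e + t e) := ⟨_, rfl⟩
  obtain ⟨q, hq⟩ : ∃ q : Fin n → ℝ, q = fun e => s e / (s e + t e) := ⟨_, rfl⟩
  have hst : ∀ e, 0 < s e + t e := fun e => add_pos (hs e) (ht e)
  have hp0 : ∀ e, 0 < p e := fun e => by rw [hp]; exact div_pos (ht e) (hst e)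
  have hq0 : ∀ e, 0 < q e := fun e => by rw [hq]; exact div_pos (hs e) (hst e)
  have hpq : ∀ e, p e + q e = 1 := fun e => by
    rw [hp, hq]
    simp only
    rw [← add_div, add_comm, div_self (hst e).ne']
  have hpexp : ∀ e, p e = Real.exp (-Real.log (1 + s e / t e)) := fun e => by
    have h1 : 0 < 1 + s e / t e := by have := div_pos (hs e) (ht e); linarith
    rw [Real.exp_neg, Real.exp_log h1, hp]
    have := (ht e).ne'
    field_simp
    rw [add_comm]
  have hqexp : ∀ e, q e = Real.exp (-Real.log (1 + t e / s e)) := fun e => by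
    have h1 : 0 < 1 + t e / s e := by have := div_pos (ht e) (hs e); linarith
    rw [Real.exp_neg, Real.exp_log h1, hq]
    have := (hs e).ne'
    field_simp
  -- each related pair survives with good probability
  have hpair : ∀ S ∈ A, ∀ T ∈ B, Real.exp (-(c + c')) ≤
      ∑ P ∈ (univ : Finset (Fin n)).powerset,
        (if S \ T ⊆ P ∧ Disjoint (T \ S) P then wt p q P else 0) := by
    intro S hS T hT
    rw [sum_wt_filter hpq (S \ T) (T \ S) disjoint_sdiff_sdiff]
    have e1 : ∏ e ∈ S \ T, p e = Real.exp (-∑ e ∈ S \ T, Real.log (1 + s e / t e)) := by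
      rw [← Finset.sum_neg_distrib, Real.exp_sum]
      exact Finset.prod_congr rfl fun e _ => hpexp e
    have e2 : ∏ e ∈ T \ S, q e = Real.exp (-∑ e ∈ T \ S, Real.log (1 + t e / s e)) := by
      rw [← Finset.sum_neg_distrib, Real.exp_sum]
      exact Finset.prod_congr rfl fun e _ => hqexp e
    rw [e1, e2, ← Real.exp_add]
    apply Real.exp_le_exp.mpr
    have f1 : ∑ e ∈ S \ T, Real.log (1 + s e / t e) ≤ ∑ e ∈ S, Real.log (1 + s e / t e) := by
      apply Finset.sum_le_sum_of_subset_of_nonneg Finset.sdiff_subset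
      intro e _ _
      apply Real.log_nonneg
      have := (div_pos (hs e) (ht e)).le
      linarith
    have f2 : ∑ e ∈ T \ S, Real.log (1 + t e / s e) ≤ ∑ e ∈ T, Real.log (1 + t e / s e) := by
      apply Finset.sum_le_sum_of_subset_of_nonneg Finset.sdiff_subset
      intro e _ _
      apply Real.log_nonneg
      have := (div_pos (ht e) (hs e)).le
      linarith
    have := hA S hS
    have := hB T hT
    linarith
  set r : Finset (Fin n) → Finset (Fin n) → Prop := fun S T => (S ∩ T).card = lam with hr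
  set Is := powersetCard lam (univ : Finset (Fin n)) with hIs
  set Ps := (univ : Finset (Fin n)).powerset with hPs
  have hIsc : (Is.card : ℝ) = n.choose lam := by
    rw [hIs, Finset.card_powersetCard, Finset.card_univ, Fintype.card_fin]
  have hch : (0 : ℝ) < n.choose lam := by exact_mod_cast Nat.choose_pos hlam
  -- the expected number of surviving pairs
  have hexp : Real.exp (-(c + c')) * Zc r A B ≤
      ∑ x ∈ Is ×ˢ Ps, wt p q x.2 * (((famA A x.1 x.2).card : ℝ) * (famB B x.1 x.2).card) := by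
    rw [Finset.sum_product]
    have g1 : ∀ I P : Finset (Fin n), ((famA A I P).card : ℝ) * (famB B I P).card =
        ∑ S ∈ A, ∑ T ∈ B, if (I ⊆ S ∧ S \ I ⊆ P) ∧ (I ⊆ T ∧ Disjoint (T \ I) P) then (1 : ℝ)
          else 0 := by
      intro I P
      unfold famA famB
      rw [Finset.card_filter, Finset.card_filter]
      push_cast
      rw [Finset.sum_mul_sum]
      refine Finset.sum_congr rfl fun S _ => ?_
      refine Finset.sum_congr rfl fun T _ => ?_
      by_cases h1 : I ⊆ S ∧ S \ I ⊆ P
      · by_cases h2 : I ⊆ T ∧ Disjoint (T \ I) P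
        · rw [if_pos h1, if_pos h2, if_pos ⟨h1, h2⟩, one_mul]
        · rw [if_neg h2, mul_zero, if_neg (fun h => h2 h.2)]
      · rw [if_neg h1, zero_mul, if_neg (fun h => h1 h.1)]
    have g2 : ∑ I ∈ Is, ∑ P ∈ Ps, wt p q P * (((famA A I P).card : ℝ) * (famB B I P).card) =
        ∑ S ∈ A, ∑ T ∈ B, ∑ I ∈ Is, ∑ P ∈ Ps, (if (I ⊆ S ∧ S \ I ⊆ P) ∧
          (I ⊆ T ∧ Disjoint (T \ I) P) then wt p q P else 0) := by
      calc ∑ I ∈ Is, ∑ P ∈ Ps, wt p q P * (((famA A I P).card : ℝ) * (famB B I P).card)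
          = ∑ I ∈ Is, ∑ P ∈ Ps, ∑ S ∈ A, ∑ T ∈ B, (if (I ⊆ S ∧ S \ I ⊆ P) ∧
              (I ⊆ T ∧ Disjoint (T \ I) P) then wt p q P else 0) := by
            refine Finset.sum_congr rfl fun I _ => ?_
            refine Finset.sum_congr rfl fun P _ => ?_
            rw [g1, Finset.mul_sum]
            refine Finset.sum_congr rfl fun S _ => ?_
            rw [Finset.mul_sum]
            refine Finset.sum_congr rfl fun T _ => ?_
            rw [mul_ite, mul_one, mul_zero]
        _ = ∑ I ∈ Is, ∑ S ∈ A, ∑ T ∈ B, ∑ P ∈ Ps, (if (I ⊆ S ∧ S \ I ⊆ P) ∧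
              (I ⊆ T ∧ Disjoint (T \ I) P) then wt p q P else 0) := by
            refine Finset.sum_congr rfl fun I _ => ?_
            rw [Finset.sum_comm]
            refine Finset.sum_congr rfl fun S _ => ?_
            rw [Finset.sum_comm]
        _ = _ := by
            rw [Finset.sum_comm]
            refine Finset.sum_congr rfl fun S _ => ?_
            rw [Finset.sum_comm]
    rw [g2, Zc_eq, Finset.mul_sum]
    refine Finset.sum_le_sum fun S hS => ?_
    rw [Finset.mul_sum]
    refine Finset.sum_le_sum fun T hT => ?_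
    have hnn : ∀ I ∈ Is, 0 ≤ ∑ P ∈ Ps, (if (I ⊆ S ∧ S \ I ⊆ P) ∧
        (I ⊆ T ∧ Disjoint (T \ I) P) then wt p q P else 0) := by
      intro I _
      refine Finset.sum_nonneg fun P _ => ?_
      split_ifs
      · exact (wt_pos hp0 hq0 P).le
      · exact le_refl 0
    by_cases hrr : r S T
    · rw [if_pos hrr, mul_one]
      have hI : S ∩ T ∈ Is := by
        rw [hIs, Finset.mem_powersetCard]
        exact ⟨Finset.subset_univ _, hrr⟩
      refine le_trans ?_ (Finset.single_le_sum hnn hI)
      refine (hpair S hS T hT).trans (le_of_eq ?_)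
      refine Finset.sum_congr rfl fun P _ => ?_
      have h1 : S \ (S ∩ T) = S \ T := by
        ext e; simp only [Finset.mem_sdiff, Finset.mem_inter]; tauto
      have h2 : T \ (S ∩ T) = T \ S := by
        ext e; simp only [Finset.mem_sdiff, Finset.mem_inter]; tauto
      rw [h1, h2]
      have h3 : (S \ T ⊆ P ∧ Disjoint (T \ S) P) ↔
          ((S ∩ T ⊆ S ∧ S \ T ⊆ P) ∧ S ∩ T ⊆ T ∧ Disjoint (T \ S) P) :=
        ⟨fun h => ⟨⟨Finset.inter_subset_left, h.1⟩, Finset.inter_subset_right, h.2⟩,
          fun h => ⟨h.1.2, h.2.2⟩⟩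
      by_cases h4 : S \ T ⊆ P ∧ Disjoint (T \ S) P
      · rw [if_pos h4, if_pos (h3.mp h4)]
      · rw [if_neg h4, if_neg (fun h => h4 (h3.mpr h))]
    · rw [if_neg hrr, mul_zero]
      exact Finset.sum_nonneg hnn
  have hne : (Is ×ˢ Ps).Nonempty := by
    rw [Finset.nonempty_product]
    refine ⟨?_, ⟨∅, by rw [hPs]; exact Finset.empty_mem_powerset _⟩⟩
    rw [hIs, Finset.powersetCard_nonempty, Finset.card_univ, Fintype.card_fin]
    exact hlam
  obtain ⟨x, hx, hle⟩ : ∃ x ∈ Is ×ˢ Ps,
      wt p q x.2 * (Real.exp (-(c + c')) * Zc r A B / n.choose lam) ≤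
        wt p q x.2 * (((famA A x.1 x.2).card : ℝ) * (famB B x.1 x.2).card) := by
    apply Finset.exists_le_of_sum_le hne
    refine le_trans (le_of_eq ?_) hexp
    rw [← Finset.sum_mul, Finset.sum_product]
    simp only
    rw [Finset.sum_const, nsmul_eq_mul, hIsc, hPs, sum_wt hpq, mul_one]
    field_simp
  refine ⟨x.1, x.2, ?_, ?_⟩
  · have := (Finset.mem_product.mp hx).1
    rw [hIs, Finset.mem_powersetCard] at this
    exact this.2
  · have h1 := le_of_mul_le_mul_left hle (wt_pos hp0 hq0 x.2)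
    rw [div_le_iff₀ hch] at h1
    linarith

end Pool.Agent.LIS
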