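import Pool.Agent.LIS.Samp
import Pool.Agent.LIS.Age
import Pool.Agent.LIS.Part

/-!
MP_132c09_co: exactly lambda-intersecting subfamilies.
The combinatorial core: two samplings and one random partition.
-/

namespace Pool.Agent.LIS

open Finset

variable {n k : ℕ}

/-- the function bounding the cost of a covered element -/
noncomputable def lg (k i : ℕ) : ℝ := Real.log (2 * ((k : ℝ) ^ 2 / ((i : ℝ) + 1) ^ 2))

lemma lg_nonneg {k i : ℕ} (h : i < k) : 0 ≤ lg k i := by
  unfold lg
  apply Real.log_nonneg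
  have h1 : ((i : ℝ) + 1) ≤ k := by exact_mod_cast h
  have h2 : (0 : ℝ) < (i : ℝ) + 1 := by positivity
  have h3 : 1 ≤ (k : ℝ) ^ 2 / ((i : ℝ) + 1) ^ 2 := by
    rw [le_div_iff₀ (by positivity), one_mul]
    exact pow_le_pow_left₀ h2.le h1 2
  linarith

lemma sum_lg (hk : 1 ≤ k) : ∑ i ∈ range k, lg k i ≤ 3 * k := by
  have hk' : (0 : ℝ) < k := by exact_mod_cast hk
  have h1 : ∀ i ∈ range k, lg k i = Real.log 2 + 2 * Real.log (k / ((i : ℝ) + 1)) := by
    intro i _
    have hi : (0 : ℝ) < (i : ℝ) + 1 := by positivity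
    unfold lg
    rw [← div_pow, Real.log_mul (by norm_num) (by positivity), Real.log_pow]
    push_cast
    ring
  rw [Finset.sum_congr rfl h1, Finset.sum_add_distrib, Finset.sum_const, Finset.card_range,
    nsmul_eq_mul, ← Finset.mul_sum]
  have h2 : ∑ i ∈ range k, Real.log (k / ((i : ℝ) + 1)) ≤ k := by
    rw [← Real.log_prod (fun i _ => by positivity)]
    have h3 : ∏ i ∈ range k, ((k : ℝ) / ((i : ℝ) + 1)) = (k : ℝ) ^ k / k.factorial := by
      rw [Finset.prod_div_distrib, Finset.prod_const, Finset.card_range]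
      congr 1
      rw [← Finset.prod_range_add_one_eq_factorial]
      push_cast
      rfl
    rw [h3]
    have h4 := Real.pow_div_factorial_le_exp (k : ℝ) hk'.le k
    calc Real.log ((k : ℝ) ^ k / k.factorial) ≤ Real.log (Real.exp k) :=
          Real.log_le_log (by positivity) h4
      _ = k := Real.log_exp _
  have h5 : Real.log 2 ≤ 1 := by linarith [Real.log_two_lt_d9]
  nlinarith

open scoped Classical in
/-- the cost of a set all of whose intersections with the sets `g i` have size `lam` -/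
lemma cost_le (hk : 1 ≤ k) (f g : Fin k → Finset (Fin n)) (lam : ℕ) (S : Finset (Fin n))
    (hS : ∀ i, (S ∩ g i).card = lam) :
    ∑ e ∈ S, Real.log (1 + age f e / age g e) ≤ ∑ e ∈ S, age f e + 3 * k * lam := by
  have hk' : (0 : ℝ) < k := by exact_mod_cast hk
  have h1 : ∀ e ∈ S, Real.log (1 + age f e / age g e) ≤
      age f e + ∑ i : Fin k, if e ∈ g i then lg k i.val else 0 := by
    intro e _
    have hs0 := age_pos hk f e
    have ht0 := age_pos hk g e
    have hs1 := age_le_one hk f e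
    have ht1 := age_le_one hk g e
    by_cases hcov : ∀ i, e ∉ g i
    · rw [age_eq_one hk g e hcov, div_one]
      have h2 : ∑ i : Fin k, (if e ∈ g i then lg k i.val else 0) = 0 :=
        Finset.sum_eq_zero fun i _ => if_neg (hcov i)
      rw [h2, add_zero]
      have := Real.log_le_sub_one_of_pos (show 0 < 1 + age f e by linarith)
      linarith
    · push Not at hcov
      -- the first set containing `e`
      obtain ⟨i₀, hi₀⟩ := hcov
      have hex : ∃ m : ℕ, ∃ h : m < k, e ∈ g ⟨m, h⟩ := ⟨i₀.val, i₀.isLt, hi₀⟩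
      obtain ⟨m, ⟨hm, hem⟩, hmin⟩ : ∃ m : ℕ, (∃ h : m < k, e ∈ g ⟨m, h⟩) ∧
          ∀ m' < m, ¬ ∃ h : m' < k, e ∈ g ⟨m', h⟩ :=
        ⟨Nat.find hex, Nat.find_spec hex, fun m' hm' => Nat.find_min hex hm'⟩
      have hunc : Unc g m e := by
        intro i hi hei
        exact hmin i.val hi ⟨i.isLt, hei⟩
      have ht := le_age g e m hm hunc
      have hq : 0 < ((m : ℝ) + 1) ^ 2 / (k : ℝ) ^ 2 := by positivity
      have h3 : Real.log (1 + age f e / age g e) ≤ lg k m := by
        unfold lg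
        apply Real.log_le_log (by positivity)
        have h4 : age f e / age g e ≤ (k : ℝ) ^ 2 / ((m : ℝ) + 1) ^ 2 := by
          calc age f e / age g e ≤ 1 / age g e := div_le_div_of_nonneg_right hs1 ht0.le
            _ ≤ 1 / (((m : ℝ) + 1) ^ 2 / (k : ℝ) ^ 2) := one_div_le_one_div_of_le hq ht
            _ = _ := by rw [one_div, inv_div]
        have h5 : 1 ≤ (k : ℝ) ^ 2 / ((m : ℝ) + 1) ^ 2 := by
          have h6 : ((m : ℝ) + 1) ≤ k := by exact_mod_cast hm
          rw [le_div_iff₀ (by positivity), one_mul]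
          exact pow_le_pow_left₀ (by positivity) h6 2
        linarith
      have h7 : lg k m ≤ ∑ i : Fin k, if e ∈ g i then lg k i.val else 0 := by
        have h8 : (if e ∈ g ⟨m, hm⟩ then lg k m else 0) ≤
            ∑ i : Fin k, if e ∈ g i then lg k i.val else 0 := by
          apply Finset.single_le_sum (f := fun i : Fin k => if e ∈ g i then lg k i.val else 0)
          · intro i _
            split_ifs
            · exact lg_nonneg i.isLt
            · exact le_refl 0
          · exact Finset.mem_univ _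
        rw [if_pos hem] at h8
        exact h8
      linarith
  refine (Finset.sum_le_sum h1).trans ?_
  rw [Finset.sum_add_distrib]
  have h9 : ∑ e ∈ S, ∑ i : Fin k, (if e ∈ g i then lg k i.val else 0) = lam * ∑ i ∈ range k, lg k i := by
    rw [Finset.sum_comm, Finset.mul_sum,
      Finset.sum_range (fun i => (lam : ℝ) * lg k i)]
    refine Finset.sum_congr rfl fun i _ => ?_
    rw [← Finset.sum_filter, Finset.sum_const, nsmul_eq_mul, Finset.filter_mem_eq_inter, hS i]
  rw [h9]
  have := mul_le_mul_of_nonneg_left (sum_lg hk) (Nat.cast_nonneg (α := ℝ) lam)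
  linarith

open scoped Classical in
/-- The combinatorial core. -/
theorem core (n lam k : ℕ) (hn : 1 ≤ n) (hk : 1 ≤ k) (hlam : lam ≤ n) (z : ℝ) (hz : 0 < z)
    (A B : Finset (Finset (Fin n))) (hA : A.Nonempty) (hB : B.Nonempty)
    (hcnt : z * ((A.card : ℝ) * B.card) ≤
      Zc (fun S T : Finset (Fin n) => (S ∩ T).card = lam) A B) :
    ∃ A' ⊆ A, ∃ B' ⊆ B, ∃ I : Finset (Fin n), I.card = lam ∧
      (∀ S ∈ A', ∀ T ∈ B', S ∩ T = I) ∧
      Real.exp (-(8 * n / k + 6 * k * lam)) * ((z / 4) ^ (k + 1) / 4 * (z ^ (k + 1) / 4)) *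
        ((A.card : ℝ) * B.card) ≤ (n.choose lam : ℝ) * ((A'.card : ℝ) * B'.card) := by
  have hn' : (0 : ℝ) < n := by exact_mod_cast hn
  have hk' : (0 : ℝ) < k := by exact_mod_cast hk
  have hAc : (0 : ℝ) < A.card := by exact_mod_cast hA.card_pos
  have hBc : (0 : ℝ) < B.card := by exact_mod_cast hB.card_pos
  set r : Finset (Fin n) → Finset (Fin n) → Prop := fun S T => (S ∩ T).card = lam with hr
  set w : (Fin k → Finset (Fin n)) → Finset (Fin n) → ℝ := fun f T => ∑ e ∈ T, age f e with hw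
  have hW : (0 : ℝ) < 2 * n / k := by positivity
  have hw0 : ∀ f y, 0 ≤ w f y := fun f y => Finset.sum_nonneg fun e _ => age_nonneg f e
  -- first sampling
  obtain ⟨g, hg, A1, hA1, B1, hB1, hA1r, hB1w, hg1, hg2⟩ := sampling' r A B k hk w (2 * n / k) hW
    hw0 (fun Y _ => age_sum hk Y) z hz hA hB hcnt
  have hZ1 : 0 < Zc r A1 B1 := by
    refine lt_of_lt_of_le ?_ hg2
    positivity
  have hA1ne : A1.Nonempty := by
    by_contra h
    rw [Finset.not_nonempty_iff_eq_empty] at h
    have := Zc_le r A1 B1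
    rw [h] at this hZ1
    simp at this
    linarith
  have hB1ne : B1.Nonempty := by
    by_contra h
    rw [Finset.not_nonempty_iff_eq_empty] at h
    have := Zc_le r A1 B1
    rw [h] at this hZ1
    simp at this
    linarith
  have hB1le : (B1.card : ℝ) ≤ B.card := by
    exact_mod_cast Finset.card_le_card hB1
  -- second sampling
  have hcnt2 : z / 4 * ((B1.card : ℝ) * A1.card) ≤
      Zc (fun T S : Finset (Fin n) => r S T) B1 A1 := by
    rw [Zc_swap]
    refine le_trans ?_ hg1
    apply mul_le_mul_of_nonneg_left _ (by positivity)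
    rw [mul_comm]
    exact mul_le_mul_of_nonneg_left hB1le (Nat.cast_nonneg _)
  obtain ⟨f, hf, B2, hB2, A2, hA2, hB2r, hA2w, hf1, hf2⟩ := sampling'
    (fun T S : Finset (Fin n) => r S T) B1 A1 k hk w
    (2 * n / k) hW hw0 (fun Y _ => age_sum hk Y) (z / 4) (by positivity) hB1ne hA1ne hcnt2
  rw [Zc_swap] at hf2
  -- the partition
  have hcA : ∀ S ∈ A2, ∑ e ∈ S, Real.log (1 + age f e / age g e) ≤ 4 * n / k + 3 * k * lam := by
    intro S hS
    have h3 := cost_le hk f g lam S (hA1r S (hA2 hS))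
    have h4 : ∑ e ∈ S, age f e ≤ 2 * (2 * n / k) := hA2w S hS
    have h5 : 2 * (2 * (n : ℝ) / k) = 4 * n / k := by ring
    linarith
  have hcB : ∀ T ∈ B2, ∑ e ∈ T, Real.log (1 + age g e / age f e) ≤ 4 * n / k + 3 * k * lam := by
    intro T hT
    have h3 := cost_le hk g f lam T (fun i => by rw [Finset.inter_comm]; exact hB2r T hT i)
    have h4 : ∑ e ∈ T, age g e ≤ 2 * (2 * n / k) := hB1w T (hB2 hT)
    have h5 : 2 * (2 * (n : ℝ) / k) = 4 * n / k := by ring
    linarith
  obtain ⟨I, P, hI, hIP⟩ := partition lam hlam A2 B2 (age f) (age g) (age_pos hk f)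
    (age_pos hk g) _ _ hcA hcB
  have hsubA : famA A2 I P ⊆ A := fun S hS => hA1 (hA2 (mem_famA.mp hS).1)
  have hsubB : famB B2 I P ⊆ B := fun T hT => hB1 (hB2 (mem_famB.mp hT).1)
  refine ⟨famA A2 I P, hsubA, famB B2 I P, hsubB, I, hI,
    fun S hS T hT => inter_fam hS hT, ?_⟩
  refine le_trans ?_ hIP
  have e1 : 4 * (n : ℝ) / k + 3 * k * lam + (4 * n / k + 3 * k * lam) =
      8 * n / k + 6 * k * lam := by ring
  rw [e1, mul_assoc]
  apply mul_le_mul_of_nonneg_left _ (Real.exp_pos _).le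
  calc (z / 4) ^ (k + 1) / 4 * (z ^ (k + 1) / 4) * ((A.card : ℝ) * B.card)
      = (z / 4) ^ (k + 1) / 4 * (z ^ (k + 1) / 4 * ((A.card : ℝ) * B.card)) := by ring
    _ ≤ (z / 4) ^ (k + 1) / 4 * Zc r A1 B1 := by
        apply mul_le_mul_of_nonneg_left hg2 (by positivity)
    _ ≤ (z / 4) ^ (k + 1) / 4 * ((B1.card : ℝ) * A1.card) := by
        apply mul_le_mul_of_nonneg_left _ (by positivity)
        rw [mul_comm (B1.card : ℝ)]
        exact Zc_le r A1 B1
    _ ≤ Zc r A2 B2 := hf2

end Pool.Agent.LIS
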