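import Pool.Agent.LIS.Num

/-!
MP_132c09_co: exactly lambda-intersecting subfamilies.
Complements and size classes.
-/

namespace Pool.Agent.LIS

open Finset

lemma Zc_map {X Y : Type} (r : X → Y → Prop) (φ : X ≃ X) (ψ : Y ≃ Y) (A : Finset X)
    (B : Finset Y) :
    Zc r (A.map φ.toEmbedding) (B.map ψ.toEmbedding) = Zc (fun x y => r (φ x) (ψ y)) A B := by
  classical
  rw [Zc_eq, Zc_eq, Finset.sum_map]
  apply Finset.sum_congr rfl
  intro x _
  rw [Finset.sum_map]
  rfl

lemma Zc_mono {X Y : Type} (r s : X → Y → Prop) (A : Finset X) (B : Finset Y)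
    (h : ∀ x ∈ A, ∀ y ∈ B, r x y → s x y) : Zc r A B ≤ Zc s A B := by
  classical
  rw [Zc_eq, Zc_eq]
  apply Finset.sum_le_sum
  intro x hx
  apply Finset.sum_le_sum
  intro y hy
  split_ifs with h1 h2 h3
  · exact le_refl _
  · exact absurd (h x hx y hy h1) h2
  · norm_num
  · exact le_refl _

lemma exists_of_Zc_pos {X Y : Type} (r : X → Y → Prop) (A : Finset X) (B : Finset Y)
    (h : 0 < Zc r A B) : ∃ x ∈ A, ∃ y ∈ B, r x y := by
  classical
  by_contra hcon
  push Not at hcon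
  have h0 : Zc r A B = 0 := by
    rw [Zc_eq]
    apply Finset.sum_eq_zero
    intro x hx
    apply Finset.sum_eq_zero
    intro y hy
    exact if_neg (hcon x hx y hy)
  linarith

/-- the optimised theorem for images under two bijections -/
theorem opt_equiv (n lam m : ℕ) (hn : 1 ≤ n) (hlm : lam ≤ m) (hm : 1 ≤ m) (z : ℝ) (hz : 0 < z)
    (hz1 : z ≤ 1) (φ ψ : Finset (Fin n) ≃ Finset (Fin n))
    (A B : Finset (Finset (Fin n))) (hA : A.Nonempty) (hB : B.Nonempty)
    (hcnt : z * ((A.card : ℝ) * B.card) ≤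
      Zc (fun S T : Finset (Fin n) => (φ S ∩ ψ T).card = lam) A B) :
    ∃ A' ⊆ A, ∃ B' ⊆ B, ∃ I : Finset (Fin n), I.card = lam ∧
      (∀ S ∈ A', ∀ T ∈ B', φ S ∩ ψ T = I) ∧
      Real.exp (-(32 * √((n : ℝ) * (m + Real.log (1 / z))))) *
        ((A.card : ℝ) * B.card) ≤ (A'.card : ℝ) * B'.card := by
  obtain ⟨A', hA', B', hB', I, hI, hAB, hmain⟩ := opt n lam m hn hlm hm z hz hz1
    (A.map φ.toEmbedding) (B.map ψ.toEmbedding) (hA.map) (hB.map) (by
      rw [Zc_map, Finset.card_map, Finset.card_map]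
      exact hcnt)
  rw [Finset.card_map, Finset.card_map] at hmain
  refine ⟨A'.map φ.symm.toEmbedding, ?_, B'.map ψ.symm.toEmbedding, ?_, I, hI, ?_, ?_⟩
  · intro S hS
    obtain ⟨S', hS', rfl⟩ := Finset.mem_map.mp hS
    obtain ⟨S'', hS'', h⟩ := Finset.mem_map.mp (hA' hS')
    have : φ.symm S' = S'' := by
      rw [← h]; exact φ.symm_apply_apply S''
    rw [Equiv.coe_toEmbedding, this]
    exact hS''
  · intro S hS
    obtain ⟨S', hS', rfl⟩ := Finset.mem_map.mp hS
    obtain ⟨S'', hS'', h⟩ := Finset.mem_map.mp (hB' hS')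
    have : ψ.symm S' = S'' := by
      rw [← h]; exact ψ.symm_apply_apply S''
    rw [Equiv.coe_toEmbedding, this]
    exact hS''
  · intro S hS T hT
    obtain ⟨S', hS', rfl⟩ := Finset.mem_map.mp hS
    obtain ⟨T', hT', rfl⟩ := Finset.mem_map.mp hT
    rw [Equiv.coe_toEmbedding, Equiv.coe_toEmbedding, Equiv.apply_symm_apply,
      Equiv.apply_symm_apply]
    exact hAB S' hS' T' hT'
  · rw [Finset.card_map, Finset.card_map]
    exact hmain

/-- sets of size `a` -/
def cls {n : ℕ} (A : Finset (Finset (Fin n))) (a : ℕ) : Finset (Finset (Fin n)) :=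
  A.filter fun S => S.card = a

lemma mem_cls {n : ℕ} {A : Finset (Finset (Fin n))} {a : ℕ} {S : Finset (Fin n)} :
    S ∈ cls A a ↔ S ∈ A ∧ S.card = a := by
  unfold cls
  exact Finset.mem_filter

lemma cls_subset {n : ℕ} (A : Finset (Finset (Fin n))) (a : ℕ) : cls A a ⊆ A :=
  fun _ hS => (mem_cls.mp hS).1

lemma sum_cls {n : ℕ} (A : Finset (Finset (Fin n))) (f : Finset (Fin n) → ℝ) :
    ∑ a ∈ range (n + 1), ∑ S ∈ cls A a, f S = ∑ S ∈ A, f S := by
  unfold cls
  apply Finset.sum_fiberwise_of_maps_to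
  intro S _
  rw [Finset.mem_range]
  have := Finset.card_le_univ S
  simp at this
  omega

lemma sum_card_cls {n : ℕ} (A : Finset (Finset (Fin n))) :
    ∑ a ∈ range (n + 1), ((cls A a).card : ℝ) = A.card := by
  have := sum_cls A (fun _ => (1 : ℝ))
  simpa using this

lemma sum_Zc_cls {n : ℕ} (r : Finset (Fin n) → Finset (Fin n) → Prop)
    (A B : Finset (Finset (Fin n))) :
    ∑ a ∈ range (n + 1), ∑ b ∈ range (n + 1), Zc r (cls A a) (cls B b) = Zc r A B := by
  classical
  simp only [Zc_eq]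
  rw [← sum_cls A]
  apply Finset.sum_congr rfl
  intro a _
  rw [Finset.sum_comm]
  apply Finset.sum_congr rfl
  intro S _
  rw [← sum_cls B]

/-- choice of a good pair of size classes -/
lemma exists_class {n : ℕ} (r : Finset (Fin n) → Finset (Fin n) → Prop)
    (A B : Finset (Finset (Fin n))) (hA : A.Nonempty) (hB : B.Nonempty) (z : ℝ) (hz : 0 < z)
    (hcnt : z * ((A.card : ℝ) * B.card) ≤ Zc r A B) :
    ∃ a b : ℕ, z / 2 * (((cls A a).card : ℝ) * (cls B b).card) ≤ Zc r (cls A a) (cls B b) ∧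
      z / (2 * ((n : ℝ) + 1) ^ 2) * ((A.card : ℝ) * B.card) ≤ Zc r (cls A a) (cls B b) := by
  by_contra hcon
  push Not at hcon
  have hAc : (0 : ℝ) < A.card := by exact_mod_cast hA.card_pos
  have hBc : (0 : ℝ) < B.card := by exact_mod_cast hB.card_pos
  have hn : (0 : ℝ) < (n : ℝ) + 1 := by positivity
  have hlt : ∀ a b : ℕ, Zc r (cls A a) (cls B b) <
      z / 2 * (((cls A a).card : ℝ) * (cls B b).card) +
        z / (2 * ((n : ℝ) + 1) ^ 2) * ((A.card : ℝ) * B.card) := by
    intro a b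
    by_cases h : z / 2 * (((cls A a).card : ℝ) * (cls B b).card) ≤ Zc r (cls A a) (cls B b)
    · have h1 := hcon a b h
      have h2 : 0 ≤ z / 2 * (((cls A a).card : ℝ) * (cls B b).card) := by positivity
      linarith
    · push Not at h
      have h2 : 0 < z / (2 * ((n : ℝ) + 1) ^ 2) * ((A.card : ℝ) * B.card) :=
        mul_pos (by positivity) (mul_pos hAc hBc)
      linarith
  have hsum : ∑ a ∈ range (n + 1), ∑ b ∈ range (n + 1), Zc r (cls A a) (cls B b) <
      ∑ a ∈ range (n + 1), ∑ b ∈ range (n + 1),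
        (z / 2 * (((cls A a).card : ℝ) * (cls B b).card) +
          z / (2 * ((n : ℝ) + 1) ^ 2) * ((A.card : ℝ) * B.card)) := by
    apply Finset.sum_lt_sum_of_nonempty (by simp)
    intro a _
    apply Finset.sum_lt_sum_of_nonempty (by simp)
    intro b _
    exact hlt a b
  rw [sum_Zc_cls] at hsum
  have hrhs : ∑ a ∈ range (n + 1), ∑ b ∈ range (n + 1),
        (z / 2 * (((cls A a).card : ℝ) * (cls B b).card) +
          z / (2 * ((n : ℝ) + 1) ^ 2) * ((A.card : ℝ) * B.card)) =
      z * ((A.card : ℝ) * B.card) := by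
    simp only [Finset.sum_add_distrib, ← Finset.mul_sum, Finset.sum_const, Finset.card_range,
      nsmul_eq_mul, sum_card_cls]
    rw [← Finset.sum_mul, sum_card_cls]
    push_cast
    field_simp
    ring
  rw [hrhs] at hsum
  linarith

/-- complementation as a bijection -/
def cpl (n : ℕ) : Finset (Fin n) ≃ Finset (Fin n) where
  toFun S := Sᶜ
  invFun S := Sᶜ
  left_inv S := compl_compl S
  right_inv S := compl_compl S

lemma cpl_apply {n : ℕ} (S : Finset (Fin n)) : cpl n S = Sᶜ := rfl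

/-- one of the four parts of the pair is constant -/
def Rigid {n : ℕ} (A B : Finset (Finset (Fin n))) : Prop :=
  (∃ I : Finset (Fin n), ∀ S ∈ A, ∀ T ∈ B, S ∩ T = I) ∨
  (∃ I : Finset (Fin n), ∀ S ∈ A, ∀ T ∈ B, S \ T = I) ∨
  (∃ I : Finset (Fin n), ∀ S ∈ A, ∀ T ∈ B, T \ S = I) ∨
  (∃ I : Finset (Fin n), ∀ S ∈ A, ∀ T ∈ B, (S ∪ T)ᶜ = I)

/-- the theorem inside a pair of size classes -/
theorem opt_cls (n lam μ a b : ℕ) (hn : 1 ≤ n) (hμ : 1 ≤ μ) (z : ℝ) (hz : 0 < z)
    (hz1 : z ≤ 1) (A B : Finset (Finset (Fin n))) (hA : ∀ S ∈ A, S.card = a)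
    (hB : ∀ T ∈ B, T.card = b) (hAne : A.Nonempty) (hBne : B.Nonempty)
    (hcnt : z * ((A.card : ℝ) * B.card) ≤
      Zc (fun S T : Finset (Fin n) => (S ∩ T).card = lam ∧ ((S ∩ T).card ≤ μ ∨
        (S \ T).card ≤ μ ∨ (T \ S).card ≤ μ ∨ ((S ∪ T)ᶜ).card ≤ μ)) A B) :
    ∃ A' ⊆ A, ∃ B' ⊆ B,
      (∀ S ∈ A', ∀ T ∈ B', (S ∩ T).card = lam) ∧ Rigid A' B' ∧
      Real.exp (-(32 * √((n : ℝ) * (μ + Real.log (1 / z))))) *
        ((A.card : ℝ) * B.card) ≤ (A'.card : ℝ) * B'.card := by
  classical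
  have hAc : (0 : ℝ) < A.card := by exact_mod_cast hAne.card_pos
  have hBc : (0 : ℝ) < B.card := by exact_mod_cast hBne.card_pos
  -- cardinalities of the four parts
  have e1 : ∀ S T : Finset (Fin n), (S ∩ T).card + (S \ T).card = S.card := fun S T => by
    rw [add_comm]; exact Finset.card_sdiff_add_card_inter S T
  have e2 : ∀ S T : Finset (Fin n), (S ∩ T).card + (T \ S).card = T.card := fun S T => by
    rw [Finset.inter_comm]; exact e1 T S
  have e3 : ∀ S T : Finset (Fin n), (S ∪ T).card + (S ∩ T).card = S.card + T.card :=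
    fun S T => Finset.card_union_add_card_inter S T
  have e4 : ∀ S T : Finset (Fin n), ((S ∪ T)ᶜ).card + (S ∪ T).card = n := fun S T => by
    rw [Finset.card_compl, Fintype.card_fin]
    have := Finset.card_le_univ (S ∪ T)
    rw [Fintype.card_fin] at this
    omega
  obtain ⟨S₀, hS₀, T₀, hT₀, hlam₀, htype⟩ := exists_of_Zc_pos _ A B
    (lt_of_lt_of_le (mul_pos hz (mul_pos hAc hBc)) hcnt)
  have hS₀c := hA S₀ hS₀
  have hT₀c := hB T₀ hT₀
  have f1 := e1 S₀ T₀
  have f2 := e2 S₀ T₀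
  have f3 := e3 S₀ T₀
  have f4 := e4 S₀ T₀
  rcases htype with h | h | h | h
  · obtain ⟨A', hA', B', hB', I, hI, hAB, hmain⟩ := opt_equiv n lam μ hn (by omega) hμ z hz hz1
      (Equiv.refl _) (Equiv.refl _) A B hAne hBne (hcnt.trans (Zc_mono _ _ _ _
        (fun S _ T _ h => h.1)))
    refine ⟨A', hA', B', hB', fun S hS T hT => ?_, Or.inl ⟨I, hAB⟩, hmain⟩
    have := hAB S hS T hT
    rw [Equiv.refl_apply, Equiv.refl_apply] at this
    rw [this, hI]
  · obtain ⟨A', hA', B', hB', I, hI, hAB, hmain⟩ := opt_equiv n (a - lam) μ hn (by omega) hμ z hz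
      hz1 (Equiv.refl _) (cpl n) A B hAne hBne (hcnt.trans (Zc_mono _ _ _ _
        (fun S hS T _ h => by
          have g1 := e1 S T
          have g2 := hA S hS
          have g3 := h.1
          rw [Equiv.refl_apply, cpl_apply, ← Finset.sdiff_eq_inter_compl]
          omega)))
    have hAB' : ∀ S ∈ A', ∀ T ∈ B', S \ T = I := by
      intro S hS T hT
      have := hAB S hS T hT
      rw [Equiv.refl_apply, cpl_apply, ← Finset.sdiff_eq_inter_compl] at this
      exact this
    refine ⟨A', hA', B', hB', fun S hS T hT => ?_, Or.inr (Or.inl ⟨I, hAB'⟩), hmain⟩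
    have g1 := e1 S T
    have g2 := hA S (hA' hS)
    rw [hAB' S hS T hT, hI] at g1
    omega
  · obtain ⟨A', hA', B', hB', I, hI, hAB, hmain⟩ := opt_equiv n (b - lam) μ hn (by omega) hμ z hz
      hz1 (cpl n) (Equiv.refl _) A B hAne hBne (hcnt.trans (Zc_mono _ _ _ _
        (fun S _ T hT h => by
          have g1 := e2 S T
          have g2 := hB T hT
          have g3 := h.1
          rw [Equiv.refl_apply, cpl_apply, Finset.inter_comm, ← Finset.sdiff_eq_inter_compl]
          omega)))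
    have hAB' : ∀ S ∈ A', ∀ T ∈ B', T \ S = I := by
      intro S hS T hT
      have := hAB S hS T hT
      rw [Equiv.refl_apply, cpl_apply, Finset.inter_comm, ← Finset.sdiff_eq_inter_compl] at this
      exact this
    refine ⟨A', hA', B', hB', fun S hS T hT => ?_, Or.inr (Or.inr (Or.inl ⟨I, hAB'⟩)), hmain⟩
    have g1 := e2 S T
    have g2 := hB T (hB' hT)
    rw [hAB' S hS T hT, hI] at g1
    omega
  · obtain ⟨A', hA', B', hB', I, hI, hAB, hmain⟩ := opt_equiv n (n + lam - a - b) μ hn (by omega)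
      hμ z hz hz1 (cpl n) (cpl n) A B hAne hBne (hcnt.trans (Zc_mono _ _ _ _
        (fun S hS T hT h => by
          have g1 := e3 S T
          have g2 := e4 S T
          have g3 := hA S hS
          have g4 := hB T hT
          have g5 := h.1
          rw [cpl_apply, cpl_apply, ← Finset.compl_union]
          omega)))
    have hAB' : ∀ S ∈ A', ∀ T ∈ B', (S ∪ T)ᶜ = I := by
      intro S hS T hT
      have := hAB S hS T hT
      rw [cpl_apply, cpl_apply, ← Finset.compl_union] at this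
      exact this
    refine ⟨A', hA', B', hB', fun S hS T hT => ?_, Or.inr (Or.inr (Or.inr ⟨I, hAB'⟩)), hmain⟩
    have g1 := e3 S T
    have g2 := e4 S T
    have g3 := hA S (hA' hS)
    have g4 := hB T (hB' hT)
    rw [hAB' S hS T hT, hI] at g2
    omega

/-- The theorem with natural logarithms. -/
theorem main_nat (n lam μ : ℕ) (hn : 1 ≤ n) (hμ : 1 ≤ μ) (z : ℝ) (hz : 0 < z)
    (hz1 : z ≤ 1) (A B : Finset (Finset (Fin n))) (hAne : A.Nonempty) (hBne : B.Nonempty)
    (hcnt : z * ((A.card : ℝ) * B.card) ≤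
      Zc (fun S T : Finset (Fin n) => (S ∩ T).card = lam ∧ ((S ∩ T).card ≤ μ ∨
        (S \ T).card ≤ μ ∨ (T \ S).card ≤ μ ∨ ((S ∪ T)ᶜ).card ≤ μ)) A B) :
    ∃ A' ⊆ A, ∃ B' ⊆ B,
      (∀ S ∈ A', ∀ T ∈ B', (S ∩ T).card = lam) ∧ Rigid A' B' ∧
      Real.exp (-(54 * √((n : ℝ) * (μ + Real.log (1 / z))))) *
        ((A.card : ℝ) * B.card) ≤ (A'.card : ℝ) * B'.card := by
  classical
  have hn' : (1 : ℝ) ≤ n := by exact_mod_cast hn
  have hμ' : (1 : ℝ) ≤ μ := by exact_mod_cast hμ
  have hAc : (0 : ℝ) < A.card := by exact_mod_cast hAne.card_pos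
  have hBc : (0 : ℝ) < B.card := by exact_mod_cast hBne.card_pos
  set ζ : ℝ := Real.log (1 / z) with hζ
  have hζ0 : 0 ≤ ζ := by
    apply Real.log_nonneg
    rw [le_div_iff₀ hz]
    linarith
  have hzexp : z = Real.exp (-ζ) := by
    rw [hζ, one_div, Real.log_inv, neg_neg, Real.exp_log hz]
  set L : ℝ := μ + ζ with hL
  have hL1 : 1 ≤ L := by linarith
  set y : ℝ := √((n : ℝ) * L) with hy
  have hyy : y * y = n * L := Real.mul_self_sqrt (mul_nonneg (by linarith) (by linarith))
  have he1 : (2 : ℝ) ≤ Real.exp 1 := by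
    have := Real.add_one_le_exp (1 : ℝ)
    linarith
  rcases le_or_gt (n : ℝ) L with hbig | hsmall
  · obtain ⟨S₀, hS₀, T₀, hT₀, hlam₀, -⟩ := exists_of_Zc_pos _ A B
      (lt_of_lt_of_le (mul_pos hz (mul_pos hAc hBc)) hcnt)
    refine ⟨{S₀}, by simpa using hS₀, {T₀}, by simpa using hT₀, ?_, Or.inl ⟨S₀ ∩ T₀, ?_⟩, ?_⟩
    · intro S hS T hT
      rw [Finset.mem_singleton] at hS hT
      rw [hS, hT]
      exact hlam₀
    · intro S hS T hT
      rw [Finset.mem_singleton] at hS hT
      rw [hS, hT]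
    · have hcard : ∀ F : Finset (Finset (Fin n)), (F.card : ℝ) ≤ Real.exp n := by
        intro F
        have h1 : F.card ≤ 2 ^ n := by
          refine (Finset.card_le_univ F).trans ?_
          simp
        have h2 : (F.card : ℝ) ≤ 2 ^ n := by exact_mod_cast h1
        refine h2.trans ?_
        calc (2 : ℝ) ^ n ≤ Real.exp 1 ^ n := pow_le_pow_left₀ (by norm_num) he1 n
          _ = Real.exp n := by rw [← Real.exp_nat_mul, mul_one]
      have hny : (n : ℝ) ≤ y := by
        rw [hy]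
        apply Real.le_sqrt_of_sq_le
        nlinarith
      have h4 : (A.card : ℝ) * B.card ≤ Real.exp (n + n) := by
        rw [Real.exp_add]
        exact mul_le_mul (hcard A) (hcard B) hBc.le (Real.exp_pos _).le
      have h5 : Real.exp (-(54 * y)) * ((A.card : ℝ) * B.card) ≤
          Real.exp (-(54 * y)) * Real.exp (n + n) :=
        mul_le_mul_of_nonneg_left h4 (Real.exp_pos _).le
      rw [← Real.exp_add] at h5
      refine h5.trans ?_
      simp only [Finset.card_singleton, Nat.cast_one, mul_one]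
      rw [← Real.exp_zero]
      apply Real.exp_le_exp.mpr
      linarith
  · obtain ⟨a, b, hab1, hab2⟩ := exists_class _ A B hAne hBne z hz hcnt
    set r : Finset (Fin n) → Finset (Fin n) → Prop := fun S T => (S ∩ T).card = lam ∧
      ((S ∩ T).card ≤ μ ∨ (S \ T).card ≤ μ ∨ (T \ S).card ≤ μ ∨ ((S ∪ T)ᶜ).card ≤ μ) with hr
    have hZpos : 0 < Zc r (cls A a) (cls B b) :=
      lt_of_lt_of_le (mul_pos (by positivity) (mul_pos hAc hBc)) hab2
    obtain ⟨S₀, hS₀, T₀, hT₀, -⟩ := exists_of_Zc_pos _ _ _ hZpos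
    obtain ⟨A', hA', B', hB', hAB, hrig, hmain⟩ := opt_cls n lam μ a b hn hμ (z / 2)
      (by positivity) (by linarith) (cls A a) (cls B b) (fun S hS => (mem_cls.mp hS).2)
      (fun T hT => (mem_cls.mp hT).2) ⟨S₀, hS₀⟩ ⟨T₀, hT₀⟩ hab1
    refine ⟨A', hA'.trans (cls_subset A a), B', hB'.trans (cls_subset B b), hAB, hrig, ?_⟩
    refine le_trans ?_ hmain
    -- sizes
    have hZle := Zc_le r (cls A a) (cls B b)
    have hlog2 : Real.log (1 / (z / 2)) ≤ 1 + ζ := by
      have h1 : 1 / (z / 2) = 2 * (1 / z) := by field_simp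
      rw [h1, Real.log_mul (by norm_num) (by positivity)]
      have : Real.log 2 ≤ 1 := by linarith [Real.log_two_lt_d9]
      linarith
    have hsq : √((n : ℝ) * (μ + Real.log (1 / (z / 2)))) ≤ 3 / 2 * y := by
      have h1 : (3 / 2 * y) = √((9 / 4 : ℝ) * (n * L)) := by
        rw [Real.sqrt_mul (by norm_num)]
        congr 1
        rw [show (9 / 4 : ℝ) = (3 / 2) ^ 2 by norm_num]
        rw [Real.sqrt_sq (by norm_num)]
      rw [h1]
      apply Real.sqrt_le_sqrt
      have h2 : (μ : ℝ) + Real.log (1 / (z / 2)) ≤ 9 / 4 * L := by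
        rw [hL]
        linarith
      calc (n : ℝ) * (μ + Real.log (1 / (z / 2))) ≤ n * (9 / 4 * L) :=
            mul_le_mul_of_nonneg_left h2 (by linarith)
        _ = 9 / 4 * (n * L) := by ring
    have hsn : √(n : ℝ) ≤ y := by
      rw [hy]
      apply Real.sqrt_le_sqrt
      nlinarith
    have hLy : L ≤ y := by
      rw [hy]
      apply Real.le_sqrt_of_sq_le
      nlinarith
    have hn1 : Real.exp (-(4 * √(n : ℝ))) ≤ 1 / ((n : ℝ) + 1) ^ 2 := by
      have h1 : (n : ℝ) + 1 ≤ Real.exp (2 * √(n : ℝ)) := by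
        have h2 := Real.add_one_le_exp (√(n : ℝ))
        have h3 : Real.exp (2 * √(n : ℝ)) = Real.exp (√(n : ℝ)) * Real.exp (√(n : ℝ)) := by
          rw [← Real.exp_add]; congr 1; ring
        have h4 : √(n : ℝ) * √(n : ℝ) = n := Real.mul_self_sqrt (by linarith)
        have h5 : 0 ≤ √(n : ℝ) := Real.sqrt_nonneg _
        rw [h3]
        nlinarith
      have h6 : Real.exp (-(4 * √(n : ℝ))) = 1 / (Real.exp (2 * √(n : ℝ))) ^ 2 := by
        rw [← Real.exp_nat_mul, one_div, ← Real.exp_neg]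
        congr 1
        push_cast
        ring
      rw [h6]
      apply one_div_le_one_div_of_le (by positivity)
      exact pow_le_pow_left₀ (by positivity) h1 2
    have hz2 : Real.exp (-(ζ + 1 + 4 * √(n : ℝ))) ≤ z / (2 * ((n : ℝ) + 1) ^ 2) := by
      have h1 : Real.exp (-(ζ + 1 + 4 * √(n : ℝ))) =
          Real.exp (-ζ) * Real.exp (-1) * Real.exp (-(4 * √(n : ℝ))) := by
        rw [← Real.exp_add, ← Real.exp_add]
        congr 1
        ring
      have h2 : Real.exp (-1) ≤ 1 / 2 := by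
        rw [Real.exp_neg, one_div]
        exact inv_anti₀ (by norm_num) he1
      rw [h1, ← hzexp]
      calc z * Real.exp (-1) * Real.exp (-(4 * √(n : ℝ)))
          ≤ z * (1 / 2) * (1 / ((n : ℝ) + 1) ^ 2) := by
            apply mul_le_mul _ hn1 (Real.exp_pos _).le (by positivity)
            exact mul_le_mul_of_nonneg_left h2 hz.le
        _ = z / (2 * ((n : ℝ) + 1) ^ 2) := by
            field_simp
    calc Real.exp (-(54 * y)) * ((A.card : ℝ) * B.card)
        ≤ Real.exp (-(32 * √((n : ℝ) * (μ + Real.log (1 / (z / 2))))) +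
            -(ζ + 1 + 4 * √(n : ℝ))) * ((A.card : ℝ) * B.card) := by
          apply mul_le_mul_of_nonneg_right _ (mul_pos hAc hBc).le
          apply Real.exp_le_exp.mpr
          linarith
      _ = Real.exp (-(32 * √((n : ℝ) * (μ + Real.log (1 / (z / 2)))))) *
            (Real.exp (-(ζ + 1 + 4 * √(n : ℝ))) * ((A.card : ℝ) * B.card)) := by
          rw [Real.exp_add]; ring
      _ ≤ Real.exp (-(32 * √((n : ℝ) * (μ + Real.log (1 / (z / 2)))))) *
            (((cls A a).card : ℝ) * (cls B b).card) := by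
          apply mul_le_mul_of_nonneg_left _ (Real.exp_pos _).le
          refine le_trans ?_ (hab2.trans hZle)
          exact mul_le_mul_of_nonneg_right hz2 (mul_pos hAc hBc).le

end Pool.Agent.LIS
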