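import Pool.Agent.LIS.Core

/-!
MP_132c09_co: exactly lambda-intersecting subfamilies.
Choice of the number of samples.
-/

namespace Pool.Agent.LIS

open Finset

lemma choose_le_exp (n lam : ℕ) (hn : 1 ≤ n) :
    ((n.choose lam : ℕ) : ℝ) ≤ Real.exp (2 * √((n : ℝ) * lam)) := by
  have hn' : (0 : ℝ) < n := by exact_mod_cast hn
  rcases Nat.eq_zero_or_pos lam with h0 | hpos
  · subst h0
    simp
  have hl : (0 : ℝ) < lam := by exact_mod_cast hpos
  set t : ℝ := √((n : ℝ) * lam) with ht
  have ht0 : 0 < t := Real.sqrt_pos.mpr (by positivity)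
  have htt : t * t = n * lam := Real.mul_self_sqrt (by positivity)
  have hr : 0 < t / n := by positivity
  rcases le_or_gt lam n with hle | hgt
  · have h1 : ((n.choose lam : ℕ) : ℝ) * (t / n) ^ lam ≤ (1 + t / n) ^ n := by
      rw [add_comm, add_pow]
      have h2 := Finset.single_le_sum
        (f := fun m => (t / n) ^ m * 1 ^ (n - m) * ((n.choose m : ℕ) : ℝ)) (s := range (n + 1))
        (fun i _ => by positivity) (mem_range.mpr (by omega : lam < n + 1))
      refine le_trans (le_of_eq ?_) h2
      simp only [one_pow, mul_one]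
      ring
    have h3 : (1 + t / n) ^ n ≤ Real.exp t := by
      have h4 : (1 + t / n) ≤ Real.exp (t / n) := by
        have := Real.add_one_le_exp (t / n)
        linarith
      calc (1 + t / n) ^ n ≤ Real.exp (t / n) ^ n := pow_le_pow_left₀ (by positivity) h4 n
        _ = Real.exp t := by
          rw [← Real.exp_nat_mul]
          congr 1
          field_simp
    have h5 : 1 ≤ (t / n) ^ lam * Real.exp t := by
      have h6 : (n : ℝ) / t ≤ Real.exp (n / t) := by
        have := Real.add_one_le_exp ((n : ℝ) / t)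
        linarith
      have h7 : ((n : ℝ) / t) ^ lam ≤ Real.exp t := by
        calc ((n : ℝ) / t) ^ lam ≤ Real.exp (n / t) ^ lam :=
              pow_le_pow_left₀ (by positivity) h6 lam
          _ = Real.exp t := by
            rw [← Real.exp_nat_mul]
            congr 1
            field_simp
            rw [sq, htt]
            ring
      calc (1 : ℝ) = (t / n) ^ lam * (n / t) ^ lam := by
            rw [← mul_pow]
            have : t / n * (n / t) = 1 := by field_simp
            rw [this, one_pow]
        _ ≤ (t / n) ^ lam * Real.exp t := mul_le_mul_of_nonneg_left h7 (by positivity)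
    have hc : (0 : ℝ) ≤ ((n.choose lam : ℕ) : ℝ) := Nat.cast_nonneg _
    calc ((n.choose lam : ℕ) : ℝ) = ((n.choose lam : ℕ) : ℝ) * 1 := by ring
      _ ≤ ((n.choose lam : ℕ) : ℝ) * ((t / n) ^ lam * Real.exp t) :=
          mul_le_mul_of_nonneg_left h5 hc
      _ = (((n.choose lam : ℕ) : ℝ) * (t / n) ^ lam) * Real.exp t := by ring
      _ ≤ Real.exp t * Real.exp t :=
          mul_le_mul_of_nonneg_right (h1.trans h3) (Real.exp_pos _).le
      _ = Real.exp (2 * t) := by rw [← Real.exp_add]; congr 1; ring
  · rw [Nat.choose_eq_zero_of_lt hgt]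
    simp only [Nat.cast_zero]
    exact (Real.exp_pos _).le

/-- the optimised form of the core theorem -/
theorem opt (n lam m : ℕ) (hn : 1 ≤ n) (hlm : lam ≤ m) (hm : 1 ≤ m) (z : ℝ) (hz : 0 < z)
    (hz1 : z ≤ 1) (A B : Finset (Finset (Fin n))) (hA : A.Nonempty) (hB : B.Nonempty)
    (hcnt : z * ((A.card : ℝ) * B.card) ≤
      Zc (fun S T : Finset (Fin n) => (S ∩ T).card = lam) A B) :
    ∃ A' ⊆ A, ∃ B' ⊆ B, ∃ I : Finset (Fin n), I.card = lam ∧
      (∀ S ∈ A', ∀ T ∈ B', S ∩ T = I) ∧
      Real.exp (-(32 * √((n : ℝ) * (m + Real.log (1 / z))))) *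
        ((A.card : ℝ) * B.card) ≤ (A'.card : ℝ) * B'.card := by
  classical
  have hn' : (1 : ℝ) ≤ n := by exact_mod_cast hn
  have hm' : (1 : ℝ) ≤ m := by exact_mod_cast hm
  have hlm' : (lam : ℝ) ≤ m := by exact_mod_cast hlm
  have hAc : (0 : ℝ) < A.card := by exact_mod_cast hA.card_pos
  have hBc : (0 : ℝ) < B.card := by exact_mod_cast hB.card_pos
  set ζ : ℝ := Real.log (1 / z) with hζ
  have hζ0 : 0 ≤ ζ := by
    apply Real.log_nonneg
    rw [le_div_iff₀ hz]
    linarith
  have hzexp : z = Real.exp (-ζ) := by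
    rw [hζ, one_div, Real.log_inv, neg_neg, Real.exp_log hz]
  set L : ℝ := m + ζ with hL
  have hL1 : 1 ≤ L := by linarith
  set y : ℝ := √((n : ℝ) * L) with hy
  have hyy : y * y = n * L := Real.mul_self_sqrt (mul_nonneg (by linarith) (by linarith))
  have hy1 : 1 ≤ y := by
    rw [hy]
    apply Real.one_le_sqrt.mpr
    nlinarith
  -- there is a related pair
  have hpair : ∃ S ∈ A, ∃ T ∈ B, (S ∩ T).card = lam := by
    by_contra hcon
    push Not at hcon
    have h0 : Zc (fun S T : Finset (Fin n) => (S ∩ T).card = lam) A B = 0 := by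
      rw [Zc_eq]
      apply Finset.sum_eq_zero
      intro S hS
      apply Finset.sum_eq_zero
      intro T hT
      exact if_neg (hcon S hS T hT)
    have : 0 < z * ((A.card : ℝ) * B.card) := mul_pos hz (mul_pos hAc hBc)
    linarith
  obtain ⟨S₀, hS₀, T₀, hT₀, hST⟩ := hpair
  have hlam : lam ≤ n := by
    rw [← hST]
    exact (Finset.card_le_univ _).trans (by simp)
  rcases le_or_gt (n : ℝ) L with hbig | hsmall
  · -- one pair suffices
    refine ⟨{S₀}, by simpa using hS₀, {T₀}, by simpa using hT₀, S₀ ∩ T₀, hST, ?_, ?_⟩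
    · intro S hS T hT
      rw [Finset.mem_singleton] at hS hT
      rw [hS, hT]
    · have hcard : ∀ F : Finset (Finset (Fin n)), (F.card : ℝ) ≤ Real.exp n := by
        intro F
        have h1 : F.card ≤ 2 ^ n := by
          refine (Finset.card_le_univ F).trans ?_
          simp
        have h2 : (F.card : ℝ) ≤ 2 ^ n := by exact_mod_cast h1
        refine h2.trans ?_
        have h3 : (2 : ℝ) ≤ Real.exp 1 := by
          have := Real.add_one_le_exp (1 : ℝ)
          linarith
        calc (2 : ℝ) ^ n ≤ Real.exp 1 ^ n := pow_le_pow_left₀ (by norm_num) h3 n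
          _ = Real.exp n := by rw [← Real.exp_nat_mul, mul_one]
      have hny : (n : ℝ) ≤ y := by
        rw [hy]
        apply Real.le_sqrt_of_sq_le
        nlinarith
      have h4 : (A.card : ℝ) * B.card ≤ Real.exp (n + n) := by
        rw [Real.exp_add]
        exact mul_le_mul (hcard A) (hcard B) hBc.le (Real.exp_pos _).le
      have h5 : Real.exp (-(32 * y)) * ((A.card : ℝ) * B.card) ≤
          Real.exp (-(32 * y)) * Real.exp (n + n) :=
        mul_le_mul_of_nonneg_left h4 (Real.exp_pos _).le
      rw [← Real.exp_add] at h5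
      refine h5.trans ?_
      simp only [Finset.card_singleton, Nat.cast_one, mul_one]
      rw [← Real.exp_zero]
      apply Real.exp_le_exp.mpr
      linarith
  · -- the main case
    have hL0 : 0 < L := by linarith
    set x : ℝ := y / L with hx
    have hx1 : 1 ≤ x := by
      rw [hx, le_div_iff₀ hL0, one_mul, hy]
      apply Real.le_sqrt_of_sq_le
      nlinarith
    have hxL : x * L = y := by rw [hx]; field_simp
    have hxy : x * y = n := by
      rw [hx]
      field_simp
      rw [sq, hyy]
      ring
    set k : ℕ := ⌈x⌉₊ with hk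
    have hkx : x ≤ k := Nat.le_ceil x
    have hkx2 : (k : ℝ) < x + 1 := Nat.ceil_lt_add_one (by linarith)
    have hk1 : 1 ≤ k := by
      have : (1 : ℝ) ≤ k := le_trans hx1 hkx
      exact_mod_cast this
    have hk0 : (0 : ℝ) < k := by exact_mod_cast hk1
    obtain ⟨A', hA', B', hB', I, hI, hAB, hmain⟩ := core n lam k hn hk1 hlam z hz A B hA hB hcnt
    refine ⟨A', hA', B', hB', I, hI, hAB, ?_⟩
    have hchpos : (0 : ℝ) < ((n.choose lam : ℕ) : ℝ) := by
      exact_mod_cast Nat.choose_pos hlam
    have hch := choose_le_exp n lam hn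
    have hsq : √((n : ℝ) * lam) ≤ y := by
      rw [hy]
      apply Real.sqrt_le_sqrt
      apply mul_le_mul_of_nonneg_left _ (by positivity)
      linarith
    -- the lower bound for the factor
    have hquarter : Real.exp (-2) ≤ 1 / 4 := by
      have h1 : (2 : ℝ) ≤ Real.exp 1 := by
        have := Real.add_one_le_exp (1 : ℝ)
        linarith
      have h2 : (4 : ℝ) ≤ Real.exp 2 := by
        have h3 : Real.exp 2 = Real.exp 1 * Real.exp 1 := by
          rw [← Real.exp_add]; norm_num
        rw [h3]
        nlinarith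
      rw [Real.exp_neg, one_div]
      exact inv_anti₀ (by norm_num) h2
    have hf1 : Real.exp (-((ζ + 2) * (k + 1))) ≤ (z / 4) ^ (k + 1) := by
      have h1 : Real.exp (-(ζ + 2)) ≤ z / 4 := by
        have h2 : Real.exp (-(ζ + 2)) = z * Real.exp (-2) := by
          conv_rhs => rw [hzexp]
          rw [← Real.exp_add]
          congr 1
          ring
        rw [h2]
        have := mul_le_mul_of_nonneg_left hquarter hz.le
        linarith
      calc Real.exp (-((ζ + 2) * (k + 1))) = Real.exp (-(ζ + 2)) ^ (k + 1) := by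
            rw [← Real.exp_nat_mul]
            congr 1
            push_cast
            ring
        _ ≤ (z / 4) ^ (k + 1) := pow_le_pow_left₀ (Real.exp_pos _).le h1 _
    have hf2 : Real.exp (-(ζ * (k + 1))) = z ^ (k + 1) := by
      calc Real.exp (-(ζ * (k + 1))) = Real.exp (-ζ) ^ (k + 1) := by
            rw [← Real.exp_nat_mul]
            congr 1
            push_cast
            ring
        _ = z ^ (k + 1) := by rw [← hzexp]
    have hf3 : Real.exp (-((ζ + 2) * (k + 1) + 2 + (ζ * (k + 1) + 2))) ≤
        (z / 4) ^ (k + 1) / 4 * (z ^ (k + 1) / 4) := by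
      have e1 : Real.exp (-((ζ + 2) * (k + 1) + 2 + (ζ * (k + 1) + 2))) =
          (Real.exp (-((ζ + 2) * (k + 1))) * Real.exp (-2)) *
            (Real.exp (-(ζ * (k + 1))) * Real.exp (-2)) := by
        rw [← Real.exp_add, ← Real.exp_add, ← Real.exp_add]
        congr 1
        ring
      rw [e1]
      apply mul_le_mul
      · calc Real.exp (-((ζ + 2) * (k + 1))) * Real.exp (-2) ≤ (z / 4) ^ (k + 1) * (1 / 4) :=
              mul_le_mul hf1 hquarter (Real.exp_pos _).le (by positivity)
          _ = (z / 4) ^ (k + 1) / 4 := by ring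
      · rw [hf2]
        calc z ^ (k + 1) * Real.exp (-2) ≤ z ^ (k + 1) * (1 / 4) :=
              mul_le_mul_of_nonneg_left hquarter (by positivity)
          _ = z ^ (k + 1) / 4 := by ring
      · positivity
      · positivity
    have hnk : (n : ℝ) / k ≤ y := by
      rw [div_le_iff₀ hk0, ← hxy]
      nlinarith
    have hklam : (k : ℝ) * lam ≤ 2 * y := by
      have h1 : (k : ℝ) ≤ 2 * x := by linarith
      calc (k : ℝ) * lam ≤ (2 * x) * L :=
            mul_le_mul h1 (by linarith) (Nat.cast_nonneg _) (by positivity)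
        _ = 2 * y := by rw [mul_assoc, hxL]
    have hkz : ((ζ + 2) * (k + 1) + 2 + (ζ * (k + 1) + 2)) ≤ 10 * y := by
      have h1 : (k : ℝ) + 1 ≤ 3 * x := by linarith
      have h2 : (2 * ζ + 2) * ((k : ℝ) + 1) ≤ (2 * L) * (3 * x) := by
        apply mul_le_mul _ h1 (by positivity) (by positivity)
        linarith
      have h3 : (2 * L) * (3 * x) = 6 * y := by
        rw [← hxL]; ring
      nlinarith
    -- conclusion
    have hkey : ((n.choose lam : ℕ) : ℝ) * Real.exp (-(32 * y)) ≤
        Real.exp (-(8 * n / k + 6 * k * lam)) *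
          ((z / 4) ^ (k + 1) / 4 * (z ^ (k + 1) / 4)) := by
      calc ((n.choose lam : ℕ) : ℝ) * Real.exp (-(32 * y))
          ≤ Real.exp (2 * y) * Real.exp (-(32 * y)) := by
            apply mul_le_mul_of_nonneg_right _ (Real.exp_pos _).le
            refine hch.trans (Real.exp_le_exp.mpr ?_)
            linarith
        _ = Real.exp (-(30 * y)) := by rw [← Real.exp_add]; congr 1; ring
        _ ≤ Real.exp (-(8 * n / k + 6 * k * lam) +
              -((ζ + 2) * (k + 1) + 2 + (ζ * (k + 1) + 2))) := by
            apply Real.exp_le_exp.mpr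
            have e1 : 8 * (n : ℝ) / k = 8 * (n / k) := by ring
            have e2 : 6 * (k : ℝ) * lam = 6 * (k * lam) := by ring
            rw [e1, e2]
            linarith
        _ = Real.exp (-(8 * n / k + 6 * k * lam)) *
              Real.exp (-((ζ + 2) * (k + 1) + 2 + (ζ * (k + 1) + 2))) := Real.exp_add _ _
        _ ≤ _ := mul_le_mul_of_nonneg_left hf3 (Real.exp_pos _).le
    have hfin : ((n.choose lam : ℕ) : ℝ) * (Real.exp (-(32 * y)) * ((A.card : ℝ) * B.card)) ≤
        ((n.choose lam : ℕ) : ℝ) * ((A'.card : ℝ) * B'.card) := by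
      refine le_trans ?_ hmain
      rw [← mul_assoc]
      exact mul_le_mul_of_nonneg_right hkey (mul_pos hAc hBc).le
    exact le_of_mul_le_mul_left hfin hchpos

end Pool.Agent.LIS
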