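import Pool.Agent.LIS.Rot3
import Pool.Agent.LIS.Part

/-!
MP_132c09_co: the first phase. The refined one-sided theorem is applied on a random subset of the
ground set; this removes the heavy upper tail of the intersection sizes.
-/

namespace Pool.Agent.LIS

open Finset

lemma sum_av {X Y ι : Type} (s : Finset ι) (c : ι → ℝ) (A : Finset X) (B : Finset Y)
    (g : ι → X → Y → ℝ) :
    ∑ T ∈ s, c T * av A B (g T) = av A B (fun x y => ∑ T ∈ s, c T * g T x y) := by
  unfold av S2
  have h1 : ∀ T ∈ s, c T * ((∑ x ∈ A, ∑ y ∈ B, g T x y) / ((A.card : ℝ) * B.card)) =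
      (∑ x ∈ A, ∑ y ∈ B, c T * g T x y) / ((A.card : ℝ) * B.card) := by
    intro T _
    rw [← mul_div_assoc, Finset.mul_sum]
    congr 1
    apply Finset.sum_congr rfl
    intro x _
    rw [Finset.mul_sum]
  rw [Finset.sum_congr rfl h1, ← Finset.sum_div]
  congr 1
  rw [Finset.sum_comm]
  apply Finset.sum_congr rfl
  intro x _
  rw [Finset.sum_comm]

lemma av_mono {X Y : Type} {A : Finset X} {B : Finset Y} {g h : X → Y → ℝ}
    (hgh : ∀ x ∈ A, ∀ y ∈ B, g x y ≤ h x y) : av A B g ≤ av A B h := by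
  unfold av S2
  apply div_le_div_of_nonneg_right _ (by positivity)
  exact Finset.sum_le_sum fun x hx => Finset.sum_le_sum fun y hy => hgh x hx y hy

section prob

variable {n : ℕ}

/-- probability weight of `T` when every element is chosen with probability `ρ` -/
noncomputable def wr (ρ : ℝ) (T : Finset (Fin n)) : ℝ := wt (fun _ => ρ) (fun _ => 1 - ρ) T

lemma wr_pos {ρ : ℝ} (h0 : 0 < ρ) (h1 : ρ < 1) (T : Finset (Fin n)) : 0 < wr ρ T :=
  wt_pos (fun _ => h0) (fun _ => by linarith) T

lemma sum_wr (ρ : ℝ) : ∑ T ∈ (univ : Finset (Fin n)).powerset, wr ρ T = 1 :=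
  sum_wt fun _ => by ring

open scoped Classical in
lemma sum_wr_disj (ρ : ℝ) (Z : Finset (Fin n)) :
    ∑ T ∈ (univ : Finset (Fin n)).powerset, (if Disjoint Z T then wr ρ T else 0) =
      (1 - ρ) ^ Z.card := by
  have h := sum_wt_filter (n := n) (p := fun _ => ρ) (q := fun _ => 1 - ρ) (fun _ => by ring)
    ∅ Z (Finset.disjoint_empty_left Z)
  simp only [Finset.empty_subset, true_and, Finset.prod_const, Finset.card_empty, pow_zero,
    one_mul] at h
  exact h

open scoped Classical in
lemma sum_wr_mem (ρ : ℝ) (e : Fin n) :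
    ∑ T ∈ (univ : Finset (Fin n)).powerset, (if e ∈ T then wr ρ T else 0) = ρ := by
  have h := sum_wt_filter (n := n) (p := fun _ => ρ) (q := fun _ => 1 - ρ) (fun _ => by ring)
    {e} ∅ (Finset.disjoint_empty_right _)
  simp only [Finset.singleton_subset_iff, Finset.disjoint_empty_left, and_true,
    Finset.prod_singleton, Finset.prod_empty, mul_one] at h
  exact h

open scoped Classical in
lemma sum_wr_card (ρ : ℝ) :
    ∑ T ∈ (univ : Finset (Fin n)).powerset, wr ρ T * (T.card : ℝ) = n * ρ := by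
  have h1 : ∀ T : Finset (Fin n), wr ρ T * (T.card : ℝ) =
      ∑ e : Fin n, if e ∈ T then wr ρ T else 0 := by
    intro T
    rw [← Finset.sum_filter, Finset.sum_const, nsmul_eq_mul, mul_comm]
    congr 2
    congr 1
    ext e
    simp
  simp_rw [h1]
  rw [Finset.sum_comm]
  simp_rw [sum_wr_mem]
  simp

/-- if the average is at most `c`, some value is at most `c` -/
lemma exists_le_wr {ρ : ℝ} (h0 : 0 < ρ) (h1 : ρ < 1) (h : Finset (Fin n) → ℝ) (c : ℝ)
    (hc : ∑ T ∈ (univ : Finset (Fin n)).powerset, wr ρ T * h T ≤ c) : ∃ T, h T ≤ c := by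
  by_contra hcon
  push Not at hcon
  have h2 : ∑ T ∈ (univ : Finset (Fin n)).powerset, wr ρ T * c <
      ∑ T ∈ (univ : Finset (Fin n)).powerset, wr ρ T * h T := by
    apply Finset.sum_lt_sum_of_nonempty ⟨∅, by simp⟩
    intro T _
    exact mul_lt_mul_of_pos_left (hcon T) (wr_pos h0 h1 T)
  rw [← Finset.sum_mul, sum_wr, one_mul] at h2
  linarith

end prob

variable {X Y : Type} {n : ℕ} (a : X → Finset (Fin n)) (b : Y → Finset (Fin n))

/-- the potential is at most `(s * m + W / s) / 2` when the conflicts lie in a set of size `m` -/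
lemma Ph_le (A : Finset X) (B : Finset Y) (T : Finset (Fin n)) (hT : ∀ x ∈ A, a x ⊆ T)
    (g : X → Y → ℝ)
    (hg : ∀ x ∈ A, ∀ y ∈ B, (a x ∩ b y).Nonempty → 1 / ((a x ∩ b y).card : ℝ) ≤ g x y)
    (hg0 : ∀ x ∈ A, ∀ y ∈ B, 0 ≤ g x y) (s : ℝ) (hs : 0 < s) :
    Ph a b A B ≤ (s * T.card + av A B g / s) / 2 := by
  classical
  have h1 : ∀ e, √(av A B (xe a b e)) ≤
      ((if e ∈ T then s else 0) + av A B (xe a b e) / s) / 2 := by
    intro e
    have h0 : 0 ≤ av A B (xe a b e) := av_nonneg fun x _ y _ => xe_nonneg a b e x y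
    split_ifs with he
    · have h2 : √(av A B (xe a b e)) * √(av A B (xe a b e)) = av A B (xe a b e) :=
        Real.mul_self_sqrt h0
      set u := √(av A B (xe a b e))
      rw [← h2, le_div_iff₀ (by norm_num : (0 : ℝ) < 2)]
      have h3 : 2 * (s * u) ≤ s * s + u * u := by nlinarith [sq_nonneg (s - u)]
      have h4 : s + u * u / s = (s * s + u * u) / s := by field_simp
      rw [h4, le_div_iff₀ hs]
      linarith
    · have h2 : Inact a b A B e := by
        intro x hx y _ hmem
        exact he (hT x hx (Finset.mem_inter.mp hmem).1)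
      rw [h2.av_eq_zero, Real.sqrt_zero]
      simp
  have h2 : ∑ e, av A B (xe a b e) ≤ av A B g := by
    have h3 := sum_av (Finset.univ : Finset (Fin n)) (fun _ => 1) A B (fun e => xe a b e)
    simp only [one_mul] at h3
    rw [h3]
    apply av_mono
    intro x hx y hy
    have h4 : ∑ e, xe a b e x y = if (a x ∩ b y).Nonempty then 1 / ((a x ∩ b y).card : ℝ) else 0 := by
      unfold xe
      rw [← Finset.sum_filter, Finset.sum_const, nsmul_eq_mul]
      have h5 : (Finset.univ.filter fun e => e ∈ a x ∩ b y) = a x ∩ b y := by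
        ext e; simp
      rw [h5]
      split_ifs with h
      · have h6 : (0 : ℝ) < (a x ∩ b y).card := by exact_mod_cast h.card_pos
        field_simp
      · rw [Finset.not_nonempty_iff_eq_empty] at h
        simp [h]
    rw [h4]
    split_ifs with h
    · exact hg x hx y hy h
    · exact hg0 x hx y hy
  unfold Ph
  calc ∑ e, √(av A B (xe a b e))
      ≤ ∑ e, ((if e ∈ T then s else 0) + av A B (xe a b e) / s) / 2 :=
        Finset.sum_le_sum fun e _ => h1 e
    _ = (s * T.card + (∑ e, av A B (xe a b e)) / s) / 2 := by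
        rw [← Finset.sum_div, Finset.sum_add_distrib, ← Finset.sum_div, ← Finset.sum_filter,
          Finset.sum_const, nsmul_eq_mul]
        have h5 : (Finset.univ.filter fun e => e ∈ T) = T := by ext e; simp
        rw [h5, mul_comm s]
    _ ≤ (s * T.card + av A B g / s) / 2 := by
        have := div_le_div_of_nonneg_right h2 hs.le
        linarith

open scoped Classical in
/-- Phase 1. -/
theorem phase1 (lam : ℕ) (A₀ : Finset X) (B₀ : Finset Y) (hA₀ : A₀.Nonempty) (hB₀ : B₀.Nonempty)
    (hn : 1 ≤ n) (ε ρ : ℝ) (hε : 0 < ε) (hρ : 0 < ρ) (hρ1 : ρ < 1)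
    (hθ : ρ * lam + ε ≤ 1 / 1152)
    (hbad : S2 A₀ B₀ (fun x y => if (a x ∩ b y).card = lam then 0 else 1) ≤
      ε * ((A₀.card : ℝ) * B₀.card)) :
    ∃ A ⊆ A₀, ∃ B ⊆ B₀,
      3 / 4 * Real.exp (-(9216 * √(ρ * n * (ρ * lam + ε)))) * ((A₀.card : ℝ) * B₀.card) ≤
        (A.card : ℝ) * B.card ∧
      S2 A B (fun x y => if (a x ∩ b y).card = lam then 0 else
        1 / (1 - ρ) ^ (a x ∩ b y).card) ≤ 12 * ε * ((A.card : ℝ) * B.card) := by
  have hα : (0 : ℝ) < A₀.card := by exact_mod_cast hA₀.card_pos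
  have hβ : (0 : ℝ) < B₀.card := by exact_mod_cast hB₀.card_pos
  have hM : (0 : ℝ) < (A₀.card : ℝ) * B₀.card := mul_pos hα hβ
  have hn' : (0 : ℝ) < n := by exact_mod_cast hn
  have hq : 0 < 1 - ρ := by linarith
  set θ : ℝ := ρ * lam + ε with hθdef
  have hθ0 : 0 < θ := by
    have : 0 ≤ ρ * lam := by positivity
    linarith
  set aT : Finset (Fin n) → X → Finset (Fin n) := fun T x => a x ∩ T with haT
  set f : Finset (Fin n) → X → Y → ℝ := fun T x y =>
    if (a x ∩ b y).card = lam then 0 else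
      (if Disjoint (a x ∩ b y) T then 1 / (1 - ρ) ^ (a x ∩ b y).card else 0) with hf
  have hf0 : ∀ T x y, 0 ≤ f T x y := by
    intro T x y
    simp only [hf]
    split_ifs
    · exact le_refl _
    · positivity
    · exact le_refl _
  have hbad' : av A₀ B₀ (fun x y => if (a x ∩ b y).card = lam then 0 else 1) ≤ ε := by
    unfold av
    rw [div_le_iff₀ hM]
    exact hbad
  -- averages over `T`
  have hEW : ∑ T ∈ (univ : Finset (Fin n)).powerset, wr ρ T * av A₀ B₀ (wd (aT T) b) ≤ θ := by
    rw [sum_av]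
    have h1 : ∀ x ∈ A₀, ∀ y ∈ B₀,
        ∑ T ∈ (univ : Finset (Fin n)).powerset, wr ρ T * wd (aT T) b x y ≤
          ρ * lam + (if (a x ∩ b y).card = lam then 0 else 1) := by
      intro x _ y _
      have h2 : ∀ T : Finset (Fin n), wr ρ T * wd (aT T) b x y =
          wr ρ T - (if Disjoint (a x ∩ b y) T then wr ρ T else 0) := by
        intro T
        unfold wd
        simp only [haT]
        have h3 : a x ∩ T ∩ b y = (a x ∩ b y) ∩ T := by
          ext e; simp only [Finset.mem_inter]; tauto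
        rw [h3]
        by_cases h4 : Disjoint (a x ∩ b y) T
        · rw [if_pos h4, if_neg, mul_zero, sub_self]
          rw [Finset.not_nonempty_iff_eq_empty]
          exact Finset.disjoint_iff_inter_eq_empty.mp h4
        · rw [if_neg h4, if_pos, mul_one, sub_zero]
          rw [Finset.nonempty_iff_ne_empty]
          intro h5
          exact h4 (Finset.disjoint_iff_inter_eq_empty.mpr h5)
      simp_rw [h2]
      rw [Finset.sum_sub_distrib, sum_wr, sum_wr_disj]
      split_ifs with h6
      · rw [h6]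
        have h7 := one_add_mul_le_pow (a := -ρ) (by linarith) lam
        have h8 : (1 + -ρ) ^ lam = (1 - ρ) ^ lam := by ring
        rw [h8] at h7
        linarith
      · have h7 : 0 ≤ (1 - ρ) ^ (a x ∩ b y).card := by positivity
        have h8 : 0 ≤ ρ * lam := by positivity
        linarith
    calc av A₀ B₀ (fun x y => ∑ T ∈ (univ : Finset (Fin n)).powerset,
          wr ρ T * wd (aT T) b x y)
        ≤ av A₀ B₀ (fun x y => ρ * lam + (if (a x ∩ b y).card = lam then 0 else 1)) :=
          av_mono h1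
      _ = ρ * lam + av A₀ B₀ (fun x y => if (a x ∩ b y).card = lam then 0 else 1) := by
          rw [av_add]
          congr 1
          unfold av S2
          simp only [Finset.sum_const, nsmul_eq_mul]
          field_simp
      _ ≤ θ := by linarith
  have hEF : ∑ T ∈ (univ : Finset (Fin n)).powerset, wr ρ T * av A₀ B₀ (f T) ≤ ε := by
    rw [sum_av]
    refine le_trans (av_mono ?_) hbad'
    intro x _ y _
    simp only [hf]
    split_ifs with h1
    · simp
    · apply le_of_eq
      have h2 : ∀ T : Finset (Fin n), wr ρ T *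
          (if Disjoint (a x ∩ b y) T then 1 / (1 - ρ) ^ (a x ∩ b y).card else 0) =
          1 / (1 - ρ) ^ (a x ∩ b y).card * (if Disjoint (a x ∩ b y) T then wr ρ T else 0) := by
        intro T
        split_ifs <;> ring
      simp_rw [h2]
      rw [← Finset.mul_sum, sum_wr_disj]
      have h3 : (1 - ρ) ^ (a x ∩ b y).card ≠ 0 := by positivity
      field_simp
  -- choice of `T`
  obtain ⟨T, hT⟩ := exists_le_wr hρ hρ1
    (fun T : Finset (Fin n) => av A₀ B₀ (wd (aT T) b) / (4 * θ) + (T.card : ℝ) / (4 * (n * ρ)) +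
      av A₀ B₀ (f T) / (4 * ε)) (3 / 4) (by
        have h1 : ∀ T : Finset (Fin n), wr ρ T * (av A₀ B₀ (wd (aT T) b) / (4 * θ) +
            (T.card : ℝ) / (4 * (n * ρ)) + av A₀ B₀ (f T) / (4 * ε)) =
            wr ρ T * av A₀ B₀ (wd (aT T) b) / (4 * θ) + wr ρ T * (T.card : ℝ) / (4 * (n * ρ)) +
            wr ρ T * av A₀ B₀ (f T) / (4 * ε) := by
          intro T; ring
        simp_rw [h1]
        rw [Finset.sum_add_distrib, Finset.sum_add_distrib, ← Finset.sum_div, ← Finset.sum_div,
          ← Finset.sum_div, sum_wr_card]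
        have h2 : (∑ T ∈ (univ : Finset (Fin n)).powerset, wr ρ T * av A₀ B₀ (wd (aT T) b)) /
            (4 * θ) ≤ 1 / 4 := by
          rw [div_le_iff₀ (by positivity)]
          linarith
        have h3 : (n : ℝ) * ρ / (4 * (n * ρ)) ≤ 1 / 4 := by
          rw [div_le_iff₀ (by positivity)]
          linarith
        have h4 : (∑ T ∈ (univ : Finset (Fin n)).powerset, wr ρ T * av A₀ B₀ (f T)) /
            (4 * ε) ≤ 1 / 4 := by
          rw [div_le_iff₀ (by positivity)]
          linarith
        linarith)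
  have hW0 : 0 ≤ av A₀ B₀ (wd (aT T) b) := av_nonneg fun x _ y _ => wd_nonneg _ _ x y
  have hF0 : 0 ≤ av A₀ B₀ (f T) := av_nonneg fun x _ y _ => hf0 T x y
  have t1 : 0 ≤ av A₀ B₀ (wd (aT T) b) / (4 * θ) := by positivity
  have t2 : 0 ≤ (T.card : ℝ) / (4 * (n * ρ)) := by positivity
  have t3 : 0 ≤ av A₀ B₀ (f T) / (4 * ε) := by positivity
  have hWT : av A₀ B₀ (wd (aT T) b) ≤ 3 * θ := by
    have h1 : av A₀ B₀ (wd (aT T) b) / (4 * θ) ≤ 3 / 4 := by linarith
    rw [div_le_iff₀ (by positivity)] at h1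
    linarith
  have hcT : (T.card : ℝ) ≤ 3 * (n * ρ) := by
    have h1 : (T.card : ℝ) / (4 * (n * ρ)) ≤ 3 / 4 := by linarith
    rw [div_le_iff₀ (by positivity)] at h1
    linarith
  have hFT : av A₀ B₀ (f T) ≤ 3 * ε := by
    have h1 : av A₀ B₀ (f T) / (4 * ε) ≤ 3 / 4 := by linarith
    rw [div_le_iff₀ (by positivity)] at h1
    linarith
  -- the potential
  have hPh : Ph (aT T) b A₀ B₀ ≤ 3 * √(ρ * n * θ) := by
    set s : ℝ := √(θ / (ρ * n)) with hs
    have hs0 : 0 < s := Real.sqrt_pos.mpr (by positivity)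
    have hss : s * s = θ / (ρ * n) := Real.mul_self_sqrt (by positivity)
    have h1 := Ph_le (aT T) b A₀ B₀ T (fun x _ => Finset.inter_subset_right) (wd (aT T) b)
      (fun x _ y _ hne => by
        unfold wd
        rw [if_pos hne, div_le_one (by exact_mod_cast hne.card_pos)]
        exact_mod_cast hne.card_pos)
      (fun x _ y _ => wd_nonneg _ _ x y) s hs0
    have h2 : √(ρ * n * θ) = s * (ρ * n) := by
      rw [Real.sqrt_eq_iff_mul_self_eq (by positivity) (by positivity)]
      have : s * (ρ * n) * (s * (ρ * n)) = (s * s) * ((ρ * n) * (ρ * n)) := by ring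
      rw [this, hss]
      field_simp
    have h3 : θ / s = s * (ρ * n) := by
      rw [div_eq_iff hs0.ne']
      have : s * (ρ * n) * s = (s * s) * (ρ * n) := by ring
      rw [this, hss]
      field_simp
    have h4 : av A₀ B₀ (wd (aT T) b) / s ≤ 3 * (θ / s) := by
      rw [← mul_div_assoc]
      exact div_le_div_of_nonneg_right hWT hs0.le
    have h5 : s * (T.card : ℝ) ≤ s * (3 * (n * ρ)) := mul_le_mul_of_nonneg_left hcT hs0.le
    rw [h2]
    rw [h3] at h4
    linarith
  obtain ⟨A, hA, B, hB, hdisj, hbig, hside⟩ := rot (aT T) b (f T) A₀ B₀ hA₀ hB₀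
    (fun x _ y _ => hf0 T x y) (hWT.trans (by linarith))
  refine ⟨A, hA, B, hB, ?_, ?_⟩
  · refine le_trans ?_ hbig
    apply mul_le_mul_of_nonneg_right _ hM.le
    apply mul_le_mul_of_nonneg_left _ (by norm_num)
    apply Real.exp_le_exp.mpr
    linarith
  · have h1 : S2 A B (fun x y => if (a x ∩ b y).card = lam then 0 else
        1 / (1 - ρ) ^ (a x ∩ b y).card) = S2 A B (f T) := by
      unfold S2
      apply Finset.sum_congr rfl
      intro x hx
      apply Finset.sum_congr rfl
      intro y hy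
      simp only [hf]
      have h2 : Disjoint (a x ∩ b y) T := by
        rw [Finset.disjoint_left]
        intro e he heT
        apply hdisj x hx y hy
        refine ⟨e, ?_⟩
        simp only [haT, Finset.mem_inter] at he ⊢
        exact ⟨⟨he.1, heT⟩, he.2⟩
      rw [if_pos h2]
    rw [h1]
    refine hside.trans ?_
    apply mul_le_mul_of_nonneg_right _ (by positivity)
    linarith

end Pool.Agent.LIS
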