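import Mathlib

/-!
MP_132c09_co: the refined one-sided theorem.
Averages over rectangles and the two potentials.
-/

namespace Pool.Agent.LIS

open Finset

variable {X Y : Type}

/-- sum of `g` over a rectangle -/
noncomputable def S2 (A : Finset X) (B : Finset Y) (g : X → Y → ℝ) : ℝ :=
  ∑ x ∈ A, ∑ y ∈ B, g x y

/-- average of `g` over a rectangle -/
noncomputable def av (A : Finset X) (B : Finset Y) (g : X → Y → ℝ) : ℝ :=
  S2 A B g / ((A.card : ℝ) * B.card)

lemma S2_nonneg {A : Finset X} {B : Finset Y} {g : X → Y → ℝ} (h : ∀ x ∈ A, ∀ y ∈ B, 0 ≤ g x y) :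
    0 ≤ S2 A B g :=
  Finset.sum_nonneg fun x hx => Finset.sum_nonneg fun y hy => h x hx y hy

lemma av_nonneg {A : Finset X} {B : Finset Y} {g : X → Y → ℝ} (h : ∀ x ∈ A, ∀ y ∈ B, 0 ≤ g x y) :
    0 ≤ av A B g := div_nonneg (S2_nonneg h) (by positivity)

lemma card_mul_av (A : Finset X) (B : Finset Y) (g : X → Y → ℝ) :
    ((A.card : ℝ) * B.card) * av A B g = S2 A B g := by
  unfold av
  rcases A.eq_empty_or_nonempty with h | h
  · simp [h, S2]
  rcases B.eq_empty_or_nonempty with h' | h'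
  · simp [h', S2]
  have hA : (0 : ℝ) < A.card := by exact_mod_cast h.card_pos
  have hB : (0 : ℝ) < B.card := by exact_mod_cast h'.card_pos
  field_simp

lemma S2_mono {A A' : Finset X} {B B' : Finset Y} {g : X → Y → ℝ} (hA : A ⊆ A') (hB : B ⊆ B')
    (h : ∀ x ∈ A', ∀ y ∈ B', 0 ≤ g x y) : S2 A B g ≤ S2 A' B' g := by
  unfold S2
  calc ∑ x ∈ A, ∑ y ∈ B, g x y ≤ ∑ x ∈ A, ∑ y ∈ B', g x y :=
        Finset.sum_le_sum fun x hx =>
          Finset.sum_le_sum_of_subset_of_nonneg hB fun y hy _ => h x (hA hx) y hy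
    _ ≤ ∑ x ∈ A', ∑ y ∈ B', g x y :=
        Finset.sum_le_sum_of_subset_of_nonneg hA fun x hx _ =>
          Finset.sum_nonneg fun y hy => h x hx y hy

open scoped Classical in
lemma S2_split {A A' : Finset X} {B B' : Finset Y} (hA : A' ⊆ A) (hB : B' ⊆ B) (g : X → Y → ℝ) :
    S2 A B g = S2 A' B' g + S2 (A \ A') B g + S2 A' (B \ B') g := by
  unfold S2
  rw [← Finset.sum_sdiff hA]
  have h : ∑ x ∈ A', ∑ y ∈ B, g x y = ∑ x ∈ A', ∑ y ∈ B', g x y + ∑ x ∈ A', ∑ y ∈ B \ B', g x y := by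
    rw [← Finset.sum_add_distrib]
    apply Finset.sum_congr rfl
    intro x _
    rw [add_comm, Finset.sum_sdiff hB]
  rw [h]
  ring

lemma S2_add (A : Finset X) (B : Finset Y) (g h : X → Y → ℝ) :
    S2 A B (fun x y => g x y + h x y) = S2 A B g + S2 A B h := by
  unfold S2
  rw [← Finset.sum_add_distrib]
  apply Finset.sum_congr rfl
  intro x _
  rw [← Finset.sum_add_distrib]

lemma S2_smul (A : Finset X) (B : Finset Y) (c : ℝ) (g : X → Y → ℝ) :
    S2 A B (fun x y => c * g x y) = c * S2 A B g := by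
  unfold S2
  rw [Finset.mul_sum]
  apply Finset.sum_congr rfl
  intro x _
  rw [Finset.mul_sum]

lemma av_add (A : Finset X) (B : Finset Y) (g h : X → Y → ℝ) :
    av A B (fun x y => g x y + h x y) = av A B g + av A B h := by
  unfold av
  rw [S2_add, add_div]

lemma av_smul (A : Finset X) (B : Finset Y) (c : ℝ) (g : X → Y → ℝ) :
    av A B (fun x y => c * g x y) = c * av A B g := by
  unfold av
  rw [S2_smul, mul_div_assoc]

/-- Cauchy-Schwarz with three weights -/
lemma cs3 {w₁ w₂ w₃ X₁ X₂ X₃ : ℝ} (h₁ : 0 ≤ w₁) (h₂ : 0 ≤ w₂) (h₃ : 0 ≤ w₃) (x₁ : 0 ≤ X₁)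
    (x₂ : 0 ≤ X₂) (x₃ : 0 ≤ X₃) :
    w₁ * √X₁ + w₂ * √X₂ + w₃ * √X₃ ≤ √((w₁ + w₂ + w₃) * (w₁ * X₁ + w₂ * X₂ + w₃ * X₃)) := by
  apply Real.le_sqrt_of_sq_le
  have e₁ : √X₁ * √X₁ = X₁ := Real.mul_self_sqrt x₁
  have e₂ : √X₂ * √X₂ = X₂ := Real.mul_self_sqrt x₂
  have e₃ : √X₃ * √X₃ = X₃ := Real.mul_self_sqrt x₃
  set a := √X₁
  set b := √X₂
  set c := √X₃
  rw [← e₁, ← e₂, ← e₃]
  nlinarith [mul_nonneg (mul_nonneg h₁ h₂) (sq_nonneg (a - b)),
    mul_nonneg (mul_nonneg h₁ h₃) (sq_nonneg (a - c)),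
    mul_nonneg (mul_nonneg h₂ h₃) (sq_nonneg (b - c))]

variable {n : ℕ} (a : X → Finset (Fin n)) (b : Y → Finset (Fin n))

/-- the weight of the element `e` at the pair `(x, y)` -/
noncomputable def xe (e : Fin n) (x : X) (y : Y) : ℝ :=
  if e ∈ a x ∩ b y then 1 / ((a x ∩ b y).card : ℝ) ^ 2 else 0

/-- indicator of a conflict -/
noncomputable def wd (x : X) (y : Y) : ℝ := if (a x ∩ b y).Nonempty then 1 else 0

lemma xe_nonneg (e : Fin n) (x : X) (y : Y) : 0 ≤ xe a b e x y := by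
  unfold xe
  split_ifs
  · positivity
  · exact le_refl _

lemma wd_nonneg (x : X) (y : Y) : 0 ≤ wd a b x y := by
  unfold wd
  split_ifs
  · norm_num
  · exact le_refl _

lemma wd_le_one (x : X) (y : Y) : wd a b x y ≤ 1 := by
  unfold wd
  split_ifs
  · exact le_refl _
  · norm_num

/-- the potential -/
noncomputable def Ph (A : Finset X) (B : Finset Y) : ℝ := ∑ e, √(av A B (xe a b e))

lemma Ph_nonneg (A : Finset X) (B : Finset Y) : 0 ≤ Ph a b A B :=
  Finset.sum_nonneg fun _ _ => Real.sqrt_nonneg _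

/-- the potential with a side functional -/
noncomputable def Gf (h : X → Y → ℝ) (A : Finset X) (B : Finset Y) : ℝ :=
  Ph a b A B + av A B h

/-- `e` does not occur in any intersection of the rectangle -/
def Inact (A : Finset X) (B : Finset Y) (e : Fin n) : Prop :=
  ∀ x ∈ A, ∀ y ∈ B, e ∉ a x ∩ b y

open scoped Classical in
/-- the part of the potential of `As × Bs` that is destroyed in `A × B` -/
noncomputable def Pt (As : Finset X) (Bs : Finset Y) (A : Finset X) (B : Finset Y) : ℝ :=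
  ∑ e, if Inact a b A B e then √(av As Bs (xe a b e)) else 0

lemma Inact.mono {a : X → Finset (Fin n)} {b : Y → Finset (Fin n)} {A A' : Finset X}
    {B B' : Finset Y} {e : Fin n} (h : Inact a b A B e) (hA : A' ⊆ A) (hB : B' ⊆ B) :
    Inact a b A' B' e := fun x hx y hy => h x (hA hx) y (hB hy)

lemma Inact.av_eq_zero {a : X → Finset (Fin n)} {b : Y → Finset (Fin n)} {A : Finset X}
    {B : Finset Y} {e : Fin n} (h : Inact a b A B e) : av A B (xe a b e) = 0 := by
  unfold av S2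
  rw [Finset.sum_eq_zero, zero_div]
  intro x hx
  apply Finset.sum_eq_zero
  intro y hy
  unfold xe
  exact if_neg (h x hx y hy)

lemma Pt_nonneg (As : Finset X) (Bs : Finset Y) (A : Finset X) (B : Finset Y) :
    0 ≤ Pt a b As Bs A B := by
  unfold Pt
  apply Finset.sum_nonneg
  intro e _
  split_ifs
  · exact Real.sqrt_nonneg _
  · exact le_refl _

/-- gain of the potential -/
theorem gain (h : X → Y → ℝ) (C : ℝ) (As : Finset X) (Bs : Finset Y)
    (hAs : As.Nonempty) (hBs : Bs.Nonempty)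
    (hE : ∀ A ⊆ As, ∀ B ⊆ Bs,
      ((A.card : ℝ) * B.card) * Real.exp (-(C * Gf a b h A B)) ≤
        ((As.card : ℝ) * Bs.card) * Real.exp (-(C * Gf a b h As Bs)))
    (A : Finset X) (hA : A ⊆ As) (B : Finset Y) (hB : B ⊆ Bs) (hC : 0 ≤ C) :
    C * (((A.card : ℝ) * B.card) * Pt a b As Bs A B) ≤ 4 * ((As.card : ℝ) * Bs.card) := by
  classical
  have hα : (0 : ℝ) < As.card := by exact_mod_cast hAs.card_pos
  have hβ : (0 : ℝ) < Bs.card := by exact_mod_cast hBs.card_pos
  set M : ℝ := (As.card : ℝ) * Bs.card with hM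
  have hM0 : 0 < M := mul_pos hα hβ
  -- extremality in the form `w * C * (G - G') ≤ 1 - w`
  have hE' : ∀ A ⊆ As, ∀ B ⊆ Bs, ((A.card : ℝ) * B.card) *
      (C * (Gf a b h As Bs - Gf a b h A B)) ≤ M - (A.card : ℝ) * B.card := by
    intro A hA B hB
    have h1 := hE A hA B hB
    have h2 : ((A.card : ℝ) * B.card) * Real.exp (C * (Gf a b h As Bs - Gf a b h A B)) ≤ M := by
      have h3 := mul_le_mul_of_nonneg_right h1 (Real.exp_pos (C * Gf a b h As Bs)).le
      have hexp : ∀ t u v : ℝ, t * Real.exp u * Real.exp v = t * Real.exp (u + v) := by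
        intro t u v
        rw [mul_assoc, ← Real.exp_add]
      rw [hexp, hexp] at h3
      have e1 : -(C * Gf a b h A B) + C * Gf a b h As Bs =
          C * (Gf a b h As Bs - Gf a b h A B) := by ring
      have e2 : -(C * Gf a b h As Bs) + C * Gf a b h As Bs = 0 := by ring
      rw [e1, e2, Real.exp_zero, mul_one] at h3
      exact h3
    have h3 : ((A.card : ℝ) * B.card) * (C * (Gf a b h As Bs - Gf a b h A B) + 1) ≤
        ((A.card : ℝ) * B.card) * Real.exp (C * (Gf a b h As Bs - Gf a b h A B)) :=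
      mul_le_mul_of_nonneg_left (Real.add_one_le_exp _) (by positivity)
    linarith
  -- the three pieces
  have c1 : ((As \ A).card : ℝ) = As.card - A.card := by
    rw [Finset.card_sdiff_of_subset hA, Nat.cast_sub (Finset.card_le_card hA)]
  have c2 : ((Bs \ B).card : ℝ) = Bs.card - B.card := by
    rw [Finset.card_sdiff_of_subset hB, Nat.cast_sub (Finset.card_le_card hB)]
  set w₁ : ℝ := (A.card : ℝ) * B.card with hw₁
  set w₂ : ℝ := ((As \ A).card : ℝ) * Bs.card with hw₂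
  set w₃ : ℝ := (A.card : ℝ) * (Bs \ B).card with hw₃
  have w₁0 : 0 ≤ w₁ := by positivity
  have w₂0 : 0 ≤ w₂ := by positivity
  have w₃0 : 0 ≤ w₃ := by positivity
  have hsum : w₁ + w₂ + w₃ = M := by
    rw [hw₁, hw₂, hw₃, hM, c1, c2]; ring
  have E1 := hE' A hA B hB
  have E2 := hE' (As \ A) Finset.sdiff_subset Bs subset_rfl
  have E3 := hE' A hA (Bs \ B) Finset.sdiff_subset
  -- concavity
  have hconc : w₁ * Ph a b A B + w₂ * Ph a b (As \ A) Bs + w₃ * Ph a b A (Bs \ B) ≤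
      M * Ph a b As Bs - w₁ / 2 * Pt a b As Bs A B := by
    unfold Ph Pt
    rw [Finset.mul_sum, Finset.mul_sum, Finset.mul_sum, Finset.mul_sum, Finset.mul_sum,
      ← Finset.sum_add_distrib, ← Finset.sum_add_distrib, ← Finset.sum_sub_distrib]
    apply Finset.sum_le_sum
    intro e _
    have x₁ : 0 ≤ av A B (xe a b e) := av_nonneg fun x _ y _ => xe_nonneg a b e x y
    have x₂ : 0 ≤ av (As \ A) Bs (xe a b e) := av_nonneg fun x _ y _ => xe_nonneg a b e x y
    have x₃ : 0 ≤ av A (Bs \ B) (xe a b e) := av_nonneg fun x _ y _ => xe_nonneg a b e x y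
    have x₀ : 0 ≤ av As Bs (xe a b e) := av_nonneg fun x _ y _ => xe_nonneg a b e x y
    have hdec : w₁ * av A B (xe a b e) + w₂ * av (As \ A) Bs (xe a b e) +
        w₃ * av A (Bs \ B) (xe a b e) = M * av As Bs (xe a b e) := by
      rw [hw₁, hw₂, hw₃, hM, card_mul_av, card_mul_av, card_mul_av, card_mul_av,
        ← S2_split hA hB]
    split_ifs with hin
    · have hz : av A B (xe a b e) = 0 := hin.av_eq_zero
      rw [hz] at hdec ⊢
      rw [Real.sqrt_zero, mul_zero, zero_add]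
      rw [mul_zero, zero_add] at hdec
      have h1 := cs3 (w₁ := 0) (X₁ := 0) le_rfl w₂0 w₃0 le_rfl x₂ x₃
      simp only [zero_mul, zero_add] at h1
      rw [hdec] at h1
      refine h1.trans ?_
      have h2 : √((w₂ + w₃) * (M * av As Bs (xe a b e))) =
          √((w₂ + w₃) * M) * √(av As Bs (xe a b e)) := by
        rw [← mul_assoc, Real.sqrt_mul (by positivity)]
      rw [h2]
      have h3 : √((w₂ + w₃) * M) ≤ M - w₁ / 2 := by
        rw [show M - w₁ / 2 = √((M - w₁ / 2) ^ 2) from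
          (Real.sqrt_sq (by nlinarith)).symm]
        apply Real.sqrt_le_sqrt
        have h4 : w₂ + w₃ = M - w₁ := by linarith
        rw [h4]
        nlinarith [sq_nonneg w₁]
      have h5 := mul_le_mul_of_nonneg_right h3 (Real.sqrt_nonneg (av As Bs (xe a b e)))
      linarith
    · have h1 := cs3 w₁0 w₂0 w₃0 x₁ x₂ x₃
      rw [hdec, hsum] at h1
      rw [mul_zero, sub_zero]
      refine h1.trans ?_
      have h2 : √(M * (M * av As Bs (xe a b e))) = M * √(av As Bs (xe a b e)) := by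
        rw [← mul_assoc, Real.sqrt_mul (by positivity), Real.sqrt_mul_self hM0.le]
      rw [h2]
  have hlin : w₁ * av A B h + w₂ * av (As \ A) Bs h + w₃ * av A (Bs \ B) h =
      M * av As Bs h := by
    rw [hw₁, hw₂, hw₃, hM, card_mul_av, card_mul_av, card_mul_av, card_mul_av, ← S2_split hA hB]
  have hG : w₁ * Gf a b h A B + w₂ * Gf a b h (As \ A) Bs + w₃ * Gf a b h A (Bs \ B) ≤
      M * Gf a b h As Bs - w₁ / 2 * Pt a b As Bs A B := by
    unfold Gf
    nlinarith [hconc, hlin]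
  have hG' := mul_le_mul_of_nonneg_left hG hC
  have hfin : C * (w₁ / 2 * Pt a b As Bs A B) ≤ 2 * M := by
    have e1 : w₁ * (C * (Gf a b h As Bs - Gf a b h A B)) +
        w₂ * (C * (Gf a b h As Bs - Gf a b h (As \ A) Bs)) +
        w₃ * (C * (Gf a b h As Bs - Gf a b h A (Bs \ B))) =
        C * (M * Gf a b h As Bs) - C * (w₁ * Gf a b h A B + w₂ * Gf a b h (As \ A) Bs +
          w₃ * Gf a b h A (Bs \ B)) := by
      rw [← hsum]; ring
    have e2 : (M - w₁) + (M - w₂) + (M - w₃) = 2 * M := by linarith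
    have e3 : C * (M * Gf a b h As Bs - w₁ / 2 * Pt a b As Bs A B) =
        C * (M * Gf a b h As Bs) - C * (w₁ / 2 * Pt a b As Bs A B) := by ring
    linarith
  linarith

end Pool.Agent.LIS
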