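import Pool.Agent.LIS.Rot0

/-!
MP_132c09_co: the refined one-sided theorem.
Second level: the maximal rectangle inside an extremal rectangle has no conflicts.
-/

namespace Pool.Agent.LIS

open Finset

/-- the algebra of one half step -/
lemma half_sum {X Y : Type} (A : Finset X) (B : Finset Y) (c : X → Y → ℝ)
    (hB : B.Nonempty) (W : ℝ)
    (hW : W * ((A.card : ℝ) * B.card) = ∑ x ∈ A, ∑ y ∈ B, c x y) (δ : Y → ℝ) (κ Γ : ℝ)
    (h : ∀ y ∈ B, κ * (((A.card : ℝ) - ∑ x ∈ A, c x y) * δ y) -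
      Γ * ((∑ x ∈ A, (1 - c x y) * ∑ y' ∈ B, c x y') / B.card -
        W * ((A.card : ℝ) - ∑ x ∈ A, c x y)) ≤ ∑ x ∈ A, c x y) :
    κ * (∑ y ∈ B, ((A.card : ℝ) - ∑ x ∈ A, c x y) * δ y) +
      Γ * ((∑ x ∈ A, (∑ y ∈ B, c x y) ^ 2) / B.card - (A.card : ℝ) * B.card * W ^ 2) ≤
      (A.card : ℝ) * B.card * W := by
  have hβ : (0 : ℝ) < B.card := by exact_mod_cast hB.card_pos
  have h1 := Finset.sum_le_sum h
  have hcomm : ∑ y ∈ B, ∑ x ∈ A, c x y = W * ((A.card : ℝ) * B.card) := by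
    rw [hW, Finset.sum_comm]
  have h2 : ∑ y ∈ B, (κ * (((A.card : ℝ) - ∑ x ∈ A, c x y) * δ y) -
      Γ * ((∑ x ∈ A, (1 - c x y) * ∑ y' ∈ B, c x y') / B.card -
        W * ((A.card : ℝ) - ∑ x ∈ A, c x y))) =
      κ * (∑ y ∈ B, ((A.card : ℝ) - ∑ x ∈ A, c x y) * δ y) -
      Γ * ((∑ y ∈ B, ∑ x ∈ A, (1 - c x y) * ∑ y' ∈ B, c x y') / B.card -
        W * ((A.card : ℝ) * B.card - W * ((A.card : ℝ) * B.card))) := by
    rw [Finset.sum_sub_distrib, ← Finset.mul_sum, ← Finset.mul_sum, Finset.sum_sub_distrib,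
      ← Finset.sum_div, ← Finset.mul_sum, Finset.sum_sub_distrib, hcomm]
    simp only [Finset.sum_const, nsmul_eq_mul]
    ring
  have h3 : ∑ y ∈ B, ∑ x ∈ A, (1 - c x y) * ∑ y' ∈ B, c x y' =
      (B.card : ℝ) * (W * ((A.card : ℝ) * B.card)) - ∑ x ∈ A, (∑ y ∈ B, c x y) ^ 2 := by
    rw [Finset.sum_comm, hW, Finset.mul_sum, ← Finset.sum_sub_distrib]
    apply Finset.sum_congr rfl
    intro x _
    rw [← Finset.sum_mul, Finset.sum_sub_distrib]
    simp only [Finset.sum_const, nsmul_eq_mul, mul_one]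
    ring
  rw [h2, h3, hcomm] at h1
  have h4 : ((B.card : ℝ) * (W * ((A.card : ℝ) * B.card)) - ∑ x ∈ A, (∑ y ∈ B, c x y) ^ 2) /
      B.card = W * ((A.card : ℝ) * B.card) - (∑ x ∈ A, (∑ y ∈ B, c x y) ^ 2) / B.card := by
    field_simp
  rw [h4] at h1
  nlinarith [h1]

/-- rows with many conflicts -/
lemma bad_sum {X Y : Type} (A : Finset X) (B : Finset Y) (c : X → Y → ℝ)
    (hc0 : ∀ x y, 0 ≤ c x y) (hB : B.Nonempty) :
    (∑ x ∈ A with ¬ 2 * ∑ y ∈ B, c x y ≤ B.card, ∑ y ∈ B, c x y) ≤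
      2 * ((∑ x ∈ A, (∑ y ∈ B, c x y) ^ 2) / B.card) := by
  classical
  have hβ : (0 : ℝ) < B.card := by exact_mod_cast hB.card_pos
  rw [← mul_div_assoc, Finset.mul_sum, Finset.sum_div]
  calc ∑ x ∈ A with ¬ 2 * ∑ y ∈ B, c x y ≤ B.card, ∑ y ∈ B, c x y
      ≤ ∑ x ∈ A with ¬ 2 * ∑ y ∈ B, c x y ≤ B.card, 2 * (∑ y ∈ B, c x y) ^ 2 / B.card := by
        apply Finset.sum_le_sum
        intro x hx
        have h1 := (Finset.mem_filter.mp hx).2
        rw [not_le] at h1
        have h2 : 0 ≤ ∑ y ∈ B, c x y := Finset.sum_nonneg fun y _ => hc0 x y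
        rw [le_div_iff₀ hβ]
        nlinarith
    _ ≤ ∑ x ∈ A, 2 * (∑ y ∈ B, c x y) ^ 2 / B.card := by
        apply Finset.sum_le_sum_of_subset_of_nonneg (Finset.filter_subset _ _)
        intro x _ _
        positivity

variable {X Y : Type} {n : ℕ} (a : X → Finset (Fin n)) (b : Y → Finset (Fin n))

lemma wd_sq (x : X) (y : Y) : wd a b x y * wd a b x y = wd a b x y := by
  unfold wd
  split_ifs <;> norm_num

lemma wd_eq_sum (x : X) (y : Y) :
    wd a b x y = ∑ e, if e ∈ a x ∩ b y then 1 / ((a x ∩ b y).card : ℝ) else 0 := by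
  unfold wd
  rw [← Finset.sum_filter, Finset.sum_const, nsmul_eq_mul]
  have h1 : (Finset.univ.filter fun e => e ∈ a x ∩ b y) = a x ∩ b y := by
    ext e; simp
  rw [h1]
  split_ifs with h
  · have h2 : (0 : ℝ) < (a x ∩ b y).card := by exact_mod_cast h.card_pos
    field_simp
  · rw [Finset.not_nonempty_iff_eq_empty] at h
    simp [h]

open scoped Classical in
/-- Cauchy-Schwarz for the number of conflicts -/
lemma conflicts_le (As : Finset X) (Bs : Finset Y) (A : Finset X) (B : Finset Y)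
    (hA : A ⊆ As) (hB : B ⊆ Bs) (Ag : Finset X) (Bg : Finset Y) (hAg : Ag ⊆ A) (hBg : Bg ⊆ B) :
    S2 Ag Bg (wd a b) ≤ √((As.card : ℝ) * Bs.card) *
      ∑ e, (if Inact a b A B e then 0 else √(av As Bs (xe a b e))) *
        √(((Ag.filter fun x => e ∈ a x).card : ℝ) * ((Bg.filter fun y => e ∈ b y).card : ℝ)) := by
  have h1 : S2 Ag Bg (wd a b) =
      ∑ e, ∑ x ∈ Ag, ∑ y ∈ Bg, if e ∈ a x ∩ b y then 1 / ((a x ∩ b y).card : ℝ) else 0 := by
    unfold S2
    simp only [wd_eq_sum a b]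
    rw [Finset.sum_comm (s := Finset.univ) (t := Ag)]
    apply Finset.sum_congr rfl
    intro x _
    rw [Finset.sum_comm]
  rw [h1, Finset.mul_sum]
  apply Finset.sum_le_sum
  intro e _
  split_ifs with hin
  · rw [zero_mul, mul_zero]
    apply le_of_eq
    apply Finset.sum_eq_zero
    intro x hx
    apply Finset.sum_eq_zero
    intro y hy
    exact if_neg (hin x (hAg hx) y (hBg hy))
  · set f : X × Y → ℝ := fun p => if e ∈ a p.1 ∧ e ∈ b p.2 then 1 else 0 with hf
    set g : X × Y → ℝ := fun p =>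
      if e ∈ a p.1 ∩ b p.2 then 1 / ((a p.1 ∩ b p.2).card : ℝ) else 0 with hg
    have hcs := Real.sum_mul_le_sqrt_mul_sqrt (Ag ×ˢ Bg) f g
    have e1 : ∑ p ∈ Ag ×ˢ Bg, f p * g p =
        ∑ x ∈ Ag, ∑ y ∈ Bg, if e ∈ a x ∩ b y then 1 / ((a x ∩ b y).card : ℝ) else 0 := by
      rw [Finset.sum_product]
      apply Finset.sum_congr rfl
      intro x _
      apply Finset.sum_congr rfl
      intro y _
      simp only [hf, hg, Finset.mem_inter]
      split_ifs <;> simp
    have e2 : ∑ p ∈ Ag ×ˢ Bg, f p ^ 2 =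
        ((Ag.filter fun x => e ∈ a x).card : ℝ) * ((Bg.filter fun y => e ∈ b y).card : ℝ) := by
      rw [Finset.sum_product, ← Finset.sum_boole, ← Finset.sum_boole, Finset.sum_mul_sum]
      apply Finset.sum_congr rfl
      intro x _
      apply Finset.sum_congr rfl
      intro y _
      simp only [hf]
      by_cases h1 : e ∈ a x <;> by_cases h2 : e ∈ b y <;> simp [h1, h2]
    have e3 : ∑ p ∈ Ag ×ˢ Bg, g p ^ 2 ≤
        ((As.card : ℝ) * Bs.card) * av As Bs (xe a b e) := by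
      rw [card_mul_av]
      refine le_trans (le_of_eq ?_) (S2_mono (hAg.trans hA) (hBg.trans hB)
        (fun x _ y _ => xe_nonneg a b e x y))
      unfold S2
      rw [Finset.sum_product]
      apply Finset.sum_congr rfl
      intro x _
      apply Finset.sum_congr rfl
      intro y _
      simp only [hg, xe]
      split_ifs
      · rw [div_pow, one_pow]
      · norm_num
    rw [e1, e2] at hcs
    refine hcs.trans ?_
    have e4 : √(∑ p ∈ Ag ×ˢ Bg, g p ^ 2) ≤
        √((As.card : ℝ) * Bs.card) * √(av As Bs (xe a b e)) := by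
      rw [← Real.sqrt_mul (by positivity)]
      exact Real.sqrt_le_sqrt e3
    calc √(((Ag.filter fun x => e ∈ a x).card : ℝ) * ((Bg.filter fun y => e ∈ b y).card : ℝ)) *
          √(∑ p ∈ Ag ×ˢ Bg, g p ^ 2)
        ≤ √(((Ag.filter fun x => e ∈ a x).card : ℝ) * ((Bg.filter fun y => e ∈ b y).card : ℝ)) *
          (√((As.card : ℝ) * Bs.card) * √(av As Bs (xe a b e))) :=
          mul_le_mul_of_nonneg_left e4 (Real.sqrt_nonneg _)
      _ = _ := by ring

open scoped Classical in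
/-- gain of destroyed potential when the rows meeting the column `y` are removed -/
lemma Pt_step (As : Finset X) (Bs : Finset Y) (A : Finset X) (B : Finset Y) (A' : Finset X)
    (B' : Finset Y) (hA' : A' ⊆ A) (hB' : B' ⊆ B) (E : Finset (Fin n))
    (hE : ∀ e ∈ E, Inact a b A' B' e) :
    Pt a b As Bs A B + ∑ e, (if e ∈ E then
      (if Inact a b A B e then 0 else √(av As Bs (xe a b e))) else 0) ≤ Pt a b As Bs A' B' := by
  unfold Pt
  rw [← Finset.sum_add_distrib]
  apply Finset.sum_le_sum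
  intro e _
  have h0 := Real.sqrt_nonneg (av As Bs (xe a b e))
  by_cases h1 : Inact a b A B e
  · have h2 : Inact a b A' B' e := h1.mono hA' hB'
    rw [if_pos h1, if_pos h2, if_pos h1]
    split_ifs <;> linarith
  · by_cases h2 : e ∈ E
    · rw [if_neg h1, if_pos h2, if_neg h1, if_pos (hE e h2)]
      linarith
    · rw [if_neg h1, if_neg h2]
      split_ifs <;> linarith

end Pool.Agent.LIS
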