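import Pool.Agent.LIS.Rot1

/-!
MP_132c09_co: the refined one-sided theorem.
Second level: the maximal rectangle inside an extremal rectangle has no conflicts.
-/

namespace Pool.Agent.LIS

open Finset

lemma step_real {α β k W W' m m' S' : ℝ} (hβ : 0 < β) (hk : 0 ≤ k)
    (h1 : (k * β) * Real.exp (8 * m' - 16 * W') ≤ (α * β) * Real.exp (8 * m - 16 * W))
    (h2 : (k * β) * W' = S') :
    8 * (k * (m' - m)) - 16 * (S' / β - W * k) ≤ α - k := by
  have h3 : k * Real.exp (8 * (m' - m) - 16 * (W' - W)) ≤ α := by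
    have h4 := mul_le_mul_of_nonneg_right h1 (Real.exp_pos (-(8 * m - 16 * W))).le
    have hexp : ∀ t u v : ℝ, t * Real.exp u * Real.exp v = t * Real.exp (u + v) := by
      intro t u v
      rw [mul_assoc, ← Real.exp_add]
    rw [hexp, hexp] at h4
    have e1 : 8 * m' - 16 * W' + -(8 * m - 16 * W) = 8 * (m' - m) - 16 * (W' - W) := by ring
    have e2 : 8 * m - 16 * W + -(8 * m - 16 * W) = 0 := by ring
    rw [e1, e2, Real.exp_zero, mul_one] at h4
    have h5 : β * (k * Real.exp (8 * (m' - m) - 16 * (W' - W))) ≤ β * α := by linarith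
    exact le_of_mul_le_mul_left h5 hβ
  have h4 : k * (8 * (m' - m) - 16 * (W' - W) + 1) ≤ k * Real.exp (8 * (m' - m) - 16 * (W' - W)) :=
    mul_le_mul_of_nonneg_left (Real.add_one_le_exp _) hk
  have h5 : S' / β = k * W' := by
    rw [← h2]
    field_simp
  rw [h5]
  linarith

lemma lower_sum {Y : Type} {n : ℕ} (B : Finset Y) (b : Y → Finset (Fin n)) (s δ : Y → ℝ) (α : ℝ)
    (τ : Fin n → ℝ) (hα : 0 ≤ α) (hτ : ∀ e, 0 ≤ τ e) (hs1 : ∀ y ∈ B, s y ≤ α)
    (hδ : ∀ y ∈ B, 0 ≤ δ y)
    (hgood : ∀ y ∈ B, 2 * s y ≤ α → ∑ e, (if e ∈ b y then τ e else 0) ≤ δ y) :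
    α / 2 * ∑ e, τ e * (((B.filter fun y => 2 * s y ≤ α).filter fun y => e ∈ b y).card : ℝ) ≤
      ∑ y ∈ B, (α - s y) * δ y := by
  classical
  have h1 : ∑ e, τ e * (((B.filter fun y => 2 * s y ≤ α).filter fun y => e ∈ b y).card : ℝ) =
      ∑ y ∈ B.filter (fun y => 2 * s y ≤ α), ∑ e, (if e ∈ b y then τ e else 0) := by
    rw [Finset.sum_comm]
    apply Finset.sum_congr rfl
    intro e _
    rw [← Finset.sum_filter, Finset.sum_const, nsmul_eq_mul, mul_comm]
  rw [h1, Finset.mul_sum]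
  calc ∑ y ∈ B.filter (fun y => 2 * s y ≤ α), α / 2 * ∑ e, (if e ∈ b y then τ e else 0)
      ≤ ∑ y ∈ B.filter (fun y => 2 * s y ≤ α), (α - s y) * δ y := by
        apply Finset.sum_le_sum
        intro y hy
        obtain ⟨hyB, hys⟩ := Finset.mem_filter.mp hy
        have h2 := hgood y hyB hys
        have h3 : 0 ≤ ∑ e, (if e ∈ b y then τ e else 0) := by
          apply Finset.sum_nonneg
          intro e _
          split_ifs
          · exact hτ e
          · exact le_refl _
        apply mul_le_mul _ h2 h3 (by linarith [hs1 y hyB])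
        linarith
    _ ≤ ∑ y ∈ B, (α - s y) * δ y := by
        apply Finset.sum_le_sum_of_subset_of_nonneg (Finset.filter_subset _ _)
        intro y hy _
        exact mul_nonneg (by linarith [hs1 y hy]) (hδ y hy)

variable {X Y : Type} {n : ℕ} (a : X → Finset (Fin n)) (b : Y → Finset (Fin n))

open scoped Classical in
lemma card_free_rows (A : Finset X) (y : Y) :
    ((A.filter fun x => ¬ (a x ∩ b y).Nonempty).card : ℝ) =
      A.card - ∑ x ∈ A, wd a b x y := by
  have h1 := Finset.card_filter_add_card_filter_not (s := A) (fun x => (a x ∩ b y).Nonempty)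
  have h2 : ∑ x ∈ A, wd a b x y = ((A.filter fun x => (a x ∩ b y).Nonempty).card : ℝ) := by
    unfold wd
    rw [Finset.sum_boole]
  rw [h2, ← h1]
  push_cast
  ring

open scoped Classical in
lemma card_free_cols (B : Finset Y) (x : X) :
    ((B.filter fun y => ¬ (a x ∩ b y).Nonempty).card : ℝ) =
      B.card - ∑ y ∈ B, wd a b x y := by
  have h1 := Finset.card_filter_add_card_filter_not (s := B) (fun y => (a x ∩ b y).Nonempty)
  have h2 : ∑ y ∈ B, wd a b x y = ((B.filter fun y => (a x ∩ b y).Nonempty).card : ℝ) := by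
    unfold wd
    rw [Finset.sum_boole]
  rw [h2, ← h1]
  push_cast
  ring

open scoped Classical in
lemma S2_free_rows (A : Finset X) (B : Finset Y) (y : Y) :
    S2 (A.filter fun x => ¬ (a x ∩ b y).Nonempty) B (wd a b) =
      ∑ x ∈ A, (1 - wd a b x y) * ∑ y' ∈ B, wd a b x y' := by
  unfold S2
  rw [Finset.sum_filter]
  apply Finset.sum_congr rfl
  intro x _
  split_ifs with h
  · have : wd a b x y = 1 := by unfold wd; exact if_pos h
    rw [this]
    ring
  · have : wd a b x y = 0 := by unfold wd; exact if_neg h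
    rw [this]
    ring

open scoped Classical in
lemma S2_free_cols (A : Finset X) (B : Finset Y) (x : X) :
    S2 A (B.filter fun y => ¬ (a x ∩ b y).Nonempty) (wd a b) =
      ∑ y ∈ B, (1 - wd a b x y) * ∑ x' ∈ A, wd a b x' y := by
  unfold S2
  rw [Finset.sum_comm, Finset.sum_filter]
  apply Finset.sum_congr rfl
  intro y _
  split_ifs with h
  · have : wd a b x y = 1 := by unfold wd; exact if_pos h
    rw [this]
    ring
  · have : wd a b x y = 0 := by unfold wd; exact if_neg h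
    rw [this]
    ring

open scoped Classical in
/-- Inside an extremal rectangle with few conflicts there is a conflict-free rectangle of density
at least `3 / 4`. -/
theorem level2 (h : X → Y → ℝ) (As : Finset X) (Bs : Finset Y)
    (hAs : As.Nonempty) (hBs : Bs.Nonempty)
    (hE : ∀ A ⊆ As, ∀ B ⊆ Bs,
      ((A.card : ℝ) * B.card) * Real.exp (-(1024 * Gf a b h A B)) ≤
        ((As.card : ℝ) * Bs.card) * Real.exp (-(1024 * Gf a b h As Bs)))
    (hW : av As Bs (wd a b) ≤ 1 / 128) :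
    ∃ A ⊆ As, ∃ B ⊆ Bs, (∀ x ∈ A, ∀ y ∈ B, ¬ (a x ∩ b y).Nonempty) ∧
      3 / 4 * ((As.card : ℝ) * Bs.card) ≤ (A.card : ℝ) * B.card := by
  have hαs : (0 : ℝ) < As.card := by exact_mod_cast hAs.card_pos
  have hβs : (0 : ℝ) < Bs.card := by exact_mod_cast hBs.card_pos
  set Ms : ℝ := (As.card : ℝ) * Bs.card with hMs
  have hMs0 : 0 < Ms := mul_pos hαs hβs
  set m : Finset X → Finset Y → ℝ := fun A B => min (Pt a b As Bs A B) (1 / 64) with hm
  set Ω : Finset X → Finset Y → ℝ := fun A B =>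
    ((A.card : ℝ) * B.card) * Real.exp (8 * m A B - 16 * av A B (wd a b)) with hΩ
  have hm0 : ∀ A B, 0 ≤ m A B := fun A B => le_min (Pt_nonneg a b As Bs A B) (by norm_num)
  have hm1 : ∀ A B, m A B ≤ 1 / 64 := fun A B => min_le_right _ _
  obtain ⟨p, hp, hmax⟩ := Finset.exists_max_image (As.powerset ×ˢ Bs.powerset)
    (fun p => Ω p.1 p.2) ⟨(As, Bs), by simp⟩
  obtain ⟨A, B⟩ := p
  rw [Finset.mem_product, Finset.mem_powerset, Finset.mem_powerset] at hp
  obtain ⟨hA, hB⟩ := hp
  simp only at hA hB hmax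
  have hmax' : ∀ A' ⊆ As, ∀ B' ⊆ Bs, Ω A' B' ≤ Ω A B := fun A' hA' B' hB' =>
    hmax (A', B') (by
      rw [Finset.mem_product, Finset.mem_powerset, Finset.mem_powerset]
      exact ⟨hA', hB'⟩)
  set M : ℝ := (A.card : ℝ) * B.card with hM
  set W : ℝ := av A B (wd a b) with hWdef
  have hW0 : 0 ≤ W := av_nonneg fun x _ y _ => wd_nonneg a b x y
  have hMle : M ≤ Ms := by
    rw [hM, hMs]
    have h1 : (A.card : ℝ) ≤ As.card := by exact_mod_cast Finset.card_le_card hA
    have h2 : (B.card : ℝ) ≤ Bs.card := by exact_mod_cast Finset.card_le_card hB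
    exact mul_le_mul h1 h2 (by positivity) hαs.le
  -- comparison with the whole rectangle
  have hcomp : Ms * Real.exp (-(1 / 4)) ≤ M * Real.exp (-(16 * W)) := by
    have h1 := hmax' As subset_rfl Bs subset_rfl
    simp only [hΩ] at h1
    have h2 : Ms * Real.exp (-(1 / 8)) ≤ Ms * Real.exp (8 * m As Bs - 16 * av As Bs (wd a b)) := by
      apply mul_le_mul_of_nonneg_left _ hMs0.le
      apply Real.exp_le_exp.mpr
      have := hm0 As Bs
      linarith
    have h3 : M * Real.exp (8 * m A B - 16 * av A B (wd a b)) ≤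
        M * Real.exp (1 / 8 - 16 * W) := by
      apply mul_le_mul_of_nonneg_left _ (by positivity)
      apply Real.exp_le_exp.mpr
      have := hm1 A B
      rw [← hWdef]
      linarith
    have h4 : Ms * Real.exp (-(1 / 8)) ≤ M * Real.exp (1 / 8 - 16 * W) :=
      h2.trans (h1.trans h3)
    have h5 := mul_le_mul_of_nonneg_right h4 (Real.exp_pos (-(1 / 8))).le
    have hexp : ∀ t u v : ℝ, t * Real.exp u * Real.exp v = t * Real.exp (u + v) := by
      intro t u v
      rw [mul_assoc, ← Real.exp_add]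
    rw [hexp, hexp] at h5
    have e1 : -(1 / 8 : ℝ) + -(1 / 8) = -(1 / 4) := by norm_num
    have e2 : 1 / 8 - 16 * W + -(1 / 8) = -(16 * W) := by ring
    rw [e1, e2] at h5
    exact h5
  have hexp4 : 3 / 4 ≤ Real.exp (-(1 / 4)) := by
    have := Real.add_one_le_exp (-(1 / 4 : ℝ))
    linarith
  have hMbig : 3 / 4 * Ms ≤ M := by
    have h1 : M * Real.exp (-(16 * W)) ≤ M * 1 := by
      apply mul_le_mul_of_nonneg_left _ (by positivity)
      apply Real.exp_le_one_iff.mpr
      linarith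
    nlinarith
  have hM0 : 0 < M := by nlinarith
  have hαβ : (0 : ℝ) < A.card ∧ (0 : ℝ) < B.card := by
    have h1 : (0 : ℝ) ≤ A.card := Nat.cast_nonneg _
    have h2 : (0 : ℝ) ≤ B.card := Nat.cast_nonneg _
    constructor
    · rcases h1.lt_or_eq with h | h
      · exact h
      · rw [hM, ← h, zero_mul] at hM0; exact absurd hM0 (lt_irrefl _)
    · rcases h2.lt_or_eq with h | h
      · exact h
      · rw [hM, ← h, mul_zero] at hM0; exact absurd hM0 (lt_irrefl _)
  obtain ⟨hα, hβ⟩ := hαβ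
  have hAne : A.Nonempty := Finset.card_pos.mp (by exact_mod_cast hα)
  have hBne : B.Nonempty := Finset.card_pos.mp (by exact_mod_cast hβ)
  have hWsmall : W ≤ 1 / 64 := by
    have h1 : Ms * Real.exp (-(1 / 4)) ≤ Ms * Real.exp (-(16 * W)) :=
      hcomp.trans (mul_le_mul_of_nonneg_right hMle (Real.exp_pos _).le)
    have h2 := le_of_mul_le_mul_left h1 hMs0
    have h3 := Real.exp_le_exp.mp h2
    linarith
  have hWM : W * ((A.card : ℝ) * B.card) = ∑ x ∈ A, ∑ y ∈ B, wd a b x y := by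
    rw [mul_comm, hWdef, card_mul_av]
    rfl
  set τ : Fin n → ℝ := fun e => if Inact a b A B e then 0 else √(av As Bs (xe a b e)) with hτ
  have hτ0 : ∀ e, 0 ≤ τ e := by
    intro e
    simp only [hτ]
    split_ifs
    · exact le_refl _
    · exact Real.sqrt_nonneg _
  -- the bound for the destroyed potential
  have hPt : ∀ A' ⊆ As, ∀ B' ⊆ Bs, 3 / 8 * Ms ≤ (A'.card : ℝ) * B'.card →
      Pt a b As Bs A' B' ≤ 1 / 64 := by
    intro A' hA' B' hB' hbig
    have h1 := gain a b h 1024 As Bs hAs hBs hE A' hA' B' hB' (by norm_num)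
    have h2 := Pt_nonneg a b As Bs A' B'
    have h3 : 3 / 8 * Ms * Pt a b As Bs A' B' ≤ ((A'.card : ℝ) * B'.card) * Pt a b As Bs A' B' :=
      mul_le_mul_of_nonneg_right hbig h2
    have h4 : Ms * (384 * Pt a b As Bs A' B') ≤ Ms * 4 := by linarith
    have h5 := le_of_mul_le_mul_left h4 hMs0
    linarith
  have hmono : ∀ A' ⊆ A, ∀ B' ⊆ B, m A B ≤ m A' B' := by
    intro A' hA' B' hB'
    apply min_le_min _ le_rfl
    have h1 := Pt_step a b As Bs A B A' B' hA' hB' ∅ (by simp)
    simpa using h1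
  have hmPt : m A B = Pt a b As Bs A B := by
    apply min_eq_left
    apply hPt A hA B hB
    linarith
  -- columns
  have hI : 8 * (∑ y ∈ B, ((A.card : ℝ) - ∑ x ∈ A, wd a b x y) *
        (m (A.filter fun x => ¬ (a x ∩ b y).Nonempty) B - m A B)) +
      16 * ((∑ x ∈ A, (∑ y ∈ B, wd a b x y) ^ 2) / B.card - (A.card : ℝ) * B.card * W ^ 2) ≤
      (A.card : ℝ) * B.card * W := by
    apply half_sum A B (wd a b) hBne W hWM
    intro y hy
    have h1 := hmax' (A.filter fun x => ¬ (a x ∩ b y).Nonempty)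
      ((Finset.filter_subset _ _).trans hA) B hB
    simp only [hΩ] at h1
    have h2 := card_mul_av (A.filter fun x => ¬ (a x ∩ b y).Nonempty) B (wd a b)
    rw [S2_free_rows a b A B y] at h2
    have h3 := step_real hβ (Nat.cast_nonneg _) h1 h2
    rw [card_free_rows a b A y] at h3
    linarith
  -- rows
  have hII : 8 * (∑ x ∈ A, ((B.card : ℝ) - ∑ y ∈ B, wd a b x y) *
        (m A (B.filter fun y => ¬ (a x ∩ b y).Nonempty) - m A B)) +
      16 * ((∑ y ∈ B, (∑ x ∈ A, wd a b x y) ^ 2) / A.card - (B.card : ℝ) * A.card * W ^ 2) ≤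
      (B.card : ℝ) * A.card * W := by
    apply half_sum B A (fun y x => wd a b x y) hAne W (by
      rw [mul_comm (B.card : ℝ), hWM, Finset.sum_comm])
    intro x hx
    have h1 := hmax' A hA (B.filter fun y => ¬ (a x ∩ b y).Nonempty)
      ((Finset.filter_subset _ _).trans hB)
    simp only [hΩ] at h1
    have h2 := card_mul_av A (B.filter fun y => ¬ (a x ∩ b y).Nonempty) (wd a b)
    rw [S2_free_cols a b A B x] at h2
    rw [mul_comm (A.card : ℝ) ((B.filter fun y => ¬ (a x ∩ b y).Nonempty).card : ℝ)] at h1 h2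
    rw [mul_comm (A.card : ℝ) (B.card : ℝ)] at h1
    have h3 := step_real hα (Nat.cast_nonneg _) h1 h2
    rw [card_free_cols a b B x] at h3
    linarith
  -- lower bounds
  have hs1 : ∀ y ∈ B, ∑ x ∈ A, wd a b x y ≤ A.card := by
    intro y _
    calc ∑ x ∈ A, wd a b x y ≤ ∑ x ∈ A, (1 : ℝ) :=
          Finset.sum_le_sum fun x _ => wd_le_one a b x y
      _ = A.card := by simp
  have hr1 : ∀ x ∈ A, ∑ y ∈ B, wd a b x y ≤ B.card := by
    intro x _
    calc ∑ y ∈ B, wd a b x y ≤ ∑ y ∈ B, (1 : ℝ) :=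
          Finset.sum_le_sum fun y _ => wd_le_one a b x y
      _ = B.card := by simp
  have hL1 := lower_sum B b (fun y => ∑ x ∈ A, wd a b x y)
    (fun y => m (A.filter fun x => ¬ (a x ∩ b y).Nonempty) B - m A B) A.card τ hα.le hτ0 hs1
    (fun y _ => by
      have := hmono (A.filter fun x => ¬ (a x ∩ b y).Nonempty) (Finset.filter_subset _ _) B
        subset_rfl
      linarith)
    (fun y hy hgood => by
      have hcard := card_free_rows a b A y
      have hbig : 3 / 8 * Ms ≤ ((A.filter fun x => ¬ (a x ∩ b y).Nonempty).card : ℝ) * B.card := by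
        rw [hcard]
        have h1 : (A.card : ℝ) / 2 * B.card ≤
            ((A.card : ℝ) - ∑ x ∈ A, wd a b x y) * B.card :=
          mul_le_mul_of_nonneg_right (by linarith) hβ.le
        have h2 : (A.card : ℝ) / 2 * B.card = M / 2 := by rw [hM]; ring
        linarith
      have h1 := hPt _ ((Finset.filter_subset _ _).trans hA) B hB hbig
      have h2 : m (A.filter fun x => ¬ (a x ∩ b y).Nonempty) B =
          Pt a b As Bs (A.filter fun x => ¬ (a x ∩ b y).Nonempty) B := min_eq_left h1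
      have h3 := Pt_step a b As Bs A B (A.filter fun x => ¬ (a x ∩ b y).Nonempty) B
        (Finset.filter_subset _ _) subset_rfl (b y) (by
          intro e he x hx y' _ hmem
          have hxf := (Finset.mem_filter.mp hx).2
          apply hxf
          exact ⟨e, Finset.mem_inter.mpr ⟨(Finset.mem_inter.mp hmem).1, he⟩⟩)
      rw [h2, hmPt]
      linarith)
  have hL2 := lower_sum A a (fun x => ∑ y ∈ B, wd a b x y)
    (fun x => m A (B.filter fun y => ¬ (a x ∩ b y).Nonempty) - m A B) B.card τ hβ.le hτ0 hr1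
    (fun x _ => by
      have := hmono A subset_rfl (B.filter fun y => ¬ (a x ∩ b y).Nonempty)
        (Finset.filter_subset _ _)
      linarith)
    (fun x hx hgood => by
      have hcard := card_free_cols a b B x
      have hbig : 3 / 8 * Ms ≤ (A.card : ℝ) * ((B.filter fun y => ¬ (a x ∩ b y).Nonempty).card : ℝ) := by
        rw [hcard]
        have h1 : (A.card : ℝ) * ((B.card : ℝ) / 2) ≤
            (A.card : ℝ) * ((B.card : ℝ) - ∑ y ∈ B, wd a b x y) :=
          mul_le_mul_of_nonneg_left (by linarith) hα.le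
        have h2 : (A.card : ℝ) * ((B.card : ℝ) / 2) = M / 2 := by rw [hM]; ring
        linarith
      have h1 := hPt A hA _ ((Finset.filter_subset _ _).trans hB) hbig
      have h2 : m A (B.filter fun y => ¬ (a x ∩ b y).Nonempty) =
          Pt a b As Bs A (B.filter fun y => ¬ (a x ∩ b y).Nonempty) := min_eq_left h1
      have h3 := Pt_step a b As Bs A B A (B.filter fun y => ¬ (a x ∩ b y).Nonempty)
        subset_rfl (Finset.filter_subset _ _) (a x) (by
          intro e he x' _ y hy hmem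
          have hyf := (Finset.mem_filter.mp hy).2
          apply hyf
          exact ⟨e, Finset.mem_inter.mpr ⟨he, (Finset.mem_inter.mp hmem).2⟩⟩)
      rw [h2, hmPt]
      linarith)
  -- Cauchy-Schwarz
  set Ag : Finset X := A.filter fun x => 2 * ∑ y ∈ B, wd a b x y ≤ (B.card : ℝ) with hAg
  set Bg : Finset Y := B.filter fun y => 2 * ∑ x ∈ A, wd a b x y ≤ (A.card : ℝ) with hBg
  have hCS := conflicts_le a b As Bs A B hA hB Ag Bg (Finset.filter_subset _ _)
    (Finset.filter_subset _ _)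
  set Se : ℝ := ∑ e, (if Inact a b A B e then 0 else √(av As Bs (xe a b e))) *
        √(((Ag.filter fun x => e ∈ a x).card : ℝ) * ((Bg.filter fun y => e ∈ b y).card : ℝ)) with hSe
  have hamgm : √M * Se ≤
      (A.card : ℝ) / 2 * ∑ e, τ e * ((Bg.filter fun y => e ∈ b y).card : ℝ) +
      (B.card : ℝ) / 2 * ∑ e, τ e * ((Ag.filter fun x => e ∈ a x).card : ℝ) := by
    rw [hSe, Finset.mul_sum, Finset.mul_sum, Finset.mul_sum, ← Finset.sum_add_distrib]
    apply Finset.sum_le_sum
    intro e _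
    set P : ℝ := ((Ag.filter fun x => e ∈ a x).card : ℝ) with hP
    set Q : ℝ := ((Bg.filter fun y => e ∈ b y).card : ℝ) with hQ
    have hP0 : 0 ≤ P := Nat.cast_nonneg _
    have hQ0 : 0 ≤ Q := Nat.cast_nonneg _
    have h1 : √M * √(P * Q) ≤ ((A.card : ℝ) * Q + (B.card : ℝ) * P) / 2 := by
      rw [← Real.sqrt_mul hM0.le]
      apply Real.sqrt_le_iff.mpr
      constructor
      · positivity
      · rw [hM]
        nlinarith [sq_nonneg ((A.card : ℝ) * Q - (B.card : ℝ) * P)]
    have h2 := mul_le_mul_of_nonneg_left h1 (hτ0 e)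
    calc √M * ((if Inact a b A B e then 0 else √(av As Bs (xe a b e))) * √(P * Q))
        = τ e * (√M * √(P * Q)) := by simp only [hτ]; ring
      _ ≤ τ e * (((A.card : ℝ) * Q + (B.card : ℝ) * P) / 2) := h2
      _ = (A.card : ℝ) / 2 * (τ e * Q) + (B.card : ℝ) / 2 * (τ e * P) := by ring
  have hSe0 : 0 ≤ Se := by
    rw [hSe]
    apply Finset.sum_nonneg
    intro e _
    exact mul_nonneg (hτ0 e) (Real.sqrt_nonneg _)
  have hgoodlow : 3 / 4 * S2 Ag Bg (wd a b) ≤ √M * Se := by
    have h1 : 3 / 4 * √Ms ≤ √M := by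
      apply Real.le_sqrt_of_sq_le
      have h2 : √Ms ^ 2 = Ms := Real.sq_sqrt hMs0.le
      rw [mul_pow, h2]
      linarith
    calc 3 / 4 * S2 Ag Bg (wd a b) ≤ 3 / 4 * (√Ms * Se) :=
          mul_le_mul_of_nonneg_left hCS (by norm_num)
      _ = (3 / 4 * √Ms) * Se := by ring
      _ ≤ √M * Se := mul_le_mul_of_nonneg_right h1 hSe0
  -- the number of good conflicts
  have hbadA := bad_sum A B (wd a b) (wd_nonneg a b) hBne
  have hbadB := bad_sum B A (fun y x => wd a b x y) (fun y x => wd_nonneg a b x y) hAne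
  have hgood : W * M - 2 * ((∑ x ∈ A, (∑ y ∈ B, wd a b x y) ^ 2) / B.card) -
      2 * ((∑ y ∈ B, (∑ x ∈ A, wd a b x y) ^ 2) / A.card) ≤ S2 Ag Bg (wd a b) := by
    have h1 : W * M = S2 A B (wd a b) := by rw [hM]; exact hWM
    have h2 : S2 A B (wd a b) ≤ S2 Ag Bg (wd a b) +
        (∑ x ∈ A with ¬ 2 * ∑ y ∈ B, wd a b x y ≤ B.card, ∑ y ∈ B, wd a b x y) +
        (∑ y ∈ B with ¬ 2 * ∑ x ∈ A, wd a b x y ≤ A.card, ∑ x ∈ A, wd a b x y) := by
      unfold S2
      have h3 : ∑ x ∈ A, ∑ y ∈ B, wd a b x y = ∑ x ∈ Ag, ∑ y ∈ B, wd a b x y +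
          ∑ x ∈ A with ¬ 2 * ∑ y ∈ B, wd a b x y ≤ B.card, ∑ y ∈ B, wd a b x y :=
        (Finset.sum_filter_add_sum_filter_not A _ _).symm
      have h4 : ∑ x ∈ Ag, ∑ y ∈ B, wd a b x y ≤ ∑ x ∈ Ag, ∑ y ∈ Bg, wd a b x y +
          ∑ y ∈ B with ¬ 2 * ∑ x ∈ A, wd a b x y ≤ A.card, ∑ x ∈ A, wd a b x y := by
        have h5 : ∑ x ∈ Ag, ∑ y ∈ B, wd a b x y = ∑ x ∈ Ag, ∑ y ∈ Bg, wd a b x y +
            ∑ x ∈ Ag, ∑ y ∈ B with ¬ 2 * ∑ x ∈ A, wd a b x y ≤ A.card, wd a b x y := by
          rw [← Finset.sum_add_distrib]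
          apply Finset.sum_congr rfl
          intro x _
          exact (Finset.sum_filter_add_sum_filter_not B _ _).symm
        have h6 : ∑ x ∈ Ag, ∑ y ∈ B with ¬ 2 * ∑ x ∈ A, wd a b x y ≤ A.card, wd a b x y =
            ∑ y ∈ B with ¬ 2 * ∑ x ∈ A, wd a b x y ≤ A.card, ∑ x ∈ Ag, wd a b x y :=
          Finset.sum_comm
        rw [h5, h6]
        apply add_le_add le_rfl
        apply Finset.sum_le_sum
        intro y _
        exact Finset.sum_le_sum_of_subset_of_nonneg (Finset.filter_subset _ _)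
          fun x _ _ => wd_nonneg a b x y
      linarith
    linarith
  -- conclusion
  set S₁ : ℝ := (∑ x ∈ A, (∑ y ∈ B, wd a b x y) ^ 2) / B.card with hS₁
  set S₂ : ℝ := (∑ y ∈ B, (∑ x ∈ A, wd a b x y) ^ 2) / A.card with hS₂
  have hS₁0 : 0 ≤ S₁ := by positivity
  have hS₂0 : 0 ≤ S₂ := by positivity
  have hBA : (B.card : ℝ) * A.card = M := by rw [hM]; ring
  rw [hBA] at hII
  have hkey : M * W ≤ 8 * (M * W ^ 2) := by
    have e1 : (A.card : ℝ) * B.card * W ^ 2 = M * W ^ 2 := by rw [hM]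
    have e2 : (A.card : ℝ) * B.card * W = M * W := by rw [hM]
    rw [e1, e2] at hI
    linarith
  have hW00 : W = 0 := by
    by_contra hne
    have hWpos : 0 < W := lt_of_le_of_ne hW0 (Ne.symm hne)
    have h1 : M * W * (1 - 8 * W) ≤ 0 := by nlinarith
    have h2 : 0 < M * W * (1 - 8 * W) := mul_pos (mul_pos hM0 hWpos) (by linarith)
    linarith
  refine ⟨A, hA, B, hB, ?_, hMbig⟩
  intro x hx y hy hne
  have h1 : ∑ x ∈ A, ∑ y ∈ B, wd a b x y = 0 := by
    rw [← hWM, hW00, zero_mul]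
  have h2 := (Finset.sum_eq_zero_iff_of_nonneg
    (fun x _ => Finset.sum_nonneg fun y _ => wd_nonneg a b x y)).mp h1 x hx
  have h3 := (Finset.sum_eq_zero_iff_of_nonneg (fun y _ => wd_nonneg a b x y)).mp h2 y hy
  unfold wd at h3
  rw [if_pos hne] at h3
  exact one_ne_zero h3

end Pool.Agent.LIS
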