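import Pool.Agent.LIS.Rot2

/-!
MP_132c09_co: the refined one-sided theorem.
-/

namespace Pool.Agent.LIS

open Finset

variable {X Y : Type} {n : ℕ} (a : X → Finset (Fin n)) (b : Y → Finset (Fin n))

/-- The refined one-sided theorem: a rectangle with few conflicts contains a conflict-free
rectangle of density at least `exp (-C Φ)`, on which the average of any given nonnegative
function `f` has grown by at most a constant factor. -/
theorem rot (f : X → Y → ℝ) (A₀ : Finset X) (B₀ : Finset Y) (hA₀ : A₀.Nonempty)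
    (hB₀ : B₀.Nonempty) (hf : ∀ x ∈ A₀, ∀ y ∈ B₀, 0 ≤ f x y)
    (hW : av A₀ B₀ (wd a b) ≤ 1 / 384) :
    ∃ A ⊆ A₀, ∃ B ⊆ B₀, (∀ x ∈ A, ∀ y ∈ B, ¬ (a x ∩ b y).Nonempty) ∧
      3 / 4 * Real.exp (-(3072 * Ph a b A₀ B₀)) * ((A₀.card : ℝ) * B₀.card) ≤
        (A.card : ℝ) * B.card ∧
      S2 A B f ≤ 4 * av A₀ B₀ f * ((A.card : ℝ) * B.card) := by
  classical
  have hα : (0 : ℝ) < A₀.card := by exact_mod_cast hA₀.card_pos
  have hβ : (0 : ℝ) < B₀.card := by exact_mod_cast hB₀.card_pos
  set M₀ : ℝ := (A₀.card : ℝ) * B₀.card with hM₀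
  have hM₀0 : 0 < M₀ := mul_pos hα hβ
  set Φ : ℝ := Ph a b A₀ B₀ with hΦ
  have hΦ0 : 0 ≤ Φ := Ph_nonneg a b A₀ B₀
  set F : ℝ := av A₀ B₀ f with hF
  have hF0 : 0 ≤ F := av_nonneg hf
  rcases hΦ0.eq_or_lt with hz | hpos
  · -- no conflicts at all
    refine ⟨A₀, subset_rfl, B₀, subset_rfl, ?_, ?_, ?_⟩
    · intro x hx y hy hne
      obtain ⟨e, he⟩ := hne
      have h1 : √(av A₀ B₀ (xe a b e)) = 0 :=
        (Finset.sum_eq_zero_iff_of_nonneg (fun e _ => Real.sqrt_nonneg _)).mp hz.symm e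
          (Finset.mem_univ e)
      have h2 : av A₀ B₀ (xe a b e) ≤ 0 := Real.sqrt_eq_zero'.mp h1
      have h3 : S2 A₀ B₀ (xe a b e) ≤ 0 := by
        rw [← card_mul_av]
        exact mul_nonpos_of_nonneg_of_nonpos hM₀0.le h2
      have h4 : S2 A₀ B₀ (xe a b e) = 0 :=
        le_antisymm h3 (S2_nonneg fun x _ y _ => xe_nonneg a b e x y)
      have h5 := (Finset.sum_eq_zero_iff_of_nonneg
        (fun x _ => Finset.sum_nonneg fun y _ => xe_nonneg a b e x y)).mp h4 x hx
      have h6 := (Finset.sum_eq_zero_iff_of_nonneg (fun y _ => xe_nonneg a b e x y)).mp h5 y hy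
      unfold xe at h6
      rw [if_pos he] at h6
      have h7 : (0 : ℝ) < ((a x ∩ b y).card : ℝ) := by
        exact_mod_cast Finset.card_pos.mpr ⟨e, he⟩
      have h8 : (0 : ℝ) < 1 / ((a x ∩ b y).card : ℝ) ^ 2 := by positivity
      linarith
    · rw [← hz, mul_zero, neg_zero, Real.exp_zero, ← hM₀]
      linarith
    · rw [← card_mul_av, ← hF, ← hM₀]
      nlinarith [mul_nonneg hM₀0.le hF0]
  · -- the main case
    set Γ : ℝ := 384 * Φ with hΓ
    set Γ₂ : ℝ := if F = 0 then 0 else Φ / F with hΓ₂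
    have hΓ₂0 : 0 ≤ Γ₂ := by
      rw [hΓ₂]
      split_ifs
      · exact le_refl _
      · positivity
    set h : X → Y → ℝ := fun x y => Γ * wd a b x y + Γ₂ * f x y with hh
    have hav : ∀ A : Finset X, ∀ B : Finset Y,
        av A B h = Γ * av A B (wd a b) + Γ₂ * av A B f := by
      intro A B
      rw [hh, av_add, av_smul, av_smul]
    have hG₀ : Gf a b h A₀ B₀ ≤ 3 * Φ := by
      unfold Gf
      rw [hav, ← hΦ, ← hF]
      have h1 : Γ * av A₀ B₀ (wd a b) ≤ Φ := by
        rw [hΓ]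
        nlinarith
      have h2 : Γ₂ * F ≤ Φ := by
        rw [hΓ₂]
        split_ifs with h0
        · rw [zero_mul]; exact hΦ0
        · rw [div_mul_cancel₀ _ h0]
      linarith
    obtain ⟨p, hp, hmax⟩ := Finset.exists_max_image (A₀.powerset ×ˢ B₀.powerset)
      (fun p : Finset X × Finset Y =>
        ((p.1.card : ℝ) * p.2.card) * Real.exp (-(1024 * Gf a b h p.1 p.2))) ⟨(A₀, B₀), by simp⟩
    obtain ⟨As, Bs⟩ := p
    rw [Finset.mem_product, Finset.mem_powerset, Finset.mem_powerset] at hp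
    obtain ⟨hAs, hBs⟩ := hp
    simp only at hAs hBs hmax
    have hmax' : ∀ A' ⊆ A₀, ∀ B' ⊆ B₀,
        ((A'.card : ℝ) * B'.card) * Real.exp (-(1024 * Gf a b h A' B')) ≤
          ((As.card : ℝ) * Bs.card) * Real.exp (-(1024 * Gf a b h As Bs)) :=
      fun A' hA' B' hB' => hmax (A', B') (by
        rw [Finset.mem_product, Finset.mem_powerset, Finset.mem_powerset]
        exact ⟨hA', hB'⟩)
    set Ms : ℝ := (As.card : ℝ) * Bs.card with hMs
    have hcomp := hmax' A₀ subset_rfl B₀ subset_rfl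
    rw [← hM₀] at hcomp
    have hf' : ∀ x ∈ As, ∀ y ∈ Bs, 0 ≤ f x y := fun x hx y hy => hf x (hAs hx) y (hBs hy)
    have hGs0 : 0 ≤ Gf a b h As Bs := by
      unfold Gf
      rw [hav]
      have h1 := Ph_nonneg a b As Bs
      have h2 : 0 ≤ av As Bs (wd a b) := av_nonneg fun x _ y _ => wd_nonneg a b x y
      have h3 : 0 ≤ av As Bs f := av_nonneg hf'
      positivity
    have hMsle : Ms ≤ M₀ := by
      rw [hMs, hM₀]
      have h1 : (As.card : ℝ) ≤ A₀.card := by exact_mod_cast Finset.card_le_card hAs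
      have h2 : (Bs.card : ℝ) ≤ B₀.card := by exact_mod_cast Finset.card_le_card hBs
      exact mul_le_mul h1 h2 (by positivity) hα.le
    have hMspos : 0 < Ms := by
      by_contra hcon
      have h1 : Ms * Real.exp (-(1024 * Gf a b h As Bs)) ≤ 0 :=
        mul_nonpos_of_nonpos_of_nonneg (not_lt.mp hcon) (Real.exp_pos _).le
      have h2 : 0 < M₀ * Real.exp (-(1024 * Gf a b h A₀ B₀)) := mul_pos hM₀0 (Real.exp_pos _)
      linarith
    have hne : As.Nonempty ∧ Bs.Nonempty := by
      constructor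
      · by_contra h0
        rw [Finset.not_nonempty_iff_eq_empty] at h0
        rw [hMs, h0] at hMspos
        simp at hMspos
      · by_contra h0
        rw [Finset.not_nonempty_iff_eq_empty] at h0
        rw [hMs, h0] at hMspos
        simp at hMspos
    obtain ⟨hAsne, hBsne⟩ := hne
    have hGs : Gf a b h As Bs ≤ 3 * Φ := by
      have h1 : M₀ * Real.exp (-(1024 * Gf a b h A₀ B₀)) ≤
          M₀ * Real.exp (-(1024 * Gf a b h As Bs)) :=
        hcomp.trans (mul_le_mul_of_nonneg_right hMsle (Real.exp_pos _).le)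
      have h2 := Real.exp_le_exp.mp (le_of_mul_le_mul_left h1 hM₀0)
      linarith
    have hMsbig : Real.exp (-(3072 * Φ)) * M₀ ≤ Ms := by
      have h1 : Ms * Real.exp (-(1024 * Gf a b h As Bs)) ≤ Ms * 1 :=
        mul_le_mul_of_nonneg_left (Real.exp_le_one_iff.mpr (by linarith)) hMspos.le
      have h2 : M₀ * Real.exp (-(3072 * Φ)) ≤ M₀ * Real.exp (-(1024 * Gf a b h A₀ B₀)) := by
        apply mul_le_mul_of_nonneg_left _ hM₀0.le
        apply Real.exp_le_exp.mpr
        linarith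
      linarith
    have hWs : av As Bs (wd a b) ≤ 1 / 128 := by
      have h1 : Γ * av As Bs (wd a b) ≤ 3 * Φ := by
        refine le_trans ?_ hGs
        unfold Gf
        rw [hav]
        have h2 := Ph_nonneg a b As Bs
        have h3 : 0 ≤ Γ₂ * av As Bs f := mul_nonneg hΓ₂0 (av_nonneg hf')
        linarith
      rw [hΓ] at h1
      have h2 : Φ * (128 * av As Bs (wd a b)) ≤ Φ * 1 := by linarith
      have h3 := le_of_mul_le_mul_left h2 hpos
      linarith
    have hFs : av As Bs f ≤ 3 * F := by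
      rcases hF0.eq_or_lt with h0 | h0
      · have h1 : S2 A₀ B₀ f = 0 := by
          rw [← card_mul_av, ← hF, ← h0, mul_zero]
        have h2 : S2 As Bs f ≤ 0 := by
          rw [← h1]
          exact S2_mono hAs hBs hf
        unfold av
        rw [← h0, mul_zero]
        exact div_nonpos_of_nonpos_of_nonneg h2 (by positivity)
      · have h1 : Γ₂ * av As Bs f ≤ 3 * Φ := by
          refine le_trans ?_ hGs
          unfold Gf
          rw [hav]
          have h2 := Ph_nonneg a b As Bs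
          have h3 : 0 ≤ Γ * av As Bs (wd a b) :=
            mul_nonneg (by positivity) (av_nonneg fun x _ y _ => wd_nonneg a b x y)
          linarith
        have h2 : Γ₂ = Φ / F := by
          rw [hΓ₂, if_neg h0.ne']
        rw [h2, div_mul_eq_mul_div, div_le_iff₀ h0] at h1
        have h3 : Φ * av As Bs f ≤ Φ * (3 * F) := by linarith
        exact le_of_mul_le_mul_left h3 hpos
    obtain ⟨A, hA, B, hB, hdisj, hbig⟩ := level2 a b h As Bs hAsne hBsne
      (fun A' hA' B' hB' => hmax' A' (hA'.trans hAs) B' (hB'.trans hBs)) hWs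
    rw [← hMs] at hbig
    refine ⟨A, hA.trans hAs, B, hB.trans hBs, hdisj, ?_, ?_⟩
    · calc 3 / 4 * Real.exp (-(3072 * Φ)) * M₀ = 3 / 4 * (Real.exp (-(3072 * Φ)) * M₀) := by ring
        _ ≤ 3 / 4 * Ms := mul_le_mul_of_nonneg_left hMsbig (by norm_num)
        _ ≤ (A.card : ℝ) * B.card := hbig
    · have h1 : S2 A B f ≤ S2 As Bs f := S2_mono hA hB hf'
      have h2 : S2 As Bs f ≤ Ms * (3 * F) := by
        rw [← card_mul_av, ← hMs]
        exact mul_le_mul_of_nonneg_left hFs hMspos.le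
      have h3 : 3 * Ms ≤ 4 * ((A.card : ℝ) * B.card) := by linarith
      have h4 := mul_le_mul_of_nonneg_right h3 hF0
      linarith

end Pool.Agent.LIS
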