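import Mathlib

/-!
MP_132c09_co: exactly lambda-intersecting subfamilies.
The sampling lemma: choosing a random tuple on one side.
-/

namespace Pool.Agent.LIS

open Finset

/-- number of related pairs, as a real number -/
noncomputable def Zc {X Y : Type} (r : X → Y → Prop) (A : Finset X) (B : Finset Y) : ℝ := by
  classical exact ∑ x ∈ A, ∑ y ∈ B, if r x y then (1 : ℝ) else 0

open scoped Classical in
lemma Zc_eq {X Y : Type} (r : X → Y → Prop) (A : Finset X) (B : Finset Y) :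
    Zc r A B = ∑ x ∈ A, ∑ y ∈ B, if r x y then (1 : ℝ) else 0 := rfl

open scoped Classical in
lemma Zc_card {X Y : Type} (r : X → Y → Prop) (A : Finset X) (B : Finset Y) :
    Zc r A B = (((A ×ˢ B).filter fun p => r p.1 p.2).card : ℝ) := by
  rw [Zc_eq, Finset.card_filter, Finset.sum_product]
  push_cast
  rfl

open scoped Classical in
lemma Zc_le {X Y : Type} (r : X → Y → Prop) (A : Finset X) (B : Finset Y) :
    Zc r A B ≤ (A.card : ℝ) * B.card := by
  rw [Zc_card, ← Nat.cast_mul, ← Finset.card_product]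
  exact_mod_cast Finset.card_le_card (Finset.filter_subset _ _)

lemma Zc_nonneg {X Y : Type} (r : X → Y → Prop) (A : Finset X) (B : Finset Y) :
    0 ≤ Zc r A B := by
  classical
  rw [Zc_card]
  positivity

open scoped Classical in
lemma Zc_swap {X Y : Type} (r : X → Y → Prop) (A : Finset X) (B : Finset Y) :
    Zc (fun y x => r x y) B A = Zc r A B := by
  rw [Zc_eq, Zc_eq, Finset.sum_comm]

/-- tangent line inequality -/
lemma tangent (k : ℕ) (u : ℝ) (hu : 0 ≤ u) (hk : 1 ≤ k) :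
    1 + (k + 2) * (u - 1) ≤ 2 * u ^ (k + 1) - u ^ k := by
  have hk' : (1 : ℝ) ≤ k := by exact_mod_cast hk
  rcases le_total (1 / 2) u with h | h
  · have h1 : 1 + (k : ℝ) * (u - 1) ≤ u ^ k := by
      have := one_add_mul_le_pow (a := u - 1) (by linarith) k
      simpa using this
    have h2 : (1 + (k : ℝ) * (u - 1)) * (2 * u - 1) ≤ u ^ k * (2 * u - 1) :=
      mul_le_mul_of_nonneg_right h1 (by linarith)
    have h3 : 0 ≤ 2 * (k : ℝ) * (u - 1) ^ 2 := by positivity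
    rw [pow_succ]
    nlinarith
  · have h1 : u ^ k ≤ 1 / 2 := by
      calc u ^ k ≤ u ^ 1 := pow_le_pow_of_le_one hu (by linarith) hk
        _ ≤ 1 / 2 := by simpa using h
    have h2 : 0 ≤ u ^ (k + 1) := by positivity
    nlinarith

open scoped Classical in
/-- The sampling lemma. -/
theorem sampling {X Y : Type} (r : X → Y → Prop) (𝒳 : Finset X) (𝒴 : Finset Y) (k : ℕ)
    (hk : 1 ≤ k) (w : (Fin k → Y) → Y → ℝ) (W : ℝ) (hW : 0 < W) (hw0 : ∀ f y, 0 ≤ w f y)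
    (hw : ∀ 𝒴' ⊆ 𝒴, ∑ f ∈ Fintype.piFinset (fun _ : Fin k => 𝒴'), ∑ y ∈ 𝒴', w f y ≤
      W * (𝒴'.card : ℝ) ^ (k + 1))
    (z : ℝ) (hz : 0 < z) (hX : 𝒳.Nonempty) (hY : 𝒴.Nonempty)
    (hcnt : z * ((𝒳.card : ℝ) * 𝒴.card) ≤ Zc r 𝒳 𝒴) :
    ∃ f : Fin k → Y, (∀ i, f i ∈ 𝒴) ∧
      z / 4 * (((𝒳.filter fun x => ∀ i, r x (f i)).card : ℝ) * 𝒴.card) ≤
        Zc r (𝒳.filter fun x => ∀ i, r x (f i)) (𝒴.filter fun y => w f y ≤ 2 * W) ∧
      z ^ (k + 1) / 4 * ((𝒳.card : ℝ) * 𝒴.card) ≤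
        Zc r (𝒳.filter fun x => ∀ i, r x (f i)) (𝒴.filter fun y => w f y ≤ 2 * W) := by
  set P := Fintype.piFinset (fun _ : Fin k => 𝒴) with hP
  have hPne : P.Nonempty := by
    rw [hP, Fintype.piFinset_nonempty]
    exact fun _ => hY
  set D : ℝ := (𝒴.card : ℝ) with hD
  have hD0 : 0 < D := by rw [hD]; exact_mod_cast hY.card_pos
  have hXc : (0 : ℝ) < 𝒳.card := by exact_mod_cast hX.card_pos
  let Yx : X → Finset Y := fun x => 𝒴.filter fun y => r x y
  let d : X → ℝ := fun x => (Yx x).card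
  have hd0 : ∀ x, 0 ≤ d x := fun x => Nat.cast_nonneg _
  let Xf : (Fin k → Y) → Finset X := fun f => 𝒳.filter fun x => ∀ i, r x (f i)
  let Yf : (Fin k → Y) → Finset Y := fun f => 𝒴.filter fun y => w f y ≤ 2 * W
  -- the tuples related to `x`
  have hfil : ∀ x, P.filter (fun f => ∀ i, r x (f i)) = Fintype.piFinset (fun _ : Fin k => Yx x) := by
    intro x
    ext f
    simp only [hP, Finset.mem_filter, Fintype.mem_piFinset, Yx]
    exact ⟨fun h i => ⟨h.1 i, h.2 i⟩, fun h => ⟨fun i => (h i).1, fun i => (h i).2⟩⟩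
  have hSsum : ∑ f ∈ P, ((Xf f).card : ℝ) = ∑ x ∈ 𝒳, d x ^ k := by
    have h1 : ∀ f, ((Xf f).card : ℝ) = ∑ x ∈ 𝒳, if (∀ i, r x (f i)) then (1 : ℝ) else 0 := by
      intro f
      simp only [Xf, Finset.card_filter]
      push_cast
      rfl
    simp_rw [h1]
    rw [Finset.sum_comm]
    refine Finset.sum_congr rfl fun x _ => ?_
    rw [← Finset.sum_filter, hfil, Finset.sum_const, Fintype.card_piFinset]
    simp [d]
  have hTsum : 1 / 2 * ∑ x ∈ 𝒳, d x ^ (k + 1) ≤ ∑ f ∈ P, Zc r (Xf f) (Yf f) := by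
    have h1 : ∀ f, Zc r (Xf f) (Yf f) = ∑ x ∈ 𝒳, if (∀ i, r x (f i)) then
        (∑ y ∈ Yx x, if w f y ≤ 2 * W then (1 : ℝ) else 0) else 0 := by
      intro f
      rw [Zc_eq]
      simp only [Xf]
      rw [Finset.sum_filter]
      refine Finset.sum_congr rfl fun x _ => ?_
      split_ifs with h
      · simp only [Yf, Yx]
        rw [Finset.sum_filter, Finset.sum_filter]
        refine Finset.sum_congr rfl fun y _ => ?_
        split_ifs <;> rfl
      · rfl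
    simp_rw [h1]
    rw [Finset.sum_comm, Finset.mul_sum]
    refine Finset.sum_le_sum fun x _ => ?_
    rw [← Finset.sum_filter, hfil]
    -- Markov
    have hmk := hw (Yx x) (Finset.filter_subset _ _)
    have h2 : ∀ f, ∀ y, 1 - w f y / (2 * W) ≤ if w f y ≤ 2 * W then (1 : ℝ) else 0 := by
      intro f y
      split_ifs with h
      · have : 0 ≤ w f y / (2 * W) := div_nonneg (hw0 f y) (by positivity)
        linarith
      · have : 1 ≤ w f y / (2 * W) := by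
          rw [le_div_iff₀ (by positivity)]
          linarith [not_le.mp h]
        linarith
    calc 1 / 2 * d x ^ (k + 1)
        = d x ^ (k + 1) - W * d x ^ (k + 1) / (2 * W) := by field_simp; ring
      _ ≤ d x ^ (k + 1) - (∑ f ∈ Fintype.piFinset (fun _ : Fin k => Yx x), ∑ y ∈ Yx x, w f y) /
            (2 * W) := by
          have : (∑ f ∈ Fintype.piFinset (fun _ : Fin k => Yx x), ∑ y ∈ Yx x, w f y) / (2 * W) ≤
              W * d x ^ (k + 1) / (2 * W) := div_le_div_of_nonneg_right hmk (by positivity)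
          linarith
      _ = ∑ f ∈ Fintype.piFinset (fun _ : Fin k => Yx x), ∑ y ∈ Yx x, (1 - w f y / (2 * W)) := by
          simp only [Finset.sum_sub_distrib, Finset.sum_const, Fintype.card_piFinset, nsmul_eq_mul,
            mul_one, Finset.prod_const, Finset.card_univ, Fintype.card_fin, ← Finset.sum_div]
          push_cast
          simp only [d]
          ring
      _ ≤ _ := by
          refine Finset.sum_le_sum fun f _ => ?_
          exact Finset.sum_le_sum fun y _ => h2 f y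
  have hdsum : z * ((𝒳.card : ℝ) * D) ≤ ∑ x ∈ 𝒳, d x := by
    refine hcnt.trans (le_of_eq ?_)
    rw [Zc_eq]
    refine Finset.sum_congr rfl fun x _ => ?_
    simp only [d, Yx, Finset.card_filter]
    push_cast
    rfl
  -- the tangent inequality
  have hmain : z ^ (k + 1) / 4 * (𝒳.card * D) * D ^ k ≤
      ∑ f ∈ P, (Zc r (Xf f) (Yf f) - z / 4 * ((Xf f).card * D)) := by
    rw [Finset.sum_sub_distrib, ← Finset.mul_sum, ← Finset.sum_mul, hSsum]
    refine le_trans ?_ (sub_le_sub_right hTsum _)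
    have hc : z / 4 * ((∑ x ∈ 𝒳, d x ^ k) * D) = ∑ x ∈ 𝒳, z / 4 * (d x ^ k * D) := by
      rw [Finset.sum_mul, Finset.mul_sum]
    rw [hc, Finset.mul_sum, ← Finset.sum_sub_distrib]
    have hq0 : 0 ≤ z ^ (k + 1) * D ^ (k + 1) / 4 :=
      div_nonneg (mul_nonneg (pow_nonneg hz.le _) (pow_nonneg hD0.le _)) (by norm_num)
    have hterm : ∀ x ∈ 𝒳, z ^ (k + 1) * D ^ (k + 1) / 4 * (1 + (k + 2) * (d x / (z * D) - 1)) ≤
        1 / 2 * d x ^ (k + 1) - z / 4 * (d x ^ k * D) := by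
      intro x _
      have hzD : 0 < z * D := by positivity
      obtain ⟨u, hu⟩ : ∃ u : ℝ, u = d x / (z * D) := ⟨_, rfl⟩
      have hdu : d x = u * (z * D) := by rw [hu, div_mul_cancel₀ _ hzD.ne']
      have hu0 : 0 ≤ u := by rw [hu]; exact div_nonneg (hd0 x) hzD.le
      rw [← hu, hdu]
      have ht := tangent k u hu0 hk
      have h3 : 1 / 2 * (u * (z * D)) ^ (k + 1) - z / 4 * ((u * (z * D)) ^ k * D) =
          z ^ (k + 1) * D ^ (k + 1) / 4 * (2 * u ^ (k + 1) - u ^ k) := by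
        simp only [mul_pow, pow_succ]
        ring
      rw [h3]
      exact mul_le_mul_of_nonneg_left ht hq0
    refine le_trans ?_ (Finset.sum_le_sum hterm)
    rw [← Finset.mul_sum, Finset.sum_add_distrib, ← Finset.mul_sum, Finset.sum_sub_distrib,
      ← Finset.sum_div]
    simp only [Finset.sum_const, nsmul_eq_mul, mul_one]
    have h4 : 0 ≤ (∑ x ∈ 𝒳, d x) / (z * D) - 𝒳.card := by
      rw [sub_nonneg, le_div_iff₀ (by positivity)]
      linarith
    have h5 : 0 ≤ z ^ (k + 1) * D ^ (k + 1) / 4 *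
        (((k : ℝ) + 2) * ((∑ x ∈ 𝒳, d x) / (z * D) - 𝒳.card)) :=
      mul_nonneg hq0 (mul_nonneg (by positivity) h4)
    have h6 : z ^ (k + 1) / 4 * (𝒳.card * D) * D ^ k =
        z ^ (k + 1) * D ^ (k + 1) / 4 * 𝒳.card := by
      rw [pow_succ D]
      ring
    rw [h6, mul_add]
    linarith
  have hPcard : (P.card : ℝ) = D ^ k := by
    rw [hP, Fintype.card_piFinset]
    simp [hD]
  obtain ⟨f, hf, hfle⟩ : ∃ f ∈ P, z ^ (k + 1) / 4 * (𝒳.card * D) ≤
      Zc r (Xf f) (Yf f) - z / 4 * ((Xf f).card * D) := by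
    apply Finset.exists_le_of_sum_le hPne
    rw [Finset.sum_const, nsmul_eq_mul, hPcard]
    linarith
  have hfY : ∀ i, f i ∈ 𝒴 := by
    intro i
    exact (Fintype.mem_piFinset.mp hf) i
  refine ⟨f, hfY, ?_, ?_⟩
  · have : 0 ≤ z ^ (k + 1) / 4 * (𝒳.card * D) := by positivity
    have h7 : z / 4 * (((Xf f).card : ℝ) * D) ≤ Zc r (Xf f) (Yf f) := by linarith
    exact h7
  · have : 0 ≤ z / 4 * (((Xf f).card : ℝ) * D) := by positivity
    have h7 : z ^ (k + 1) / 4 * (𝒳.card * D) ≤ Zc r (Xf f) (Yf f) := by linarith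
    exact h7

/-- The sampling lemma without decidability instances in the conclusion. -/
theorem sampling' {X Y : Type} (r : X → Y → Prop) (𝒳 : Finset X) (𝒴 : Finset Y) (k : ℕ)
    (hk : 1 ≤ k) (w : (Fin k → Y) → Y → ℝ) (W : ℝ) (hW : 0 < W) (hw0 : ∀ f y, 0 ≤ w f y)
    (hw : ∀ 𝒴' ⊆ 𝒴, ∑ f ∈ Fintype.piFinset (fun _ : Fin k => 𝒴'), ∑ y ∈ 𝒴', w f y ≤
      W * (𝒴'.card : ℝ) ^ (k + 1))
    (z : ℝ) (hz : 0 < z) (hX : 𝒳.Nonempty) (hY : 𝒴.Nonempty)
    (hcnt : z * ((𝒳.card : ℝ) * 𝒴.card) ≤ Zc r 𝒳 𝒴) :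
    ∃ f : Fin k → Y, (∀ i, f i ∈ 𝒴) ∧ ∃ X₁ ⊆ 𝒳, ∃ Y₁ ⊆ 𝒴,
      (∀ x ∈ X₁, ∀ i, r x (f i)) ∧ (∀ y ∈ Y₁, w f y ≤ 2 * W) ∧
      z / 4 * ((X₁.card : ℝ) * 𝒴.card) ≤ Zc r X₁ Y₁ ∧
      z ^ (k + 1) / 4 * ((𝒳.card : ℝ) * 𝒴.card) ≤ Zc r X₁ Y₁ := by
  classical
  obtain ⟨f, hf, h1, h2⟩ := sampling r 𝒳 𝒴 k hk w W hW hw0 hw z hz hX hY hcnt
  exact ⟨f, hf, _, Finset.filter_subset _ _, _, Finset.filter_subset _ _,
    fun x hx => (Finset.mem_filter.mp hx).2, fun y hy => (Finset.mem_filter.mp hy).2, h1, h2⟩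

end Pool.Agent.LIS
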