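import Pool.Agent.LIS.ChI
import Pool.Agent.LIS.Fin

/-!
MP_132c09_co: exactly lambda-intersecting subfamilies, small error density.
-/

namespace Pool.Agent.LIS

open Finset

variable {n : ℕ}

open scoped Classical in
/-- The two phases together, for families in which the error density is small. -/
theorem two_phase (lam : ℕ) (hl : 1 ≤ lam) (hn : 1 ≤ n) (A₀ B₀ : Finset (Finset (Fin n)))
    (hA₀ : A₀.Nonempty) (hB₀ : B₀.Nonempty) (ε ρ : ℝ) (hε : 0 < ε) (hρ : 0 < ρ)
    (hρl : ρ * lam ≤ 1 / 2304) (hρε : ρ ^ (lam + 1) = 36864 * ε)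
    (hbad : S2 A₀ B₀ (fun S T => if (S ∩ T).card = lam then 0 else 1) ≤
      ε * ((A₀.card : ℝ) * B₀.card)) :
    ∃ A' ⊆ A₀, ∃ B' ⊆ B₀, ∃ I : Finset (Fin n), I.card = lam ∧
      (∀ S ∈ A', ∀ T ∈ B', S ∩ T = I) ∧
      Real.exp (-(4 * (lam * Real.log (n + 1)) + 13400 * (√(lam * n) * ρ))) *
        ((A₀.card : ℝ) * B₀.card) ≤ (A'.card : ℝ) * B'.card := by
  have hα : (0 : ℝ) < A₀.card := by exact_mod_cast hA₀.card_pos
  have hβ : (0 : ℝ) < B₀.card := by exact_mod_cast hB₀.card_pos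
  have hM : (0 : ℝ) < (A₀.card : ℝ) * B₀.card := mul_pos hα hβ
  have hn' : (1 : ℝ) ≤ n := by exact_mod_cast hn
  have hl' : (1 : ℝ) ≤ lam := by exact_mod_cast hl
  have hρs : ρ ≤ 1 / 2304 := by nlinarith
  have hρ1 : ρ < 1 := by linarith
  have hρ2 : ρ ^ (lam + 1) ≤ ρ ^ 2 := pow_le_pow_of_le_one hρ.le hρ1.le (by omega)
  have hρ3 : ρ ^ (lam + 1) ≤ ρ ^ lam := pow_le_pow_of_le_one hρ.le hρ1.le (by omega)
  have hερ : ε ≤ ρ := by nlinarith
  have hθ : ρ * lam + ε ≤ 1 / 1152 := by nlinarith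
  obtain ⟨A, hA, B, hB, hbig, hS⟩ := phase1 (fun S : Finset (Fin n) => S)
    (fun T : Finset (Fin n) => T) lam A₀ B₀ hA₀ hB₀ hn ε ρ hε hρ hρ1 hθ hbad
  have hAB : 0 < (A.card : ℝ) * B.card := lt_of_lt_of_le (by positivity) hbig
  have hAne : A.Nonempty := by
    by_contra hcon
    rw [Finset.not_nonempty_iff_eq_empty] at hcon
    rw [hcon] at hAB
    simp at hAB
  have hBne : B.Nonempty := by
    by_contra hcon
    rw [Finset.not_nonempty_iff_eq_empty] at hcon
    rw [hcon] at hAB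
    simp at hAB
  obtain ⟨A', hA', B', hB', I, hI, hint, hbig'⟩ := chI (fun S : Finset (Fin n) => S)
    (fun T : Finset (Fin n) => T) lam hl A B hAne hBne hn ρ (12 * ε) hρ hρ1 (by positivity)
    (by linarith) (by linarith) hS
  refine ⟨A', hA'.trans hA, B', hB'.trans hB, I, hI, hint, le_trans ?_ hbig'⟩
  -- numerics
  set R : ℝ := √(lam * n) * ρ with hR
  have hR0 : 0 ≤ R := by positivity
  have hrr : √((lam : ℝ) * n) * √((lam : ℝ) * n) = lam * n := Real.mul_self_sqrt (by positivity)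
  have h1 : √(ρ * n * (ρ * lam + ε)) ≤ 1.42 * R := by
    rw [Real.sqrt_le_left (by positivity)]
    have e : (1.42 * R) ^ 2 =
        1.42 ^ 2 * (√((lam : ℝ) * n) * √((lam : ℝ) * n)) * (ρ * ρ) := by
      rw [hR]; ring
    rw [e, hrr]
    have h2 : ε ≤ ρ * lam := by nlinarith
    have h3 : ρ * n * (ρ * lam + ε) ≤ ρ * n * (2 * (ρ * lam)) := by
      apply mul_le_mul_of_nonneg_left _ (by positivity)
      linarith
    have h4 : 0 ≤ (lam : ℝ) * n * (ρ * ρ) := by positivity
    nlinarith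
  have h2 : √(n * (16 * (12 * ε) / ρ ^ (lam - 1))) ≤ 0.1 * R := by
    rw [Real.sqrt_le_left (by positivity)]
    have e : (0.1 * R) ^ 2 =
        0.01 * (√((lam : ℝ) * n) * √((lam : ℝ) * n)) * (ρ * ρ) := by
      rw [hR]; ring
    rw [e, hrr]
    have h3 : ρ ^ (lam + 1) = ρ ^ (lam - 1) * (ρ * ρ) := by
      obtain ⟨l, rfl⟩ : ∃ l, lam = l + 1 := ⟨lam - 1, by omega⟩
      have : l + 1 - 1 = l := by omega
      rw [this]; ring
    have h4 : 16 * (12 * ε) / ρ ^ (lam - 1) = ρ * ρ / 192 := by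
      have : ε = ρ ^ (lam - 1) * (ρ * ρ) / 36864 := by
        rw [← h3, hρε]; ring
      rw [this]
      field_simp
      norm_num
    rw [h4]
    have h5 : (n : ℝ) * (ρ * ρ) ≤ lam * n * (ρ * ρ) := by
      apply mul_le_mul_of_nonneg_right _ (by positivity)
      nlinarith
    nlinarith
  have hlog : 0.69 ≤ Real.log (n + 1) := by
    have h3 : Real.log 2 ≤ Real.log (n + 1) := Real.log_le_log (by norm_num) (by linarith)
    linarith [Real.log_two_gt_d9]
  set Lg : ℝ := lam * Real.log (n + 1) with hLg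
  have hLg0 : 0.69 ≤ Lg := by nlinarith
  have hchoose : ((n.choose lam : ℕ) : ℝ) ≤ Real.exp Lg := by
    have h3 : ((n.choose lam : ℕ) : ℝ) ≤ (n : ℝ) ^ lam := by exact_mod_cast Nat.choose_le_pow n lam
    have h4 : (n : ℝ) ^ lam ≤ ((n : ℝ) + 1) ^ lam := pow_le_pow_left₀ (by linarith) (by linarith) _
    have h5 : Real.exp Lg = ((n : ℝ) + 1) ^ lam := by
      rw [hLg, mul_comm, Real.exp_mul, Real.exp_log (by linarith), Real.rpow_natCast]
    rw [h5]
    linarith
  have hCpos : (0 : ℝ) < ((n.choose lam : ℕ) : ℝ) := by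
    rcases Nat.eq_zero_or_pos (n.choose lam) with h0 | h0
    · exfalso
      have hle : lam ≤ n := by
        rw [← hI]
        have := Finset.card_le_univ I
        rwa [Fintype.card_fin] at this
      have := Nat.choose_pos hle
      omega
    · exact_mod_cast h0
  have hc : Real.exp (-2) ≤ 9 / 64 := by
    rw [Real.exp_neg, inv_le_comm₀ (Real.exp_pos _) (by norm_num)]
    have h3 : (2.7182818283 : ℝ) < Real.exp 1 := Real.exp_one_gt_d9
    have h4 : Real.exp 2 = Real.exp 1 * Real.exp 1 := by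
      rw [← Real.exp_add]; norm_num
    rw [h4]
    nlinarith
  have hb1 : Real.exp (-(9216 * (1.42 * R))) ≤ Real.exp (-(9216 * √(ρ * n * (ρ * lam + ε)))) := by
    apply Real.exp_le_exp.mpr
    linarith
  have hb2 : Real.exp (-(3072 * (0.1 * R))) ≤
      Real.exp (-(3072 * √(n * (16 * (12 * ε) / ρ ^ (lam - 1))))) := by
    apply Real.exp_le_exp.mpr
    linarith
  have hb3 : Real.exp (-Lg) ≤ 1 / ((n.choose lam : ℕ) : ℝ) := by
    rw [Real.exp_neg, one_div]
    exact inv_anti₀ hCpos hchoose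
  have e1 : Real.exp (-(4 * Lg + 13400 * R)) ≤
      Real.exp (-2) * Real.exp (-Lg) * Real.exp (-(9216 * (1.42 * R))) *
        Real.exp (-(3072 * (0.1 * R))) := by
    rw [← Real.exp_add, ← Real.exp_add, ← Real.exp_add]
    apply Real.exp_le_exp.mpr
    nlinarith
  calc Real.exp (-(4 * Lg + 13400 * R)) * ((A₀.card : ℝ) * B₀.card)
      ≤ (Real.exp (-2) * Real.exp (-Lg) * Real.exp (-(9216 * (1.42 * R))) *
        Real.exp (-(3072 * (0.1 * R)))) * ((A₀.card : ℝ) * B₀.card) :=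
        mul_le_mul_of_nonneg_right e1 hM.le
    _ ≤ (9 / 64 * (1 / ((n.choose lam : ℕ) : ℝ)) *
        Real.exp (-(9216 * √(ρ * n * (ρ * lam + ε)))) *
        Real.exp (-(3072 * √(n * (16 * (12 * ε) / ρ ^ (lam - 1)))))) *
          ((A₀.card : ℝ) * B₀.card) := by
        apply mul_le_mul_of_nonneg_right _ hM.le
        apply mul_le_mul _ hb2 (by positivity) (by positivity)
        apply mul_le_mul _ hb1 (by positivity) (by positivity)
        exact mul_le_mul hc hb3 (by positivity) (by norm_num)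
    _ = 3 / 4 * Real.exp (-(3072 * √(n * (16 * (12 * ε) / ρ ^ (lam - 1))))) *
        ((3 / 4 * Real.exp (-(9216 * √(ρ * n * (ρ * lam + ε)))) *
          ((A₀.card : ℝ) * B₀.card)) / (4 * (n.choose lam : ℕ))) := by
        field_simp
        norm_num
    _ ≤ _ := by
        apply mul_le_mul_of_nonneg_left _ (by positivity)
        exact div_le_div_of_nonneg_right hbig (by positivity)

open scoped Classical in
/-- Main theorem with natural exponentials. -/
theorem smallE (lam : ℕ) (hl : 1 ≤ lam) (hn : 1 ≤ n) (A₀ B₀ : Finset (Finset (Fin n)))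
    (hA₀ : A₀.Nonempty) (hB₀ : B₀.Nonempty) (ε : ℝ) (hε : 0 < ε) (hε2 : ε ≤ 1 / 2)
    (hcnt : (1 - ε) * ((A₀.card : ℝ) * B₀.card) ≤
      Zc (fun S T : Finset (Fin n) => (S ∩ T).card = lam) A₀ B₀) :
    ∃ A' ⊆ A₀, ∃ B' ⊆ B₀, ∃ I : Finset (Fin n), I.card = lam ∧
      (∀ S ∈ A', ∀ T ∈ B', S ∩ T = I) ∧
      Real.exp (-(4 * (lam * Real.log (n + 1)) +
        20200000 * (lam * √(lam * n) * ε ^ ((1 : ℝ) / (lam + 1))))) *
        ((A₀.card : ℝ) * B₀.card) ≤ (A'.card : ℝ) * B'.card := by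
  have hα : (0 : ℝ) < A₀.card := by exact_mod_cast hA₀.card_pos
  have hβ : (0 : ℝ) < B₀.card := by exact_mod_cast hB₀.card_pos
  have hM : (0 : ℝ) < (A₀.card : ℝ) * B₀.card := mul_pos hα hβ
  have hn' : (1 : ℝ) ≤ n := by exact_mod_cast hn
  have hl' : (1 : ℝ) ≤ lam := by exact_mod_cast hl
  set E : ℝ := ε ^ ((1 : ℝ) / (lam + 1)) with hE
  have hE0 : 0 < E := Real.rpow_pos_of_pos hε _
  set ρ : ℝ := (36864 * ε) ^ ((1 : ℝ) / (lam + 1)) with hρdef
  have hρ0 : 0 < ρ := Real.rpow_pos_of_pos (by positivity) _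
  have hρE : ρ ≤ 192 * E := by
    rw [hρdef, hE, Real.mul_rpow (by norm_num) hε.le]
    apply mul_le_mul_of_nonneg_right _ hE0.le
    have h1 : (36864 : ℝ) ^ ((1 : ℝ) / (lam + 1)) ≤ (36864 : ℝ) ^ ((1 : ℝ) / 2) := by
      apply Real.rpow_le_rpow_of_exponent_le (by norm_num)
      rw [div_le_div_iff₀ (by positivity) (by norm_num)]
      linarith
    have h2 : (36864 : ℝ) ^ ((1 : ℝ) / 2) = 192 := by
      rw [← Real.sqrt_eq_rpow, Real.sqrt_eq_iff_mul_self_eq (by norm_num) (by norm_num)]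
      norm_num
    linarith
  have hρpow : ρ ^ (lam + 1) = 36864 * ε := by
    rw [hρdef, ← Real.rpow_natCast, ← Real.rpow_mul (by positivity)]
    have : (1 : ℝ) / (lam + 1) * ((lam + 1 : ℕ) : ℝ) = 1 := by
      push_cast
      field_simp
    rw [this, Real.rpow_one]
  have hlog : 0 ≤ (lam : ℝ) * Real.log (n + 1) := by
    apply mul_nonneg (by linarith)
    exact Real.log_nonneg (by linarith)
  rcases le_or_gt (ρ * lam) (1 / 2304) with hsm | hlg
  · obtain ⟨A', hA', B', hB', I, hI, hint, hbig⟩ := two_phase lam hl hn A₀ B₀ hA₀ hB₀ ε ρ hε hρ0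
      hsm hρpow (by
        have h1 : S2 A₀ B₀ (fun S T : Finset (Fin n) => if (S ∩ T).card = lam then (0 : ℝ) else 1) =
            (A₀.card : ℝ) * B₀.card - Zc (fun S T : Finset (Fin n) => (S ∩ T).card = lam) A₀ B₀ := by
          have h2 : (A₀.card : ℝ) * B₀.card = ∑ S ∈ A₀, ∑ T ∈ B₀, (1 : ℝ) := by simp
          rw [h2]
          unfold S2 Zc
          rw [← Finset.sum_sub_distrib]
          apply Finset.sum_congr rfl
          intro S _
          rw [← Finset.sum_sub_distrib]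
          apply Finset.sum_congr rfl
          intro T _
          beta_reduce
          split_ifs <;> norm_num
        rw [h1]
        linarith)
    refine ⟨A', hA', B', hB', I, hI, hint, le_trans ?_ hbig⟩
    apply mul_le_mul_of_nonneg_right _ hM.le
    apply Real.exp_le_exp.mpr
    have h1 : √(lam * n) * ρ ≤ √(lam * n) * (192 * E) :=
      mul_le_mul_of_nonneg_left hρE (Real.sqrt_nonneg _)
    have h2 : √((lam : ℝ) * n) * E ≤ lam * √(lam * n) * E := by
      have h3 : 0 ≤ √((lam : ℝ) * n) * E := by positivity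
      nlinarith
    have h4 : 0 ≤ (lam : ℝ) * √(lam * n) * E := by positivity
    linarith
  · have hz0 : (0 : ℝ) < 1 - ε := by linarith
    obtain ⟨A', hA', B', hB', I, hI, hint, hbig⟩ := opt n lam lam hn (le_refl _) hl (1 - ε) hz0
      (by linarith) A₀ B₀ hA₀ hB₀ hcnt
    refine ⟨A', hA', B', hB', I, hI, hint, le_trans ?_ hbig⟩
    apply mul_le_mul_of_nonneg_right _ hM.le
    apply Real.exp_le_exp.mpr
    have h1 : Real.log (1 / (1 - ε)) ≤ 1 := by
      have h2 : 1 / (1 - ε) ≤ 2 := by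
        rw [div_le_iff₀ hz0]
        linarith
      have h3 := Real.log_le_log (by positivity) h2
      linarith [Real.log_two_lt_d9]
    have h2 : √((n : ℝ) * (lam + Real.log (1 / (1 - ε)))) ≤ 1.42 * √(lam * n) := by
      rw [Real.sqrt_le_left (by positivity)]
      have h3 : √((lam : ℝ) * n) * √((lam : ℝ) * n) = lam * n := Real.mul_self_sqrt (by positivity)
      have e : (1.42 * √((lam : ℝ) * n)) ^ 2 =
          1.42 ^ 2 * (√((lam : ℝ) * n) * √((lam : ℝ) * n)) := by
        ring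
      rw [e, h3]
      have h4 : (n : ℝ) * (lam + Real.log (1 / (1 - ε))) ≤ n * (2 * lam) := by
        apply mul_le_mul_of_nonneg_left _ (by linarith)
        linarith
      have h5 : 0 ≤ (lam : ℝ) * n := by positivity
      nlinarith
    have h3 : √((lam : ℝ) * n) ≤ 442368 * (lam * √(lam * n) * E) := by
      have h4 : 1 ≤ 2304 * (lam * (192 * E)) := by
        have : ρ * lam ≤ 192 * E * lam := mul_le_mul_of_nonneg_right hρE (by linarith)
        linarith
      have h5 : 0 ≤ √((lam : ℝ) * n) := Real.sqrt_nonneg _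
      nlinarith [mul_le_mul_of_nonneg_right h4 h5]
    have h4 : 0 ≤ (lam : ℝ) * √(lam * n) * E := by positivity
    linarith

end Pool.Agent.LIS
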